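import Pool.Agent.Lib.MP_f35bed_an.Slab

/-!
Dyadic coding of a function with integrable mixed derivative on a product grid.
-/

open MeasureTheory Filter Topology Metric Set WithLp Function
open scoped ContDiff ENNReal

namespace Pool.Agent.Lib.MP_f35bed_an

variable {m : ℕ} {V : Type} [NormedAddCommGroup V] [NormedSpace ℝ V]

lemma Dl_concat (l : List (Fin (m + 1))) (i : Fin (m + 1)) (w : Eu m → V) :
    Dl (l ++ [i]) w = pd i (Dl l w) := by
  induction l generalizing w with
  | nil => rfl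
  | cons j l ih => exact ih _

/-- Difference of two slices. -/
noncomputable def dif (i : Fin (m + 1)) (s t : ℝ) (w : Eu m → V) (y : Eu m) : V :=
  w (toLp 2 (update (ofLp y) i t)) - w (toLp 2 (update (ofLp y) i s))

lemma up_smooth (i : Fin (m + 1)) (t : ℝ) :
    ContDiff ℝ ∞ fun y : Eu m => (toLp 2 (update (ofLp y) i t) : Eu m) := by
  refine contDiff_euclidean.2 fun j => ?_
  by_cases h : j = i
  · subst h; simpa using contDiff_const
  · simpa [h] using smooth_coord j

lemma dif_smooth (i : Fin (m + 1)) (s t : ℝ) {w : Eu m → V} (hw : ContDiff ℝ ∞ w) :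
    ContDiff ℝ ∞ (dif i s t w) := (hw.comp (up_smooth i t)).sub (hw.comp (up_smooth i s))

lemma pd_dif {i j : Fin (m + 1)} (hij : j ≠ i) (s t : ℝ) {w : Eu m → V} (hw : ContDiff ℝ ∞ w) :
    pd j (dif i s t w) = dif i s t (pd j w) := by
  funext y
  have h1 : ∀ r u : ℝ, (toLp 2 (update (ofLp (y + u • EuclideanSpace.single j 1)) i r) : Eu m)
      = toLp 2 (update (ofLp y) i r) + u • EuclideanSpace.single j 1 := fun r u => by
    ext a
    by_cases h : a = i
    · subst h; simp [hij.symm]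
    · simp [h, Pi.single_apply]
  have h2 := hasDerivAt_line j (dif_smooth i s t hw) y 0
  have h3 := (hasDerivAt_line j hw (toLp 2 (update (ofLp y) i t)) 0).sub
    (hasDerivAt_line j hw (toLp 2 (update (ofLp y) i s)) 0)
  simp only [dif, h1] at h2
  simpa [dif] using h2.unique h3

lemma Dl_dif {i : Fin (m + 1)} (s t : ℝ) (l : List (Fin (m + 1))) (hi : i ∉ l) {w : Eu m → V}
    (hw : ContDiff ℝ ∞ w) : Dl l (dif i s t w) = dif i s t (Dl l w) := by
  induction l generalizing w with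
  | nil => rfl
  | cons j l ih =>
    rw [List.mem_cons, not_or] at hi
    rw [Dl, Dl, pd_dif (Ne.symm hi.1) s t hw, ih hi.2 (pd_smooth j hw)]

/-- Mixed variation in the directions of `l`. -/
noncomputable def Vv (l : List (Fin (m + 1))) (w : Eu m → V) : (Fin (m + 1) → ℝ) → ℝ≥0∞ :=
  lmarginal (fun _ => volume) l.toFinset fun z => ‖Dl l.reverse w (toLp 2 z)‖ₑ

lemma sum_Ioc {σ : ℕ → ℝ} (hσ : Monotone σ) (g : ℝ → ℝ≥0∞) (n : ℕ) :
    ∑ b ∈ Finset.range n, ∫⁻ u in Ioc (σ b) (σ (b + 1)), g u = ∫⁻ u in Ioc (σ 0) (σ n), g u := by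
  induction n with
  | zero => simp
  | succ n ih =>
    rw [Finset.sum_range_succ, ih, ← lintegral_union measurableSet_Ioc (Ioc_disjoint_Ioc_of_le le_rfl),
      Ioc_union_Ioc_eq_Ioc (hσ n.zero_le) (hσ n.le_succ)]

lemma Vv_sum {i : Fin (m + 1)} {l : List (Fin (m + 1))} (hi : i ∉ l) {w : Eu m → V}
    (hw : ContDiff ℝ ∞ w) {σ : ℕ → ℝ} (hσ : Monotone σ) (n : ℕ) (y : Fin (m + 1) → ℝ) :
    ∑ b ∈ Finset.range n, Vv l (dif i (σ b) (σ (b + 1)) w) y ≤ Vv (i :: l) w y := by
  rw [Vv, List.toFinset_cons, lmarginal_insert' _ (meas_Dl _ hw) (by simpa using hi)]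
  simp only [Vv, lmarginal]
  refine (lintegral_finsetSum _ fun b _ => (meas_Dl l.reverse
    (dif_smooth i (σ b) (σ (b + 1)) hw)).comp measurable_updateFinset).symm.trans_le ?_
  refine lintegral_mono fun x => ?_
  set z := updateFinset y l.toFinset x
  refine le_trans ?_ ((sum_Ioc hσ _ n).trans_le (setLIntegral_le_lintegral _ _))
  refine Finset.sum_le_sum fun b _ => ?_
  have h1 := Dl_smooth l.reverse hw
  rw [Function.comp_apply, Dl_dif _ _ _ (by simpa using hi) hw, List.reverse_cons, Dl_concat,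
    restrict_Ioc_eq_restrict_Icc]
  refine (enorm_sub_le_lintegral_deriv_of_contDiffOn_Icc (line_facts z i h1).1.contDiffOn
    (hσ b.le_succ)).trans (lintegral_mono fun u => ?_)
  rw [(line_facts z i h1).2 u]

/-- Indicator of the dyadic block `(j, b)` being used in the expansion of `n`. -/
def cf (j b n : ℕ) : ℝ := if n / 2 ^ j = b + 1 ∧ b % 2 = 0 then 1 else 0

lemma cf_nonneg (j b n : ℕ) : 0 ≤ cf j b n := by unfold cf; split_ifs <;> norm_num

lemma cf_sum (j n K : ℕ) : ∑ b ∈ Finset.range K, cf j b n ≤ 1 := by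
  refine (Finset.sum_le_sum (g := fun b => if b = n / 2 ^ j - 1 then (1 : ℝ) else 0)
    fun b _ => ?_).trans ?_
  · unfold cf
    split_ifs with h1 h2
    · exact le_rfl
    · omega
    · exact zero_le_one
    · exact le_rfl
  · rw [Finset.sum_ite_eq']
    split_ifs <;> norm_num

lemma dyadic (g : ℕ → V) {k n : ℕ} (hn : n < 2 ^ k) :
    g n - g 0 = ∑ j ∈ Finset.range k, ∑ b ∈ Finset.range (2 ^ k),
      cf j b n • (g ((b + 1) * 2 ^ j) - g (b * 2 ^ j)) := by
  have h1 := Finset.sum_range_sub' (fun j => g (n / 2 ^ j * 2 ^ j)) k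
  simp only [pow_zero, Nat.div_one, mul_one, Nat.div_eq_of_lt hn, zero_mul] at h1
  rw [← h1]
  refine Finset.sum_congr rfl fun j _ => ?_
  have h2 : n / 2 ^ j ≤ n := Nat.div_le_self _ _
  have h3 : n / 2 ^ (j + 1) * 2 ^ (j + 1) = (n / 2 ^ j / 2 * 2) * 2 ^ j := by
    rw [pow_succ, ← Nat.div_div_eq_div_mul]; ring
  rw [h3]
  unfold cf
  generalize n / 2 ^ j = r at h2 ⊢
  by_cases h : r % 2 = 1
  · rw [Finset.sum_eq_single (r - 1)]
    · rw [if_pos (by omega), one_smul, show r - 1 + 1 = r by omega, show r / 2 * 2 = r - 1 by omega]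
    · intro b _ hb
      rw [if_neg (by omega), zero_smul]
    · intro hb
      exact absurd (Finset.mem_range.2 (by omega)) hb
  · rw [show r / 2 * 2 = r by omega, sub_self]
    exact (Finset.sum_eq_zero fun b _ => by rw [if_neg (by omega), zero_smul]).symm

/-- The grid point with index `γ` in the directions of `l`. -/
def pt (l : List (Fin (m + 1))) (τ : Fin (m + 1) → ℕ → ℝ) (γ : Fin (m + 1) → ℕ)
    (y : Fin (m + 1) → ℝ) : Fin (m + 1) → ℝ := fun j => if j ∈ l then τ j (γ j) else y j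

lemma code {A0 : Finset V} {α β : ℝ} (hα : 0 ≤ α)
    (h0 : ∀ v : V, ∃ q : Multiset V, (∀ σ ∈ q, σ ∈ A0) ∧ (Multiset.card q : ℝ) ≤ α * ‖v‖ ∧
      ‖v - q.sum‖ ≤ β) (k : ℕ) (l : List (Fin (m + 1))) (hl : l.Nodup) :
    ∃ A : Finset ((Fin (m + 1) → ℕ) → V), A.card ≤ (k * 2 ^ k) ^ l.length * A0.card ∧
      ∀ τ : Fin (m + 1) → ℕ → ℝ, (∀ j, Monotone (τ j)) → ∀ w : Eu m → V, ContDiff ℝ ∞ w →
        (∀ z, (∃ j ∈ l, z j = τ j 0) → w (toLp 2 z) = 0) → ∀ y (v : ℝ), 0 ≤ v →
        Vv l w y ≤ ENNReal.ofReal v →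
        ∃ q : Multiset ((Fin (m + 1) → ℕ) → V), (∀ σ ∈ q, σ ∈ A) ∧
          (Multiset.card q : ℝ) ≤ k ^ l.length * α * v ∧ ∀ γ, (∀ j, γ j < 2 ^ k) →
            ‖w (toLp 2 (pt l τ γ y)) - q.sum γ‖ ≤ k ^ l.length * β := by
  classical
  induction l with
  | nil =>
    refine ⟨A0.image fun v _ => v, by simpa using Finset.card_image_le,
      fun τ _ w _ _ y v hv hV => ?_⟩
    obtain ⟨q, h1, h2, h3⟩ := h0 (w (toLp 2 y))
    have h4 : ‖w (toLp 2 y)‖ ≤ v := by
      rw [← ENNReal.ofReal_le_ofReal_iff hv, ofReal_norm]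
      simpa [Vv, Dl] using hV
    refine ⟨q.map fun v _ => v, fun σ hσ => ?_, ?_, fun γ _ => ?_⟩
    · obtain ⟨x, hx, rfl⟩ := Multiset.mem_map.1 hσ
      exact Finset.mem_image_of_mem _ (h1 x hx)
    · simpa using h2.trans (mul_le_mul_of_nonneg_left h4 hα)
    · have h5 : (q.map fun (v : V) (_ : Fin (m + 1) → ℕ) => v).sum γ = q.sum := by
        have := map_multiset_sum (Pi.evalAddMonoidHom (fun _ : Fin (m + 1) → ℕ => V) γ)
          (q.map fun v _ => v)
        simpa using this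
      have h6 : pt [] τ γ y = y := funext fun j => by simp [pt]
      simpa [h5, h6] using h3
  | cons i l ih =>
    obtain ⟨hi, hl'⟩ := List.nodup_cons.1 hl
    obtain ⟨A, hA, ih⟩ := ih hl'
    set c : ℕ → ℕ → (Fin (m + 1) → ℕ) → ℝ := fun j b γ => cf j b (γ i) with hc
    refine ⟨((Finset.range k ×ˢ Finset.range (2 ^ k)) ×ˢ A).image fun x => c x.1.1 x.1.2 • x.2,
      Finset.card_image_le.trans ?_, fun τ hτ w hw hz y v hv hV => ?_⟩
    · rw [Finset.card_product, Finset.card_product, Finset.card_range, Finset.card_range,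
        List.length_cons, pow_succ', mul_assoc (k * 2 ^ k)]
      exact Nat.mul_le_mul_left _ hA
    set W : ℕ → ℕ → Eu m → V := fun j b => dif i (τ i (b * 2 ^ j)) (τ i ((b + 1) * 2 ^ j)) w with hW
    have h1 : ∀ j n, ∑ b ∈ Finset.range n, Vv l (W j b) y ≤ ENNReal.ofReal v := fun j n =>
      (Vv_sum hi hw (σ := fun b => τ i (b * 2 ^ j))
        (fun _ _ h => hτ i (Nat.mul_le_mul_right _ h)) n y).trans hV
    have h2 : ∀ j b, Vv l (W j b) y ≠ ⊤ := fun j b => ne_top_of_le_ne_top ENNReal.ofReal_ne_top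
      ((Finset.single_le_sum (f := fun b => Vv l (W j b) y) (fun _ _ => zero_le)
        (Finset.self_mem_range_succ b)).trans (h1 j (b + 1)))
    choose q q1 q2 q3 using fun j b => ih τ hτ (W j b) (dif_smooth _ _ _ hw) (fun z ⟨a, ha, h⟩ => by
      have hai : a ≠ i := fun e => hi (e ▸ ha)
      simp only [hW, dif]
      rw [hz _ ⟨a, List.mem_cons_of_mem _ ha, by simpa [hai] using h⟩,
        hz _ ⟨a, List.mem_cons_of_mem _ ha, by simpa [hai] using h⟩, sub_self])
      y _ ENNReal.toReal_nonneg (ENNReal.ofReal_toReal (h2 j b)).ge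
    refine ⟨∑ j ∈ Finset.range k, ∑ b ∈ Finset.range (2 ^ k), (q j b).map (c j b • ·),
      fun σ hσ => ?_, ?_, fun γ hγ => ?_⟩
    · simp only [Multiset.mem_sum, Multiset.mem_map] at hσ
      obtain ⟨j, hj, b, hb, x, hx, rfl⟩ := hσ
      exact Finset.mem_image.2 ⟨((j, b), x), Finset.mem_product.2
        ⟨Finset.mem_product.2 ⟨hj, hb⟩, q1 j b x hx⟩, rfl⟩
    · simp only [Multiset.card_sum, Multiset.card_map, Nat.cast_sum]
      refine (Finset.sum_le_card_nsmul _ _ (k ^ l.length * α * v) fun j _ =>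
        (Finset.sum_le_sum fun b _ => q2 j b).trans ?_).trans_eq ?_
      · rw [← Finset.mul_sum, ← ENNReal.toReal_sum fun b _ => h2 j b]
        exact mul_le_mul_of_nonneg_left (ENNReal.toReal_le_of_le_ofReal hv (h1 j _)) (by positivity)
      · simp only [Finset.card_range, nsmul_eq_mul, List.length_cons]; ring
    · have h3 := dyadic (fun n => w (toLp 2 (update (pt l τ γ y) i (τ i n)))) (hγ i)
      have h4 : pt (i :: l) τ γ y = update (pt l τ γ y) i (τ i (γ i)) := funext fun j => by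
        by_cases h : j = i
        · subst h; simp [pt]
        · simp [pt, h]
      rw [hz (update _ i (τ i 0)) ⟨i, List.mem_cons_self, by simp⟩, sub_zero] at h3
      simp only [Multiset.sum_sum, ← Multiset.smul_sum, Finset.sum_apply]
      rw [h4, h3, ← Finset.sum_sub_distrib]
      refine (norm_sum_le _ _).trans ((Finset.sum_le_card_nsmul _ _ (k ^ l.length * β)
        fun j _ => ?_).trans_eq ?_)
      · have h5 := (norm_nonneg _).trans (q3 0 0 γ hγ)
        rw [← Finset.sum_sub_distrib]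
        refine (norm_sum_le _ _).trans ((Finset.sum_le_sum
          (g := fun b => cf j b (γ i) * (k ^ l.length * β)) fun b _ => ?_).trans ?_)
        · rw [Pi.smul_apply', ← smul_sub, norm_smul, Real.norm_of_nonneg (cf_nonneg _ _ _)]
          exact mul_le_mul_of_nonneg_left (q3 j b γ hγ) (cf_nonneg _ _ _)
        · rw [← Finset.sum_mul]
          exact mul_le_of_le_one_left h5 (cf_sum _ _ _)
      · simp only [Finset.card_range, nsmul_eq_mul, List.length_cons]; ring

end Pool.Agent.Lib.MP_f35bed_an
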