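import Pool.Agent.Lib.MP_f35bed_an.Defs

/-!
The energy bound with an allowance for terms of lower order.
-/

namespace Pool.Agent.Lib.MP_f35bed_an

/-- `f` lies in the Sobolev space of order `m` and exponent one, and the integral of the
Hilbert Schmidt norm of its derivative of order `m` is at most `lam` plus `L` times the sum of the
same integrals for the derivatives of order less than `m`. -/
def EnergyLeLower {m : ℕ} {V : Type} [NormedAddCommGroup V] [NormedSpace ℝ V] (f : Sph m → V)
    (lam L : ℝ) : Prop :=
  ∃ T, IsSobolevJet f T ∧ sphInt (fun x => √(∑ I, ‖T m x I‖ ^ 2))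
    ≤ lam + L * ∑ k ∈ Finset.range m, sphInt fun x => √(∑ I, ‖T k x I‖ ^ 2)

end Pool.Agent.Lib.MP_f35bed_an
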