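import Pool.Agent.Lib.MP_f35bed_an.Final
import Pool.Agent.Lib.MP_f35bed_an.DefsLower

/-!
Terms of lower order are absorbed by interpolation.
-/

open MeasureTheory Filter Topology Metric Set

namespace Pool.Agent.Lib.MP_f35bed_an

variable {m : ℕ} {V : Type} [NormedAddCommGroup V] [NormedSpace ℝ V]

lemma hs_le_aa {k : ℕ} (hk : k ≤ m) (t : Jet m V) :
    ∫ x, √(∑ I, ‖t.1.2 k x I‖ ^ 2) ∂sphMeasure m ≤ aa k t := by
  have hi := fun I => (t.2.2.1 k hk I).norm
  rw [aa, ← integral_finsetSum _ fun I _ => hi I]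
  refine integral_mono_of_nonneg (Eventually.of_forall fun x => Real.sqrt_nonneg _)
    (integrable_finsetSum Finset.univ fun I _ => hi I) (Eventually.of_forall fun x => ?_)
  exact Real.sqrt_le_iff.2 ⟨Finset.sum_nonneg fun _ _ => norm_nonneg _,
    Finset.sum_sq_le_sq_sum_of_nonneg fun _ _ => norm_nonneg _⟩

theorem absorb [CompleteSpace V] (hm : 1 ≤ m) (lam L M : ℝ) : ∃ lam' : ℝ, ∀ f : Sph m → V,
    (∀ x, ‖f x‖ ≤ M) → EnergyLeLower f lam L → EnergyLe f lam' := by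
  obtain ⟨k, rfl⟩ : ∃ k, m = k + 1 := ⟨m - 1, by omega⟩
  set c : ℝ := ((Fintype.card (Fin (k + 1) → Fin (k + 1 + 1)) : ℕ) : ℝ) with hc
  have hc0 : 0 ≤ c := Nat.cast_nonneg _
  have hL := abs_nonneg L
  have hp : 0 < |L| * c + 1 := by positivity
  obtain ⟨C, hC, h⟩ := interp_AA (m := k + 1) (V := V) k le_rfl (1 / (4 * (|L| * c + 1)))
    (by positivity)
  refine ⟨2 * (lam + |L| * (2 * C * ((sphMeasure (k + 1)).real univ * M))),
    fun f hf ⟨T, hT, hl⟩ => ⟨T, hT, ?_⟩⟩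
  set t : Jet (k + 1) V := ⟨(f, T), hT⟩ with ht
  have h1 := h t
  have h2 := AA_succ k t
  have h3 : aa (k + 1) t ≤ c * sphInt fun x => √(∑ I, ‖T (k + 1) x I‖ ^ 2) := aa_le le_rfl t
  have h4 : AA 0 t ≤ (sphMeasure (k + 1)).real univ * M := by
    rw [AA, Finset.sum_range_one, aa, Fintype.sum_unique, ← smul_eq_mul, ← integral_const]
    exact integral_mono (hT.2.1 0 (by simp) _).norm (integrable_const M)
      fun x => (congrArg norm (hT.1 x _)).trans_le (hf _)
  have h5 : ∑ j ∈ Finset.range (k + 1), (sphInt fun x => √(∑ I, ‖T j x I‖ ^ 2)) ≤ AA k t :=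
    Finset.sum_le_sum fun j hj => hs_le_aa (Finset.mem_range.1 hj).le t
  have h6 : 0 ≤ ∑ j ∈ Finset.range (k + 1), (sphInt fun x => √(∑ I, ‖T j x I‖ ^ 2)) :=
    Finset.sum_nonneg fun j _ => integral_nonneg fun x => Real.sqrt_nonneg _
  have h7 : 0 ≤ sphInt fun x => √(∑ I, ‖T (k + 1) x I‖ ^ 2) :=
    integral_nonneg fun x => Real.sqrt_nonneg _
  set E := sphInt fun x => √(∑ I, ‖T (k + 1) x I‖ ^ 2) with hE
  set W := (sphMeasure (k + 1)).real univ * M with hW
  set e := 1 / (4 * (|L| * c + 1)) with he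
  have he0 : 0 < e := by positivity
  have he1 : e * (|L| * c + 1) = 1 / 4 := by rw [he]; field_simp
  have hA := AA_nonneg k t
  have h8 : E ≤ lam + |L| * AA k t :=
    hl.trans (by nlinarith [le_abs_self L, mul_le_mul_of_nonneg_left h5 hL])
  have h9 : e ≤ 1 / 4 := by nlinarith [mul_nonneg he0.le (mul_nonneg hL hc0)]
  have h10 : AA k t ≤ 2 * e * (c * E) + 2 * C * W := by
    have := mul_le_mul_of_nonneg_left h4 hC
    have := mul_le_mul_of_nonneg_left h3 he0.le
    nlinarith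
  have h11 := mul_le_mul_of_nonneg_left h10 hL
  have h12 : |L| * (2 * e * (c * E)) ≤ E / 2 := by
    have : |L| * (2 * e * (c * E)) = 2 * (e * (|L| * c)) * E := by ring
    rw [this]
    nlinarith
  nlinarith

end Pool.Agent.Lib.MP_f35bed_an
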