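import Pool.Agent.Lib.MP_f35bed_an.Theta
import Pool.Agent.Lib.MP_f35bed_an.Lower

/-!
Counting the step functions, and linear dependence of all bounds on the energy.
-/

open MeasureTheory Filter Topology Metric Set WithLp Function
open scoped ContDiff ENNReal

namespace Pool.Agent.Lib.MP_f35bed_an

variable {m : ℕ}

lemma klog {D : ℝ} (hD : 1 ≤ D) : ∃ c : ℝ, 0 ≤ c ∧ ∀ (k : ℕ) (lam : ℝ), 0 ≤ lam →
    (2 : ℝ) ^ k ≤ D * (2 + lam) → k ≤ c * Real.log (2 + lam) := by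
  have h2 : 0 < Real.log 2 := Real.log_pos one_lt_two
  have h3 := Real.log_nonneg hD
  refine ⟨(Real.log D / Real.log 2 + 1) / Real.log 2, by positivity, fun k lam hl h => ?_⟩
  have h4 := Real.log_le_log (by positivity) h
  rw [Real.log_pow, Real.log_mul (by positivity) (by positivity)] at h4
  have h5 : Real.log 2 ≤ Real.log (2 + lam) := Real.log_le_log two_pos (by linarith)
  have h6 := mul_le_mul_of_nonneg_left h5 (div_nonneg h3 h2.le)
  rw [div_mul_cancel₀ _ h2.ne'] at h6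
  rw [div_mul_eq_mul_div, le_div_iff₀ h2]
  linarith

lemma alphabet_le {k ν a : ℕ} (hk : 1 ≤ k) (ha : a ≤ 2 * ν) :
    (((k * 2 ^ k) ^ m * a + 1 : ℕ) : ℝ) ≤ Real.exp ((2 * m + 2 * ν) * k) := by
  have hk' : (1 : ℝ) ≤ k := by exact_mod_cast hk
  have h1 : (k : ℝ) * 2 ^ k ≤ Real.exp (2 * k) := by
    rw [two_mul, Real.exp_add]
    refine mul_le_mul (by linarith [Real.add_one_le_exp (k : ℝ)]) ?_ (by positivity) (by positivity)
    rw [← Real.exp_one_pow]
    exact pow_le_pow_left₀ zero_le_two (by linarith [Real.add_one_le_exp (1 : ℝ)]) _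
  have h2 := pow_le_pow_left₀ (by positivity) h1 m
  rw [← Real.exp_nat_mul] at h2
  have h3 : (1 : ℝ) ≤ Real.exp (m * (2 * k)) := Real.one_le_exp (by positivity)
  have h4 : (a : ℝ) + 1 ≤ Real.exp (2 * ν * k) := by
    have h5 : (a : ℝ) ≤ 2 * ν := by exact_mod_cast ha
    nlinarith [Real.add_one_le_exp (2 * ν * k : ℝ), Nat.cast_nonneg (α := ℝ) ν]
  rw [show (2 * m + 2 * ν : ℝ) * k = m * (2 * k) + 2 * ν * k by ring, Real.exp_add]
  push_cast
  nlinarith [mul_le_mul_of_nonneg_right h2 (Nat.cast_nonneg (α := ℝ) a),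
    mul_le_mul_of_nonneg_left h4 (zero_le_one.trans h3)]

lemma thetas {ν : ℕ} {η : ℝ} (hη : 0 < η) {b : ℝ} (hb : 0 ≤ b) :
    ∃ C : ℝ, ∀ lam : ℝ, 0 ≤ lam → ∃ Θ : Finset (Sph m → EuclideanSpace ℝ (Fin ν)),
      (Θ.card : ℝ) ≤ Real.exp (C * (1 + lam) * Real.log (2 + lam) ^ (2 * m + 1)) ∧
      ∀ u w p, Model u w (b * (1 + lam)) η → Straight u p (b * (1 + lam)) η → ∃ θ ∈ Θ, ∀ x,
        ‖u (nz (toLp 2 fun j => p j (cb x j))) - θ x‖ ≤ (3 * m + 5) * η := by
  classical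
  have hD : 0 ≤ (1 + (m + 1) * b) / η := by positivity
  obtain ⟨c, hc, h1⟩ := klog (D := 6 * ((1 + (m + 1) * b) / η + 1)) (by linarith)
  refine ⟨(2 * m + 2 * ν) * (ν * (ν + 1) / η * b) * (2 * (m + 1)) * c ^ (2 * m + 1),
    fun lam hl => ?_⟩
  set B := b * (1 + lam) with hB
  have hB0 : 0 ≤ B := by positivity
  obtain ⟨K, hK1, hK2⟩ : ∃ K : ℕ, (1 + (m + 1) * B) / η ≤ K ∧ K ≤ (1 + (m + 1) * B) / η + 1 :=
    ⟨_, Nat.le_ceil _, (Nat.ceil_lt_add_one (by positivity)).le⟩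
  have hK0 : (0 : ℝ) < K := lt_of_lt_of_le (by positivity) hK1
  have hK : 0 < K := by exact_mod_cast hK0
  obtain ⟨k, hk1, hk2, hk3⟩ : ∃ k : ℕ, 1 ≤ k ∧ 2 * K + 1 < 2 ^ k ∧ 2 ^ k ≤ 6 * K :=
    ⟨Nat.log 2 (2 * K + 1) + 1, by omega, Nat.lt_pow_succ_log_self one_lt_two _, by
      have := Nat.pow_log_le_self 2 (show 2 * K + 1 ≠ 0 by omega)
      rw [pow_succ]; omega⟩
  have hk0 : (0 : ℝ) < k := by exact_mod_cast hk1
  have hk4 : (k : ℝ) ≤ c * Real.log (2 + lam) := h1 k lam hl <| by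
    have h2 : (2 : ℝ) ^ k ≤ 6 * K := by exact_mod_cast hk3
    have h3 : (1 + (m + 1) * B) / η ≤ (1 + (m + 1) * b) / η * (2 + lam) := by
      rw [div_mul_eq_mul_div, hB]
      refine div_le_div_of_nonneg_right ?_ hη.le
      nlinarith [mul_nonneg (show (0 : ℝ) ≤ m + 1 by positivity) hb]
    nlinarith
  have hδ : 0 < η / ((ν + 1) * (k : ℝ) ^ m) := by positivity
  obtain ⟨A0, hA0, h0⟩ := code_zero (ν := ν) hδ
  choose T hT h2 using face_code (m := m) (by positivity) h0 k hK hB0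
  obtain ⟨rd, h3⟩ := grid' (m := m) K hK
  choose fa hfa using exists_cb (m := m)
  refine ⟨(Fintype.piFinset fun s : Fin (m + 1) × Bool => T s.1).image
    fun t x => t (fa x, decide (cb x (fa x) = 1)) (rd x), ?_, fun u w p hw hp => ?_⟩
  · set n := ⌊(k : ℝ) ^ m * (ν / (η / ((ν + 1) * (k : ℝ) ^ m))) * B⌋₊ with hn
    have h4 : (n : ℝ) ≤ k ^ (2 * m) * (ν * (ν + 1) / η * b) * (1 + lam) :=
      (Nat.floor_le (by positivity)).trans_eq (by rw [hB]; field_simp; ring)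
    have h5 : ∀ a, ((T a).card : ℝ) ≤ Real.exp (n * ((2 * m + 2 * ν) * k)) := fun a => by
      rw [Real.exp_nat_mul]
      refine le_trans ?_ (pow_le_pow_left₀ (by positivity) (alphabet_le hk1 hA0) n)
      exact_mod_cast hT a
    refine (Nat.cast_le.2 Finset.card_image_le).trans ?_
    rw [Fintype.card_piFinset, Nat.cast_prod]
    refine (Finset.prod_le_prod (fun _ _ => by positivity) fun s _ => h5 s.1).trans ?_
    rw [Finset.prod_const, ← Real.exp_nat_mul]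
    refine Real.exp_le_exp.2 ?_
    simp only [Finset.card_univ, Fintype.card_prod, Fintype.card_fin, Fintype.card_bool]
    push_cast
    have h6 := pow_le_pow_left₀ hk0.le hk4 (2 * m + 1)
    calc _ ≤ ((m : ℝ) + 1) * 2 * (k ^ (2 * m) * (ν * (ν + 1) / η * b) * (1 + lam)
          * ((2 * m + 2 * ν) * k)) := by gcongr
      _ = (2 * m + 2 * ν) * (ν * (ν + 1) / η * b) * (2 * (m + 1)) * (1 + lam) * k ^ (2 * m + 1) := by
          ring
      _ ≤ (2 * m + 2 * ν) * (ν * (ν + 1) / η * b) * (2 * (m + 1)) * (1 + lam)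
          * (c * Real.log (2 + lam)) ^ (2 * m + 1) := by gcongr
      _ = _ := by ring
  · choose t t1 t2 using fun s : Fin (m + 1) × Bool => h2 s.1 u w p η hw hp
      (if s.2 then 1 else -1) (by split_ifs <;> simp)
    refine ⟨_, Finset.mem_image_of_mem _ (Fintype.mem_piFinset.2 t1), fun x => ?_⟩
    obtain ⟨g1, g2, g3, g4⟩ := h3 x
    have h4 := g3 _ (hfa x)
    have h5 := t2 (fa x, decide (cb x (fa x) = 1)) (rd x)
      (fun j => ⟨(g1 j).1, (g1 j).2.trans_lt hk2⟩) g2 (by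
        rcases (abs_eq zero_le_one).1 (hfa x) with h | h
        · simp [← h4, h]
        · simp [← h4, h, show (-1 : ℝ) ≠ 1 by norm_num])
    have h6 := hp.2.2 _ (by positivity) (fa x) _ _ g2 (cube_cb x) (h4 ▸ hfa x) h4 g4
    refine (norm_sub_le_norm_sub_add_norm_sub _ _ _).trans ((add_le_add h6 h5).trans ?_)
    have h7 : (1 + (m + 1) * B) * (1 / K) ≤ η := by
      rw [mul_one_div, div_le_iff₀' hK0]
      rwa [div_le_iff₀ hη] at hK1
    have h8 : (k : ℝ) ^ m * (ν * (η / ((ν + 1) * (k : ℝ) ^ m))) ≤ η := by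
      rw [show (k : ℝ) ^ m * (ν * (η / ((ν + 1) * (k : ℝ) ^ m))) = ν / (ν + 1) * η by field_simp]
      exact mul_le_of_le_one_left hη.le ((div_le_one (by positivity)).2 (by linarith))
    nlinarith [mul_le_mul_of_nonneg_left h7 (show (0 : ℝ) ≤ m + 1 by positivity)]

variable {V : Type} [NormedAddCommGroup V] [NormedSpace ℝ V]

theorem absorb' [CompleteSpace V] (hm : 1 ≤ m) (L M : ℝ) : ∃ D : ℝ, ∀ (lam : ℝ) (f : Sph m → V),
    (∀ x, ‖f x‖ ≤ M) → EnergyLeLower f lam L → EnergyLe f (2 * (lam + D)) := by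
  obtain ⟨k, rfl⟩ : ∃ k, m = k + 1 := ⟨m - 1, by omega⟩
  set c : ℝ := ((Fintype.card (Fin (k + 1) → Fin (k + 1 + 1)) : ℕ) : ℝ) with hc
  have hc0 : 0 ≤ c := Nat.cast_nonneg _
  have hL := abs_nonneg L
  have hp : 0 < |L| * c + 1 := by positivity
  obtain ⟨C, hC, h⟩ := interp_AA (m := k + 1) (V := V) k le_rfl (1 / (4 * (|L| * c + 1)))
    (by positivity)
  refine ⟨|L| * (2 * C * ((sphMeasure (k + 1)).real univ * M)),
    fun lam f hf ⟨T, hT, hl⟩ => ⟨T, hT, ?_⟩⟩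
  set t : Jet (k + 1) V := ⟨(f, T), hT⟩ with ht
  have h1 := h t
  have h2 := AA_succ k t
  have h3 : aa (k + 1) t ≤ c * sphInt fun x => √(∑ I, ‖T (k + 1) x I‖ ^ 2) := aa_le le_rfl t
  have h4 : AA 0 t ≤ (sphMeasure (k + 1)).real univ * M := by
    rw [AA, Finset.sum_range_one, aa, Fintype.sum_unique, ← smul_eq_mul, ← integral_const]
    exact integral_mono (hT.2.1 0 (by simp) _).norm (integrable_const M)
      fun x => (congrArg norm (hT.1 x _)).trans_le (hf _)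
  have h5 : ∑ j ∈ Finset.range (k + 1), (sphInt fun x => √(∑ I, ‖T j x I‖ ^ 2)) ≤ AA k t :=
    Finset.sum_le_sum fun j hj => hs_le_aa (Finset.mem_range.1 hj).le t
  have h6 : 0 ≤ ∑ j ∈ Finset.range (k + 1), (sphInt fun x => √(∑ I, ‖T j x I‖ ^ 2)) :=
    Finset.sum_nonneg fun j _ => integral_nonneg fun x => Real.sqrt_nonneg _
  have h7 : 0 ≤ sphInt fun x => √(∑ I, ‖T (k + 1) x I‖ ^ 2) :=
    integral_nonneg fun x => Real.sqrt_nonneg _
  set E := sphInt fun x => √(∑ I, ‖T (k + 1) x I‖ ^ 2) with hE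
  set W := (sphMeasure (k + 1)).real univ * M with hW
  set e := 1 / (4 * (|L| * c + 1)) with he
  have he0 : 0 < e := by positivity
  have he1 : e * (|L| * c + 1) = 1 / 4 := by rw [he]; field_simp
  have hA := AA_nonneg k t
  have h8 : E ≤ lam + |L| * AA k t :=
    hl.trans (by nlinarith [le_abs_self L, mul_le_mul_of_nonneg_left h5 hL])
  have h9 : e ≤ 1 / 4 := by nlinarith [mul_nonneg he0.le (mul_nonneg hL hc0)]
  have h10 : AA k t ≤ 2 * e * (c * E) + 2 * C * W := by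
    have := mul_le_mul_of_nonneg_left h4 hC
    have := mul_le_mul_of_nonneg_left h3 he0.le
    nlinarith
  have h11 := mul_le_mul_of_nonneg_left h10 hL
  have h12 : |L| * (2 * e * (c * E)) ≤ E / 2 := by
    have : |L| * (2 * e * (c * E)) = 2 * (e * (|L| * c)) * E := by ring
    rw [this]
    nlinarith
  nlinarith

theorem linear_model [CompleteSpace V] (hm : 1 ≤ m) (L M : ℝ) : ∃ b : ℝ, 0 ≤ b ∧
    ∀ lam : ℝ, 0 ≤ lam → ∀ u : Sph m → V, Continuous u → (∀ x, ‖u x‖ ≤ M) →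
      EnergyLeLower u lam L → ∀ η : ℝ, 0 < η → ∃ w, Model u w (b * (1 + lam)) η := by
  obtain ⟨D, h0⟩ := absorb' (V := V) hm L M
  obtain ⟨χ, hχ, h1⟩ := exists_cutoff (m := m) (2 * (m + 1))
  obtain ⟨C1, hC1, h2⟩ := (good_cU (V := V) m 0 (by simp) χ hχ Fin.elim0).mol_le AA_nonneg
  obtain ⟨C2, hC2, h3⟩ := AA_top (V := V) hm
  set c : ℝ := ((Fintype.card (Fin m → Fin (m + 1)) : ℕ) : ℝ) with hc
  have hc0 : 0 ≤ c := Nat.cast_nonneg _
  refine ⟨C1 * (4 * c + |4 * c * D + C2 * ((sphMeasure m).real univ * M)|), by positivity,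
    fun lam hl u hu hM hE η hη => ?_⟩
  obtain ⟨T, hT, h4⟩ := h0 lam u hM hE
  refine exists_model hχ h1 hu hη fun ρ l hlen => ?_
  have h6 := h2 ⟨(_, T), hT⟩ ρ l hlen
  have h7 : cU χ Fin.elim0 (⟨(_, T), hT⟩ : Jet m V) = fun y => χ y • u (nz y) :=
    funext fun y => congrArg _ (hT.1 _ _)
  rw [h7, zero_add] at h6
  refine h6.trans (ENNReal.ofReal_le_ofReal ?_)
  rw [mul_assoc]
  refine mul_le_mul_of_nonneg_left ((h3 _).trans ?_) hC1
  have h8 : aa m (⟨(_, T), hT⟩ : Jet m V) ≤ c * (2 * (lam + D)) :=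
    (aa_le le_rfl _).trans (mul_le_mul_of_nonneg_left h4 hc0)
  have h9 : aa 0 (⟨(_, T), hT⟩ : Jet m V) ≤ (sphMeasure m).real univ * M := by
    rw [aa, Fintype.sum_unique, ← smul_eq_mul, ← integral_const]
    exact integral_mono (hT.2.1 0 (by simp) _).norm (integrable_const M)
      fun x => (congrArg norm (hT.1 x _)).trans_le (hM _)
  nlinarith [mul_le_mul_of_nonneg_left h9 hC2,
    le_abs_self (4 * c * D + C2 * ((sphMeasure m).real univ * M)),
    mul_nonneg hl (abs_nonneg (4 * c * D + C2 * ((sphMeasure m).real univ * M)))]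

end Pool.Agent.Lib.MP_f35bed_an
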