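import Mathlib

/-!
Weak covariant derivatives of all orders of vector valued maps on the round sphere.
-/

open MeasureTheory
open scoped ContDiff Manifold

namespace Pool.Agent.Lib.MP_f35bed_an

/-- The unit sphere of dimension `m`. -/
abbrev Sph (m : ℕ) : Type := Metric.sphere (0 : EuclideanSpace ℝ (Fin (m + 1))) 1

/-- The surface measure of the unit sphere. -/
noncomputable def sphMeasure (m : ℕ) : Measure (Sph m) :=
  (volume : Measure (EuclideanSpace ℝ (Fin (m + 1)))).toSphere

/-- The integral over the unit sphere. -/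
noncomputable def sphInt {m : ℕ} {V : Type} [NormedAddCommGroup V] [NormedSpace ℝ V]
    (u : Sph m → V) : V :=
  ∫ x, u x ∂sphMeasure m

/-- `X i φ + (div X i) φ`, where `X i x = e i - x i • x` is the tangential projection of the basis
vector `e i`; the divergence of `X i` on the sphere is `- m * x i`. -/
noncomputable def divField {m : ℕ} (i : Fin (m + 1)) (φ : EuclideanSpace ℝ (Fin (m + 1)) → ℝ)
    (x : EuclideanSpace ℝ (Fin (m + 1))) : ℝ :=
  lineDeriv ℝ φ x (EuclideanSpace.single i 1 - x i • x) - m * x i * φ x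

/-- `g` is the weak derivative of `u` along the tangent vector field `X i`. -/
def HasWeakDeriv {m : ℕ} {V : Type} [NormedAddCommGroup V] [NormedSpace ℝ V] (i : Fin (m + 1))
    (u g : Sph m → V) : Prop :=
  ∀ φ : EuclideanSpace ℝ (Fin (m + 1)) → ℝ, ContDiff ℝ ∞ φ →
    sphInt (fun x => divField i φ x.1 • u x) = - sphInt fun x => φ x.1 • g x

/-- `T k`, for `k ≤ m`, is the integrable weak covariant derivative of order `k` of `f`, evaluated on
the fields `X (I 0), …, X (I (k-1))`. The covariant derivative of `X a` along `X i` is `- x a • X i`. -/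
def IsSobolevJet {m : ℕ} {V : Type} [NormedAddCommGroup V] [NormedSpace ℝ V] (f : Sph m → V)
    (T : (k : ℕ) → Sph m → (Fin k → Fin (m + 1)) → V) : Prop :=
  (∀ x I, T 0 x I = f x) ∧
  (∀ k ≤ m, ∀ I, Integrable (fun x => T k x I) (sphMeasure m)) ∧
  ∀ k < m, ∀ i I, HasWeakDeriv i (fun x => T k x I)
    (fun x => T (k + 1) x (Fin.cons i I) - ∑ j, x.1 (I j) • T k x (Function.update I j i))

/-- `f` lies in the Sobolev space of order `m` and exponent one, and the integral of the
Hilbert Schmidt norm of its derivative of order `m` is at most `lam`. -/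
def EnergyLe {m : ℕ} {V : Type} [NormedAddCommGroup V] [NormedSpace ℝ V] (f : Sph m → V)
    (lam : ℝ) : Prop :=
  ∃ T, IsSobolevJet f T ∧ sphInt (fun x => √(∑ I, ‖T m x I‖ ^ 2)) ≤ lam

/-- The continuous maps with property `P` belong to finitely many homotopy classes. -/
def FinitelyManyClasses {X N : Type*} [TopologicalSpace X] [TopologicalSpace N]
    (P : (X → N) → Prop) : Prop :=
  ∃ S : Set C(X, N), S.Finite ∧ ∀ f : C(X, N), P f → ∃ g ∈ S, f.Homotopic g

/-- A smooth injective immersion of a manifold modelled on `E` into the vector space `V`. -/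
def IsInjImmersion (E : Type) {V : Type} [NormedAddCommGroup E] [NormedSpace ℝ E]
    [NormedAddCommGroup V] [NormedSpace ℝ V] {N : Type*} [TopologicalSpace N] [ChartedSpace E N]
    (ι : N → V) : Prop :=
  ContMDiff 𝓘(ℝ, E) 𝓘(ℝ, V) ∞ ι ∧ Function.Injective ι ∧
    ∀ p, Function.Injective (mfderiv 𝓘(ℝ, E) 𝓘(ℝ, V) ι p)

end Pool.Agent.Lib.MP_f35bed_an
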