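import Pool.Agent.Lib.MP_f35bed_an.DefsLower

/-!
A bound on the number of homotopy classes.
-/

namespace Pool.Agent.Lib.MP_f35bed_an

/-- There is a finite set of at most `A` continuous maps such that every continuous map with
property `P` is homotopic to a member of the set. -/
def AtMostClasses {X N : Type*} [TopologicalSpace X] [TopologicalSpace N]
    (P : (X → N) → Prop) (A : ℝ) : Prop :=
  ∃ S : Finset C(X, N), (S.card : ℝ) ≤ A ∧ ∀ f : C(X, N), P f → ∃ g ∈ S, f.Homotopic g

end Pool.Agent.Lib.MP_f35bed_an
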