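import Pool.Agent.Lib.MP_f35bed_an.DefsLower

/-!
Lipschitz representatives of homotopy classes.
-/

namespace Pool.Agent.Lib.MP_f35bed_an

/-- Every continuous map with property `P` is homotopic to a continuous map `g` with `ι ∘ g`
Lipschitz of constant `K`. -/
def LipReps {X N V : Type*} [PseudoMetricSpace X] [TopologicalSpace N] [NormedAddCommGroup V]
    (ι : N → V) (P : (X → N) → Prop) (K : ℝ) : Prop :=
  ∀ f : C(X, N), P f → ∃ g : C(X, N), f.Homotopic g ∧ ∀ x y, ‖ι (g x) - ι (g y)‖ ≤ K * dist x y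

end Pool.Agent.Lib.MP_f35bed_an
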