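import Mathlib

/-!
Two maps into a compact embedded manifold that are uniformly close are homotopic.
-/

open Filter Topology Metric Set
open scoped Manifold ContDiff RealInnerProductSpace

namespace Pool.Agent.Lib.MP_f35bed_an

lemma local_unique {A V : Type} [NormedAddCommGroup A] [NormedSpace ℝ A] [FiniteDimensional ℝ A]
    [NormedAddCommGroup V] [InnerProductSpace ℝ V] {ψ : A → V} {u0 : A}
    (hψ : ContDiffAt ℝ 2 ψ u0) (hinj : Function.Injective (fderiv ℝ ψ u0)) :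
    ∃ ε > 0, ∃ ρ > 0, ∀ u ∈ ball u0 ρ, ∀ v ∈ ball u0 ρ, ∀ y,
      IsLocalMin (fun w => ‖y - ψ w‖ ^ 2) u → ‖y - ψ v‖ ≤ ‖y - ψ u‖ → ‖y - ψ u‖ < ε → u = v := by
  obtain ⟨K, t, ht, hK⟩ := (hψ.fderiv_right (m := 1) le_rfl).exists_lipschitzOnWith
  obtain ⟨c, hc0, hc⟩ := LinearMap.exists_antilipschitzWith (fderiv ℝ ψ u0).toLinearMap
    (LinearMap.ker_eq_bot.2 hinj)
  have hd : ∀ᶠ w in 𝓝 u0, DifferentiableAt ℝ ψ w :=
    (hψ.eventually (by simp)).mono fun w hw => hw.differentiableAt (by simp)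
  obtain ⟨ρ1, hρ1, h1⟩ := Metric.mem_nhds_iff.1 (inter_mem ht hd)
  have hc' : (0 : ℝ) < c := hc0
  have hK0 : (0 : ℝ) ≤ K := K.2
  refine ⟨1 / (8 * c ^ 2 * (K + 1)), by positivity, min ρ1 (1 / (2 * c * (K + 1))),
    lt_min hρ1 (by positivity), fun u hu v hv y hmin hle hlt => ?_⟩
  set B := ball u0 (min ρ1 (1 / (2 * c * (K + 1)))) with hB
  have hsub : B ⊆ ball u0 ρ1 := ball_subset_ball (min_le_left _ _)
  have hu0 : u0 ∈ B := mem_ball_self (lt_min hρ1 (by positivity))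
  have h2 := (convex_ball u0 _).norm_image_sub_le_of_norm_fderiv_le' (𝕜 := ℝ) (f := ψ)
    (φ := fderiv ℝ ψ u0) (C := K * (1 / (2 * c * (K + 1)))) (fun w hw => (h1 (hsub hw)).2)
    (fun w hw => by
      have := hK.norm_sub_le (h1 (hsub hw)).1 (h1 (hsub hu0)).1
      refine this.trans (mul_le_mul_of_nonneg_left ?_ hK0)
      exact (mem_ball_iff_norm.1 hw).le.trans (min_le_right _ _)) hu hv
  have h3 := ((convex_ball u0 _).inter (convex_closedBall u ‖v - u‖)).norm_image_sub_le_of_norm_fderiv_le'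
    (𝕜 := ℝ) (f := ψ) (φ := fderiv ℝ ψ u) (C := K * ‖v - u‖) (fun w hw => (h1 (hsub hw.1)).2)
    (fun w hw => by
      have := hK.norm_sub_le (h1 (hsub hw.1)).1 (h1 (hsub hu)).1
      exact this.trans (mul_le_mul_of_nonneg_left (mem_closedBall_iff_norm.1 hw.2) hK0))
    ⟨hu, mem_closedBall_self (norm_nonneg _)⟩ ⟨hv, mem_closedBall_iff_norm.2 le_rfl⟩
  have h4 : ‖v - u‖ ≤ c * ‖fderiv ℝ ψ u0 (v - u)‖ := by
    simpa using hc.le_mul_norm (by simp) (v - u)
  have h5 : ‖v - u‖ ≤ 2 * c * ‖ψ v - ψ u‖ := by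
    have h6 := norm_sub_norm_le (fderiv ℝ ψ u0 (v - u)) (ψ v - ψ u)
    rw [norm_sub_rev (fderiv ℝ ψ u0 (v - u))] at h6
    have h7 : (c : ℝ) * (K * (1 / (2 * c * (K + 1)))) ≤ 1 / 2 := by
      rw [show (c : ℝ) * (K * (1 / (2 * c * (K + 1)))) = (K : ℝ) / (K + 1) / 2 by field_simp]
      exact div_le_div_of_nonneg_right ((div_le_one (by positivity)).2 (by linarith)) two_pos.le
    nlinarith [mul_le_mul_of_nonneg_left (h6.trans h2) hc'.le,
      mul_le_mul_of_nonneg_right h7 (norm_nonneg (v - u))]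
  have h6 := hmin.hasFDerivAt_eq_zero
    (((h1 (hsub hu)).2.hasFDerivAt.const_sub y).norm_sq)
  have h7 : ⟪y - ψ u, fderiv ℝ ψ u (v - u)⟫ = 0 := by
    have := congrArg (fun L : A →L[ℝ] ℝ => L (v - u)) h6
    simpa [-map_sub] using this
  have h8 : ⟪y - ψ u, ψ v - ψ u⟫ ≤ ‖y - ψ u‖ * (K * ‖v - u‖ * ‖v - u‖) := by
    have h9 := real_inner_le_norm (y - ψ u) (ψ v - ψ u - fderiv ℝ ψ u (v - u))
    rw [inner_sub_right, h7, sub_zero] at h9
    exact h9.trans (mul_le_mul_of_nonneg_left h3 (norm_nonneg _))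
  have h9 := norm_sub_sq_real (y - ψ u) (ψ v - ψ u)
  rw [sub_sub_sub_cancel_right] at h9
  have h10 := pow_le_pow_left₀ (norm_nonneg _) hle 2
  have h11 := pow_le_pow_left₀ (norm_nonneg _) h5 2
  by_contra hne
  have h12 : 0 < ‖v - u‖ ^ 2 := pow_pos (norm_pos_iff.2 (sub_ne_zero.2 (Ne.symm hne))) 2
  rw [lt_div_iff₀ (by positivity)] at hlt
  have h13 : ‖ψ v - ψ u‖ ^ 2 ≤ 2 * (‖y - ψ u‖ * (K * ‖v - u‖ ^ 2)) := by nlinarith
  have h14 := mul_le_mul_of_nonneg_left h13 (by positivity : 0 ≤ (2 * c : ℝ) ^ 2)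
  have h15 := mul_lt_mul_of_pos_right hlt h12
  have h16 : 0 ≤ ‖y - ψ u‖ * (c : ℝ) ^ 2 * ‖v - u‖ ^ 2 := by positivity
  nlinarith

universe u

variable {n : ℕ} {V : Type} [NormedAddCommGroup V] [InnerProductSpace ℝ V] {N : Type u}
  [TopologicalSpace N] [ChartedSpace (EuclideanSpace ℝ (Fin n)) N] [CompactSpace N] {ι : N → V}

lemma nearest_unique (hι : ContMDiff (𝓡 n) 𝓘(ℝ, V) ∞ ι) (hinj : Function.Injective ι)
    (himm : ∀ p, Function.Injective (mfderiv (𝓡 n) 𝓘(ℝ, V) ι p)) :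
    ∃ ε > 0, ∀ p q y, (∀ r, ‖y - ι p‖ ≤ ‖y - ι r‖) → ‖y - ι q‖ ≤ ‖y - ι p‖ → ‖y - ι p‖ < ε →
      p = q := by
  have hc := hι.continuous
  have key := (isCompact_univ (X := N × N)).eventually_forall_of_forall_eventually (x₀ := (0 : ℝ))
    (P := fun ε z => ∀ y, (∀ r, ‖y - ι z.1‖ ≤ ‖y - ι r‖) → ‖y - ι z.2‖ ≤ ‖y - ι z.1‖ →
      ‖y - ι z.1‖ < ε → z.1 = z.2) (by
      rintro ⟨p, q⟩ -
      by_cases hpq : p = q
      · subst hpq
        have h1 := (contMDiffAt_iff.1 (hι p)).2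
        have h2 := himm p
        rw [((hι p).mdifferentiableAt (by simp)).mfderiv] at h2
        simp only [writtenInExtChartAt, extChartAt_self_eq, modelWithCornersSelf_coe, range_id,
          fderivWithin_univ, contDiffWithinAt_univ, Function.id_comp] at h1 h2
        obtain ⟨ε, hε, ρ, hρ, h3⟩ := local_unique (h1.of_le (WithTop.coe_le_coe.2 le_top)) h2
        have h4 : ∀ᶠ r in 𝓝 p, r ∈ (extChartAt (𝓡 n) p).source ∧
            extChartAt (𝓡 n) p r ∈ ball (extChartAt (𝓡 n) p p) ρ :=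
          Eventually.and (extChartAt_source_mem_nhds p)
            ((continuousAt_extChartAt p).eventually (ball_mem_nhds _ hρ))
        have h5 : Tendsto (fun z : ℝ × N × N => z.2.1) (𝓝 (0, p, p)) (𝓝 p) :=
          continuous_snd.fst.continuousAt
        have h6 : Tendsto (fun z : ℝ × N × N => z.2.2) (𝓝 (0, p, p)) (𝓝 p) :=
          continuous_snd.snd.continuousAt
        have h7 : Tendsto (fun z : ℝ × N × N => z.1) (𝓝 (0, p, p)) (𝓝 0) :=
          continuous_fst.continuousAt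
        filter_upwards [h5.eventually h4, h6.eventually h4, h7.eventually (gt_mem_nhds hε)]
          with z h8 h9 h10 y h11 h12 h13
        refine (extChartAt (𝓡 n) p).injOn h8.1 h9.1 (h3 _ h8.2 _ h9.2 y ?_ ?_ ?_)
        · refine Eventually.of_forall fun w => ?_
          simp only [Function.comp, (extChartAt (𝓡 n) p).left_inv h8.1]
          exact pow_le_pow_left₀ (norm_nonneg _) (h11 _) 2
        · simpa only [Function.comp, (extChartAt (𝓡 n) p).left_inv h8.1,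
            (extChartAt (𝓡 n) p).left_inv h9.1] using h12
        · simpa only [Function.comp, (extChartAt (𝓡 n) p).left_inv h8.1] using h13.trans h10
      · have h1 : Continuous fun z : ℝ × N × N => ‖ι z.2.1 - ι z.2.2‖ - 2 * z.1 := by fun_prop
        have h2 : 0 < ‖ι p - ι q‖ - 2 * 0 := by
          simpa using sub_ne_zero.2 (hinj.ne hpq)
        filter_upwards [(h1.tendsto (0, p, q)).eventually (lt_mem_nhds h2)] with z h3 y _ h4 h5
        have h6 := norm_sub_le_norm_sub_add_norm_sub (ι z.2.1) y (ι z.2.2)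
        rw [norm_sub_rev _ y] at h6
        linarith)
  obtain ⟨ε, h1, h2⟩ := ((key.filter_mono (nhdsWithin_le_nhds (s := Ioi 0))).and
    self_mem_nhdsWithin).exists
  exact ⟨ε, h2, fun p q => h1 (p, q) (mem_univ _)⟩

theorem homotopic_of_close (hι : ContMDiff (𝓡 n) 𝓘(ℝ, V) ∞ ι) (hinj : Function.Injective ι)
    (himm : ∀ p, Function.Injective (mfderiv (𝓡 n) 𝓘(ℝ, V) ι p)) :
    ∃ ε > 0, ∀ (X : Type) [TopologicalSpace X] (f g : C(X, N)),
      (∀ x, ‖ι (f x) - ι (g x)‖ < ε) → f.Homotopic g := by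
  obtain ⟨ε, hε, hu⟩ := nearest_unique hι hinj himm
  refine ⟨ε, hε, fun X _ f g hfg => ?_⟩
  have hc := hι.continuous
  set y : unitInterval × X → V := fun z => ι (f z.2) + (z.1 : ℝ) • (ι (g z.2) - ι (f z.2)) with hy
  have hyc : Continuous y := by fun_prop
  have h1 : ∀ z, ∃ p, ∀ r, ‖y z - ι p‖ ≤ ‖y z - ι r‖ := fun z => by
    obtain ⟨p, -, hp⟩ := isCompact_univ.exists_isMinOn ⟨f z.2, mem_univ _⟩
      (f := fun p => ‖y z - ι p‖) (by fun_prop)
    exact ⟨p, fun r => hp (mem_univ r)⟩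
  choose H hH using h1
  have h2 : ∀ z p, (∀ r, ‖y z - ι p‖ ≤ ‖y z - ι r‖) → H z = p := by
    intro z p hp
    refine hu _ _ (y z) (hH z) (hp _) ((hH z (f z.2)).trans_lt ?_)
    rw [hy, add_sub_cancel_left, norm_smul, norm_sub_rev]
    refine (mul_le_of_le_one_left (norm_nonneg _) ?_).trans_lt (hfg _)
    rw [Real.norm_of_nonneg z.1.2.1]
    exact z.1.2.2
  have h3 : Continuous H := by
    refine continuous_iff_isClosed.2 fun C hC => ?_
    have h4 : H ⁻¹' C = Prod.fst '' ((⋂ r, {w : (unitInterval × X) × N |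
        ‖y w.1 - ι w.2‖ ≤ ‖y w.1 - ι r‖}) ∩ Prod.snd ⁻¹' C) := by
      ext z
      simp only [mem_preimage, mem_image, mem_inter_iff, mem_iInter, mem_ofPred_eq]
      exact ⟨fun h => ⟨(z, H z), ⟨hH z, h⟩, rfl⟩, by
        rintro ⟨w, ⟨h5, h6⟩, rfl⟩
        rwa [h2 _ _ h5]⟩
    rw [h4]
    exact isClosedMap_fst_of_compactSpace _ ((isClosed_iInter fun r =>
      isClosed_le (by fun_prop) (by fun_prop)).inter (hC.preimage continuous_snd))
  exact ⟨⟨⟨H, h3⟩, fun x => h2 _ _ fun r => by simp [hy], fun x => h2 _ _ fun r => by simp [hy]⟩⟩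

end Pool.Agent.Lib.MP_f35bed_an
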