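import Pool.Agent.Lib.MP_f35bed_an.Slab
import Pool.Agent.Lib.MP_f35bed_an.Reach

/-!
Straightening a map by coordinatewise reparametrisation, and the finiteness argument.
-/

open MeasureTheory Filter Topology Metric Set WithLp Function
open scoped ContDiff ENNReal

namespace Pool.Agent.Lib.MP_f35bed_an

variable {m : ℕ} {V : Type} [NormedAddCommGroup V] [NormedSpace ℝ V]

lemma abs_le_of_mono {p : ℝ → ℝ} (hp : Monotone p) (h1 : p 1 = 1) (h2 : p (-1) = -1) {t : ℝ}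
    (ht : |t| ≤ 1) : |p t| ≤ 1 :=
  abs_le.2 ⟨h2 ▸ hp (abs_le.1 ht).1, h1 ▸ hp (abs_le.1 ht).2⟩

lemma straighten [CompleteSpace V] {χ : Eu m → ℝ} (hχ : Adm χ)
    (h1 : ∀ y, 1 ≤ ‖y‖ → ‖y‖ ≤ 2 * (m + 1) → χ y = 1) {u : Sph m → V} (hu : Continuous u)
    {B η : ℝ} (hB0 : 0 ≤ B) (hη : 0 < η)
    (hB : ∀ ρ (l : List (Fin (m + 1))), l.length = m →
      ∫⁻ y, ‖Dl l (mol ρ fun y => χ y • u (nz y)) y‖ₑ ≤ ENNReal.ofReal B) :
    ∃ p : Fin (m + 1) → ℝ → ℝ, (∀ j, Continuous (p j) ∧ p j 1 = 1 ∧ p j (-1) = -1) ∧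
      ∀ δ, 0 ≤ δ → ∀ a y y', Cube y → Cube y' → |y a| = 1 → y' a = y a → (∀ j, |y' j - y j| ≤ δ) →
        ‖u (nz (toLp 2 fun j => p j (y' j))) - u (nz (toLp 2 fun j => p j (y j)))‖
          ≤ (m + 1) * (2 * η + (1 + (m + 1) * B) * δ) := by
  have hc : Continuous fun y => χ y • u (nz y) := continuous_iff_continuousAt.2 fun y => by
    by_cases hy : y = 0
    · subst hy
      exact (continuousAt_const (y := (0 : V))).congr (hχ.zero.mono fun y hy => by simp [hy])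
    · exact hχ.smooth.continuous.continuousAt.smul (hu.continuousAt.comp
        (continuousOn_nz.continuousAt (isOpen_compl_singleton.mem_nhds hy)))
  have hs : HasCompactSupport fun y => χ y • u (nz y) := hχ.supp.smul_right
  obtain ⟨r, hr, h2⟩ := Metric.uniformContinuous_iff.1 (hs.uniformContinuous_of_continuous hc) η hη
  obtain ⟨ρ, hρ⟩ : ∃ ρ : ContDiffBump (0 : Eu m), ρ.rOut = r :=
    ⟨⟨r / 2, r, half_pos hr, half_lt_self hr⟩, rfl⟩
  choose p p1 p2 p3 p4 p5 using face (F := fun y => u (nz y)) (η := η)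
    (mol_smooth ρ (hc.integrable_of_hasCompactSupport hs))
    (ρ.hasCompactSupport_normed.convolution _ hs) hB0 (hB ρ)
    (fun r hr y => by rw [nz_smul_pos hr]) (fun y h3 h4 => by
      have := ρ.dist_normed_convolution_le (μ := volume) (x₀ := y) hc.aestronglyMeasurable
        fun x hx => (h2 (hρ ▸ hx)).le
      rwa [h1 y h3 h4, one_smul, dist_eq_norm] at this)
  refine ⟨p, fun j => ⟨p1 j, p3 j, p4 j⟩, fun δ hδ a y y' hy hy' ha ha' hd => ?_⟩
  have hL : 0 ≤ 1 + (m + 1) * B := by positivity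
  refine chain (G := fun z => u (nz (toLp 2 fun j => p j (z j)))) (by positivity) hy hy' ha'
    fun i hi z hz hza hzi => ?_
  have h3 : ∀ s, (fun j => p j (update z i s j)) = update (fun j => p j (z j)) i (p i s) :=
    fun s => funext fun j => apply_update p z i s j
  have h4 : Cube fun j => p j (z j) := fun j => abs_le_of_mono (p2 j) (p3 j) (p4 j) (hz j)
  have h5 : |p a (z a)| = 1 := by
    rcases (abs_eq zero_le_one).1 ha with h | h <;> simp [hza, h, p3, p4]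
  have h6 := abs_le_of_mono (p2 i) (p3 i) (p4 i) (hy i)
  have h7 := abs_le_of_mono (p2 i) (p3 i) (p4 i) (hy' i)
  have h8 := h3 (y i)
  rw [← hzi, update_eq_self, hzi] at h8
  rw [h3, h8, update_idem]
  have h9 := abs_le.1 (hd i)
  rcases le_total (y i) (y' i) with h | h
  · refine (p5 i a hi _ h4 h5 _ _ h h6 h7).trans ?_
    gcongr
    exact h9.2
  · rw [norm_sub_rev]
    refine (p5 i a hi _ h4 h5 _ _ h h7 h6).trans ?_
    gcongr
    linarith [h9.1]

/-- Radial projection of the sphere to the boundary of the cube. -/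
noncomputable def cb (x : Sph m) : Fin (m + 1) → ℝ := ‖ofLp x.1‖⁻¹ • ofLp x.1

lemma sup_pos (x : Sph m) : 0 < ‖ofLp x.1‖ :=
  norm_pos_iff.2 fun h => ne_of_mem_sphere x.2 one_ne_zero (by simpa using h)

lemma continuous_cb : Continuous (cb : Sph m → Fin (m + 1) → ℝ) :=
  (Continuous.inv₀ (by fun_prop) fun x => (sup_pos x).ne').smul (by fun_prop)

lemma norm_cb (x : Sph m) : ‖cb x‖ = 1 := by
  rw [cb, norm_smul, norm_inv, norm_norm, inv_mul_cancel₀ (sup_pos x).ne']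

lemma cube_cb (x : Sph m) : Cube (cb x) := fun j => (norm_le_pi_norm (cb x) j).trans_eq (norm_cb x)

lemma exists_cb (x : Sph m) : ∃ a, |cb x a| = 1 := by
  by_contra h
  refine (norm_cb x).not_lt ((pi_norm_lt_iff one_pos).2 fun j => ?_)
  exact lt_of_le_of_ne (cube_cb x j) fun h1 => h ⟨j, h1⟩

lemma warp {p : Fin (m + 1) → ℝ → ℝ} (hp : ∀ j, Continuous (p j) ∧ p j 1 = 1 ∧ p j (-1) = -1) :
    ∃ W : C(Sph m, Sph m), (ContinuousMap.id _).Homotopic W ∧
      ∀ x, W x = nz (toLp 2 fun j => p j (cb x j)) := by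
  have h1 : Continuous fun x : Sph m => (toLp 2 fun j => p j (cb x j) : Eu m) :=
    (PiLp.continuous_toLp 2 _).comp (continuous_pi fun j =>
      (hp j).1.comp ((continuous_apply j).comp continuous_cb))
  have h2 : Continuous fun z : unitInterval × Sph m =>
      nz ((1 - z.1 : ℝ) • z.2.1 + (z.1 : ℝ) • (toLp 2 fun j => p j (cb z.2 j) : Eu m)) := by
    refine continuousOn_nz.comp_continuous (Continuous.add (by fun_prop)
      ((continuous_subtype_val.comp continuous_fst).smul (h1.comp continuous_snd))) fun ⟨t, x⟩ h => ?_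
    obtain ⟨a, ha⟩ := exists_cb x
    have h3 : (1 - t : ℝ) * x.1 a + t * p a (cb x a) = 0 := by
      simpa using congrArg (fun v : Eu m => v a) h
    have h4 : x.1 a = ‖ofLp x.1‖ * cb x a := by simp [cb, (sup_pos x).ne']
    have h5 := sup_pos x
    have h6 := t.2.1
    have h7 := t.2.2
    rw [h4] at h3
    rcases (abs_eq zero_le_one).1 ha with h | h
    · rw [h, (hp a).2.1] at h3
      rcases h6.eq_or_lt with h8 | h8
      · rw [← h8] at h3; linarith
      · nlinarith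
    · rw [h, (hp a).2.2] at h3
      rcases h6.eq_or_lt with h8 | h8
      · rw [← h8] at h3; linarith
      · nlinarith
  refine ⟨⟨fun x => nz (toLp 2 fun j => p j (cb x j)), ?_⟩, ⟨⟨⟨_, h2⟩, fun x => ?_, fun x => ?_⟩⟩,
    fun _ => rfl⟩
  · simpa [Function.comp_def] using h2.comp (Continuous.prodMk_right 1)
  · simp [nz_sph]
  · simp

lemma grid (K : ℕ) (hK : 0 < K) : ∃ (rd : Sph m → Fin (m + 1) → Icc (-K : ℤ) K)
    (gp : (Fin (m + 1) → Icc (-K : ℤ) K) → Fin (m + 1) → ℝ), ∀ x, Cube (gp (rd x)) ∧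
      (∀ a, |cb x a| = 1 → cb x a = gp (rd x) a) ∧ ∀ j, |cb x j - gp (rd x) j| ≤ 1 / K := by
  have hK' : (0 : ℝ) < K := by exact_mod_cast hK
  have h1 : ∀ (x : Sph m) j, ⌊K * cb x j⌋ ∈ Icc (-K : ℤ) K := fun x j => by
    have h := abs_le.1 (cube_cb x j)
    refine ⟨Int.le_floor.2 (by push_cast; nlinarith), ?_⟩
    have := Int.floor_le (K * cb x j)
    exact_mod_cast (by nlinarith : (⌊K * cb x j⌋ : ℝ) ≤ K)
  refine ⟨fun x j => ⟨_, h1 x j⟩, fun n j => (n j : ℤ) / K, fun x => ⟨fun j => ?_, fun a ha => ?_,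
    fun j => ?_⟩⟩
  · rw [abs_div, abs_of_pos hK', div_le_one hK']
    exact_mod_cast abs_le.2 (h1 x j)
  · rcases (abs_eq zero_le_one).1 ha with h | h <;> simp [h, hK'.ne', Int.floor_neg]
  · have h2 := Int.floor_le (K * cb x j)
    have h3 := Int.lt_floor_add_one (K * cb x j)
    rw [sub_div' hK'.ne', abs_div, abs_of_pos hK']
    exact div_le_div_of_nonneg_right (abs_le.2 ⟨by linarith, by linarith⟩) hK'.le

omit [NormedSpace ℝ V] in
lemma finite_types {X Γ N : Type*} [TopologicalSpace X] [TopologicalSpace N] [CompactSpace N]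
    [Finite Γ] {ι : N → V} (hι : Continuous ι) {ε : ℝ} (hε : 0 < ε)
    (h : ∀ f g : C(X, N), (∀ x, ‖ι (f x) - ι (g x)‖ < 4 * ε) → f.Homotopic g) (rd : X → Γ) :
    ∃ S : Set C(X, N), S.Finite ∧ ∀ (f : C(X, N)) (k : Γ → N),
      (∀ x, ‖ι (f x) - ι (k (rd x))‖ ≤ ε) → ∃ g ∈ S, f.Homotopic g := by
  obtain ⟨t, -, ht⟩ := isCompact_univ.elim_nhds_subcover (fun q => {p | ‖ι p - ι q‖ < ε})
    fun q _ => (isOpen_lt (by fun_prop) continuous_const).mem_nhds (by simpa using hε)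
  have h1 : ∀ p, ∃ q : t, ‖ι p - ι q‖ < ε := fun p => by simpa using ht (mem_univ p)
  choose q hq using h1
  have h2 : ∀ θ : Γ → t, ∃ S : Set C(X, N), S.Finite ∧ ∀ f : C(X, N),
      (∀ x, ‖ι (f x) - ι (θ (rd x))‖ < 2 * ε) → ∃ g ∈ S, f.Homotopic g := fun θ => by
    by_cases h3 : ∃ g : C(X, N), ∀ x, ‖ι (g x) - ι (θ (rd x))‖ < 2 * ε
    · obtain ⟨g, hg⟩ := h3
      refine ⟨{g}, finite_singleton g, fun f hf => ⟨g, rfl, h f g fun x => ?_⟩⟩
      linarith [norm_sub_le_norm_sub_add_norm_sub (ι (f x)) (ι (θ (rd x))) (ι (g x)), hf x, hg x,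
        norm_sub_rev (ι (g x)) (ι (θ (rd x)))]
    · exact ⟨∅, finite_empty, fun f hf => absurd ⟨f, hf⟩ h3⟩
  choose S hS h3 using h2
  refine ⟨⋃ θ, S θ, finite_iUnion hS, fun f k hf => ?_⟩
  obtain ⟨g, hg, h4⟩ := h3 (fun γ => q (k γ)) f fun x => by
    linarith [norm_sub_le_norm_sub_add_norm_sub (ι (f x)) (ι (k (rd x))) (ι (q (k (rd x)))), hf x,
      hq (k (rd x))]
  exact ⟨g, mem_iUnion.2 ⟨_, hg⟩, h4⟩

lemma aa_le {k : ℕ} (hk : k ≤ m) (t : Jet m V) :
    aa k t ≤ Fintype.card (Fin k → Fin (m + 1))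
      * ∫ x, √(∑ I, ‖t.1.2 k x I‖ ^ 2) ∂sphMeasure m := by
  have hi := fun I => (t.2.2.1 k hk I).norm
  have h1 : Integrable (fun x => √(∑ I, ‖t.1.2 k x I‖ ^ 2)) (sphMeasure m) := by
    refine (integrable_finsetSum Finset.univ fun I _ => hi I).mono'
      (Real.continuous_sqrt.comp_aestronglyMeasurable (Finset.aestronglyMeasurable_fun_sum _
        fun I _ => (hi I).aestronglyMeasurable.pow 2)) (Eventually.of_forall fun x => ?_)
    rw [Real.norm_of_nonneg (Real.sqrt_nonneg _)]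
    exact Real.sqrt_le_iff.2 ⟨Finset.sum_nonneg fun _ _ => norm_nonneg _,
      Finset.sum_sq_le_sq_sum_of_nonneg fun _ _ => norm_nonneg _⟩
  refine (Finset.sum_le_card_nsmul _ _ _ fun I _ => integral_mono (hi I) h1 fun x => ?_).trans_eq
    (by simp)
  exact Real.le_sqrt_of_sq_le (Finset.single_le_sum (f := fun I => ‖t.1.2 k x I‖ ^ 2)
    (fun _ _ => sq_nonneg _) (Finset.mem_univ I))

theorem finite_classes [CompleteSpace V] (hm : 1 ≤ m) {N : Type*} [TopologicalSpace N]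
    [CompactSpace N] {ι : N → V} (hι : Continuous ι) {ε : ℝ} (hε : 0 < ε)
    (h : ∀ f g : C(Sph m, N), (∀ x, ‖ι (f x) - ι (g x)‖ < ε) → f.Homotopic g) (lam : ℝ) :
    ∃ S : Set C(Sph m, N), S.Finite ∧ ∀ (f : C(Sph m, N)) T, IsSobolevJet (fun x => ι (f x)) T →
      ∫ x, √(∑ I, ‖T m x I‖ ^ 2) ∂sphMeasure m ≤ lam → ∃ g ∈ S, f.Homotopic g := by
  obtain ⟨χ, hχ, h1⟩ := exists_cutoff (m := m) (2 * (m + 1))
  obtain ⟨C1, hC1, h2⟩ := (good_cU (V := V) m 0 (by simp) χ hχ Fin.elim0).mol_le AA_nonneg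
  obtain ⟨C2, hC2, h3⟩ := AA_top (V := V) hm
  obtain ⟨M, hM⟩ := isCompact_univ.exists_bound_of_continuousOn hι.continuousOn
  obtain ⟨B, hB⟩ : ∃ B, B = |C1 * (2 * (Fintype.card (Fin m → Fin (m + 1)) * lam)
    + C2 * ((sphMeasure m).real univ * M))| := ⟨_, rfl⟩
  have hB0 : 0 ≤ B := hB ▸ abs_nonneg _
  obtain ⟨K, hK⟩ := exists_nat_gt ((1 + (m + 1) * B) / (ε / 12 / (m + 1)))
  have hK0 : (0 : ℝ) < K := lt_trans (by positivity) hK
  obtain ⟨rd, gp, h4⟩ := grid (m := m) K (by exact_mod_cast hK0)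
  obtain ⟨S, hS, h5⟩ := finite_types hι (by positivity : 0 < ε / 4)
    (fun f g hfg => h f g fun x => by linarith [hfg x]) rd
  refine ⟨S, hS, fun f T hT hl => ?_⟩
  obtain ⟨p, p1, p2⟩ := straighten hχ h1 (hι.comp f.continuous) hB0
    (by positivity : 0 < ε / 12 / (m + 1)) fun ρ l hlen => by
      have h6 := h2 ⟨(_, T), hT⟩ ρ l hlen
      have h7 : cU χ Fin.elim0 (⟨(_, T), hT⟩ : Jet m V) = fun y => χ y • (ι ∘ f) (nz y) :=
        funext fun y => congrArg _ (hT.1 _ _)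
      rw [h7, zero_add] at h6
      refine h6.trans (ENNReal.ofReal_le_ofReal (le_trans ?_ (hB ▸ le_abs_self _)))
      refine mul_le_mul_of_nonneg_left ((h3 _).trans ?_) hC1
      gcongr
      · exact (aa_le le_rfl _).trans (mul_le_mul_of_nonneg_left hl (Nat.cast_nonneg _))
      · rw [aa, Fintype.sum_unique, ← smul_eq_mul, ← integral_const]
        exact integral_mono (hT.2.1 0 (by simp) _).norm (integrable_const M)
          fun x => (congrArg norm (hT.1 x _)).trans_le (hM _ (mem_univ _))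
  obtain ⟨W, hW, h6⟩ := warp p1
  obtain ⟨g, hg, h7⟩ := h5 (f.comp W) (fun γ => f (nz (toLp 2 fun j => p j (gp γ j)))) fun x => by
    obtain ⟨a, ha⟩ := exists_cb x
    obtain ⟨h8, h9, h10⟩ := h4 x
    rw [ContinuousMap.comp_apply, h6]
    refine (p2 _ (by positivity) a _ _ h8 (cube_cb x) (h9 a ha ▸ ha) (h9 a ha) h10).trans ?_
    rw [div_lt_iff₀ (by positivity), ← div_lt_iff₀' hK0] at hK
    rw [mul_one_div, ← le_div_iff₀' (by positivity)]
    linarith [show ε / 4 / ((m : ℝ) + 1) = 3 * (ε / 12 / (m + 1)) by ring]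
  exact ⟨g, hg, ((ContinuousMap.Homotopic.refl f).comp hW).trans h7⟩

end Pool.Agent.Lib.MP_f35bed_an
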