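import Pool.Agent.Lib.MP_f35bed_an.Final

/-!
From an estimate on each face of the cube to an estimate on the sphere, and choice of
representatives.
-/

open MeasureTheory Filter Topology Metric Set WithLp Function

namespace Pool.Agent.Lib.MP_f35bed_an

variable {m : ℕ} {V : Type} [NormedAddCommGroup V]

lemma inv_sup_le (x : Sph m) : ‖ofLp x.1‖⁻¹ ≤ m + 1 := by
  have h := (cube_cb x).norm_le
  have h1 : (toLp 2 (cb x) : EuclideanSpace ℝ (Fin (m + 1))) = ‖ofLp x.1‖⁻¹ • x.1 := rfl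
  rw [h1, norm_smul, mem_sphere_zero_iff_norm.1 x.2, mul_one, norm_inv, norm_norm] at h
  exact h

lemma cb_sub_le (x x' : Sph m) (j : Fin (m + 1)) :
    |cb x j - cb x' j| ≤ 2 * (m + 1) * dist x x' := by
  have hs := sup_pos x
  have hs' := sup_pos x'
  have hc : ∀ i, |ofLp x.1 i - ofLp x'.1 i| ≤ dist x x' := fun i => by
    have h := PiLp.dist_apply_le x.1 x'.1 i
    rw [Real.dist_eq] at h
    exact h
  have h1 : |‖ofLp x'.1‖ - ‖ofLp x.1‖| ≤ dist x x' := by
    rw [abs_sub_comm]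
    refine (abs_norm_sub_norm_le _ _).trans ?_
    exact (pi_norm_le_iff_of_nonneg dist_nonneg).2 fun i => hc i
  have h2 : cb x j - cb x' j = ‖ofLp x.1‖⁻¹ *
      ((ofLp x.1 j - ofLp x'.1 j) + cb x' j * (‖ofLp x'.1‖ - ‖ofLp x.1‖)) := by
    simp only [cb, Pi.smul_apply, smul_eq_mul]
    field_simp
    ring
  have h3 : |(ofLp x.1 j - ofLp x'.1 j) + cb x' j * (‖ofLp x'.1‖ - ‖ofLp x.1‖)| ≤
      2 * dist x x' := by
    refine (abs_add_le _ _).trans ?_
    rw [abs_mul]
    have h4 := mul_le_mul (cube_cb x' j) h1 (abs_nonneg _) zero_le_one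
    linarith [hc j]
  rw [h2, abs_mul, abs_of_pos (inv_pos.2 hs)]
  have h5 := mul_le_mul (inv_sup_le x) h3 (abs_nonneg _) (by positivity)
  linarith

lemma global_est {G : (Fin (m + 1) → ℝ) → V} {A L M : ℝ} (hA : 0 ≤ A) (hL : 0 ≤ L)
    (hM : ∀ y, ‖G y‖ ≤ M)
    (h : ∀ δ, 0 ≤ δ → ∀ a y y', Cube y → Cube y' → |y a| = 1 → y' a = y a →
      (∀ j, |y' j - y j| ≤ δ) → ‖G y' - G y‖ ≤ A + L * δ) (x x' : Sph m) :
    ‖G (cb x) - G (cb x')‖ ≤ 2 * A + (2 * L + M) * (2 * (m + 1)) * dist x x' := by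
  obtain ⟨δ, hδ⟩ : ∃ δ : ℝ, δ = 2 * (m + 1) * dist x x' := ⟨_, rfl⟩
  have hδ0 : 0 ≤ δ := by rw [hδ]; positivity
  have hc : ∀ j, |cb x j - cb x' j| ≤ δ := fun j => hδ ▸ cb_sub_le x x' j
  have hM0 : 0 ≤ M := (norm_nonneg _).trans (hM 0)
  rw [mul_assoc (2 * L + M), ← hδ]
  obtain ⟨a, ha⟩ := exists_cb x
  obtain ⟨b, hb⟩ := exists_cb x'
  by_cases hz : update (cb x) b (cb x' b) a = cb x a
  · have hq := (cube_cb x).update b hb.le
    have h1 := h δ hδ0 a _ _ (cube_cb x) hq ha hz fun j => by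
      by_cases hj : j = b
      · subst hj; rw [update_self, abs_sub_comm]; exact hc j
      · rw [update_of_ne hj, sub_self, abs_zero]; exact hδ0
    have h2 := h δ hδ0 b _ _ (cube_cb x') hq hb (update_self ..) fun j => by
      by_cases hj : j = b
      · subst hj; rw [update_self, sub_self, abs_zero]; exact hδ0
      · rw [update_of_ne hj]; exact hc j
    have h3 := norm_sub_le_norm_sub_add_norm_sub (G (cb x)) (G (update (cb x) b (cb x' b)))
      (G (cb x'))
    rw [norm_sub_rev] at h1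
    nlinarith [mul_nonneg hM0 hδ0]
  · have hab : a = b := by
      by_contra hne
      exact hz (update_of_ne hne ..)
    subst hab
    rw [update_self] at hz
    have h2 : 2 ≤ δ := by
      have h3 := abs_le.1 (hc a)
      rcases (abs_eq zero_le_one).1 ha with h4 | h4 <;>
        rcases (abs_eq zero_le_one).1 hb with h5 | h5
      · exact absurd (h5.trans h4.symm) hz
      · linarith [h3.2]
      · linarith [h3.1]
      · exact absurd (h5.trans h4.symm) hz
    have h3 := norm_sub_le (G (cb x)) (G (cb x'))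
    nlinarith [hM (cb x), hM (cb x'), mul_nonneg hL hδ0, mul_le_mul_of_nonneg_left h2 hM0]

lemma choose_reps {X N : Type*} [TopologicalSpace X] [TopologicalSpace N] {ι : N → V} {ε : ℝ}
    (h : ∀ f g : C(X, N), (∀ x, ‖ι (f x) - ι (g x)‖ < 2 * ε) → f.Homotopic g)
    (Θ : Finset (X → V)) (P Q : C(X, N) → Prop)
    (H : ∀ f, Q f → ∃ f' : C(X, N), f.Homotopic f' ∧ (∃ θ ∈ Θ, ∀ x, ‖ι (f' x) - θ x‖ < ε) ∧
      ∃ g, P g ∧ f'.Homotopic g) :
    ∃ S : Finset C(X, N), S.card ≤ Θ.card ∧ (∀ g ∈ S, P g) ∧ ∀ f, Q f → ∃ g ∈ S, f.Homotopic g := by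
  classical
  let R : (X → V) → C(X, N) → Prop := fun θ g =>
    P g ∧ ∃ f' : C(X, N), (∀ x, ‖ι (f' x) - θ x‖ < ε) ∧ f'.Homotopic g
  let T := Θ.filter fun θ => ∃ g, R θ g
  have hT : ∀ θ : T, ∃ g, R θ.1 g := fun θ => (Finset.mem_filter.1 θ.2).2
  choose c hc using hT
  refine ⟨Finset.univ.image c, ?_, ?_, ?_⟩
  · refine Finset.card_image_le.trans ?_
    rw [Finset.card_univ, Fintype.card_coe]
    exact Finset.card_filter_le _ _
  · intro g hg
    obtain ⟨θ, -, rfl⟩ := Finset.mem_image.1 hg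
    exact (hc θ).1
  · intro f hf
    obtain ⟨f', h1, ⟨θ, hθ, h2⟩, g, h3, h4⟩ := H f hf
    have hθT : θ ∈ T := Finset.mem_filter.2 ⟨hθ, g, h3, f', h2, h4⟩
    obtain ⟨-, f'', h5, h6⟩ := hc ⟨θ, hθT⟩
    refine ⟨c ⟨θ, hθT⟩, Finset.mem_image_of_mem _ (Finset.mem_univ _), h1.trans ?_⟩
    refine (h f' f'' fun x => ?_).trans h6
    have h7 := norm_sub_le_norm_sub_add_norm_sub (ι (f' x)) (θ x) (ι (f'' x))
    have h8 := h5 x
    rw [norm_sub_rev] at h8
    linarith [h2 x]

lemma sums_card {α : Type*} [AddCommMonoid α] (A : Finset α) (n : ℕ) :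
    ∃ T : Finset α, T.card ≤ (A.card + 1) ^ n ∧
      ∀ q : Multiset α, (∀ σ ∈ q, σ ∈ A) → Multiset.card q ≤ n → q.sum ∈ T := by
  classical
  induction n with
  | zero =>
    refine ⟨{0}, by simp, fun q _ hq => ?_⟩
    rw [Multiset.card_eq_zero.1 (Nat.le_zero.1 hq)]
    simp
  | succ n ih =>
    obtain ⟨T, h1, h2⟩ := ih
    refine ⟨Finset.image₂ (· + ·) (insert 0 A) T, ?_, fun q hq hn => ?_⟩
    · refine (Finset.card_image₂_le ..).trans ?_
      rw [pow_succ']
      exact Nat.mul_le_mul (Finset.card_insert_le ..) h1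
    · induction q using Multiset.induction_on with
      | empty =>
        refine Finset.mem_image₂.2 ⟨0, Finset.mem_insert_self .., 0, ?_, by simp⟩
        simpa using h2 0 (by simp) (by simp)
      | cons a q _ =>
        rw [Multiset.card_cons] at hn
        refine Finset.mem_image₂.2 ⟨a, Finset.mem_insert_of_mem (hq a (Multiset.mem_cons_self ..)),
          q.sum, h2 q (fun σ hσ => hq σ (Multiset.mem_cons_of_mem hσ)) (by omega), by simp⟩

lemma code_one {δ : ℝ} (hδ : 0 < δ) (t : ℝ) :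
    ∃ (k : ℕ) (s : Bool), (k : ℝ) ≤ |t| / δ ∧ |t - k * (if s then δ else -δ)| ≤ δ := by
  have h0 : 0 ≤ |t| / δ := by positivity
  have h1 := Nat.floor_le h0
  have h2 := Nat.lt_floor_add_one (|t| / δ)
  rw [div_lt_iff₀ hδ] at h2
  have h3 := (le_div_iff₀ hδ).1 h1
  rcases le_total 0 t with ht | ht
  · refine ⟨_, true, h1, ?_⟩
    rw [if_pos rfl, abs_le]
    have h4 := abs_of_nonneg ht
    constructor <;> nlinarith
  · refine ⟨_, false, h1, ?_⟩
    rw [if_neg (by simp), abs_le]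
    have h4 := abs_of_nonpos ht
    constructor <;> nlinarith

lemma code_zero {ν : ℕ} {δ : ℝ} (hδ : 0 < δ) :
    ∃ A : Finset (EuclideanSpace ℝ (Fin ν)), A.card ≤ 2 * ν ∧ ∀ v : EuclideanSpace ℝ (Fin ν),
      ∃ q : Multiset (EuclideanSpace ℝ (Fin ν)), (∀ σ ∈ q, σ ∈ A) ∧
        (Multiset.card q : ℝ) ≤ ν / δ * ‖v‖ ∧ ‖v - q.sum‖ ≤ ν * δ := by
  classical
  let e : Bool × Fin ν → EuclideanSpace ℝ (Fin ν) := fun p =>
    EuclideanSpace.single p.2 (if p.1 then δ else -δ)
  refine ⟨Finset.univ.image e, Finset.card_image_le.trans (by simp), fun v => ?_⟩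
  choose k s h1 h2 using fun j : Fin ν => code_one hδ (v j)
  refine ⟨∑ j, Multiset.replicate (k j) (e (s j, j)), fun σ hσ => ?_, ?_, ?_⟩
  · obtain ⟨j, -, hj⟩ := Multiset.mem_sum.1 hσ
    rw [Multiset.eq_of_mem_replicate hj]
    exact Finset.mem_image_of_mem _ (Finset.mem_univ _)
  · rw [Multiset.card_sum]
    simp only [Multiset.card_replicate]
    push_cast
    have h3 : ∀ j, (k j : ℝ) ≤ ‖v‖ / δ := fun j => (h1 j).trans
      (div_le_div_of_nonneg_right (by simpa using PiLp.norm_apply_le v j) hδ.le)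
    refine (Finset.sum_le_sum fun j _ => h3 j).trans_eq ?_
    simp only [Finset.sum_const, Finset.card_univ, Fintype.card_fin, nsmul_eq_mul]
    ring
  · have h3 : v - (∑ j, Multiset.replicate (k j) (e (s j, j))).sum =
        ∑ j, EuclideanSpace.single j (v j - k j * (if s j then δ else -δ)) := by
      rw [Multiset.sum_sum]
      ext i
      simp [e, Multiset.sum_replicate, Finset.sum_apply, Pi.single_apply]
    rw [h3]
    refine (norm_sum_le _ _).trans ((Finset.sum_le_sum (g := fun _ => δ) fun j _ => ?_).trans_eq ?_)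
    · simpa using h2 j
    · simp

end Pool.Agent.Lib.MP_f35bed_an
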