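import Pool.Agent.Lib.MP_f35bed_an.Weak

/-!
Uniform bounds for all weak derivatives of the homogeneous extension.
-/

open MeasureTheory Filter Topology Metric Set
open scoped ContDiff ENNReal

namespace Pool.Agent.Lib.MP_f35bed_an

variable {m : ℕ} {V : Type} [NormedAddCommGroup V] [NormedSpace ℝ V]

section good
variable {τ : Type} {A : ℕ → τ → ℝ}

def G0 (A : ℕ → τ → ℝ) (j : ℕ) (Φ : τ → Eu m → V) : Prop :=
  ∃ C, 0 ≤ C ∧ ∀ t, Integrable (Φ t) ∧ ∫ y, ‖Φ t y‖ ≤ C * A j t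

def Good (A : ℕ → τ → ℝ) : ℕ → ℕ → (τ → Eu m → V) → Prop
  | 0, j, Φ => G0 A j Φ
  | r + 1, j, Φ => G0 A j Φ ∧ ∀ i, ∃ Ψ, Good A r (j + 1) Ψ ∧ ∀ t, WD i (Φ t) (Ψ t)

lemma Good.base {r j : ℕ} {Φ : τ → Eu m → V} (h : Good A r j Φ) : G0 A j Φ := by
  cases r with
  | zero => exact h
  | succ r => exact h.1

omit [NormedSpace ℝ V] in
lemma G0.add {j : ℕ} {Φ Ψ : τ → Eu m → V} (h : G0 A j Φ) (h' : G0 A j Ψ) :
    G0 A j (fun t y => Φ t y + Ψ t y) := by
  obtain ⟨C, hC, h⟩ := h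
  obtain ⟨D, hD, h'⟩ := h'
  refine ⟨C + D, add_nonneg hC hD, fun t => ⟨(h t).1.add (h' t).1, ?_⟩⟩
  refine (integral_mono ((h t).1.add (h' t).1).norm ((h t).1.norm.add (h' t).1.norm)
    fun y => norm_add_le _ _).trans ?_
  rw [add_mul]
  exact (integral_add (h t).1.norm (h' t).1.norm).trans_le (add_le_add (h t).2 (h' t).2)

lemma int_smul {ψ : Eu m → ℝ} (hψ : Continuous ψ) (hs : HasCompactSupport ψ) {u : Eu m → V}
    (hu : Integrable u) : Integrable (fun y => ψ y • u y) := by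
  obtain ⟨C, hC⟩ := hψ.bounded_above_of_compact_support hs
  exact hu.bdd_smul C hψ.aestronglyMeasurable (Eventually.of_forall hC)

lemma pd_supp (i : Fin (m + 1)) {w : Eu m → V} (hs : HasCompactSupport w) :
    HasCompactSupport (pd i w) :=
  (hs.fderiv ℝ).mono fun y hy h => hy (by simp [pd, h])

lemma WD.add {i : Fin (m + 1)} {u g u' g' : Eu m → V} (hu : Integrable u) (hg : Integrable g)
    (hu' : Integrable u') (hg' : Integrable g') (h : WD i u g) (h' : WD i u' g') :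
    WD i (fun y => u y + u' y) (fun y => g y + g' y) := by
  intro ψ h1 h2
  have c1 := (pd_smooth i h1).continuous
  simp only [smul_add]
  rw [integral_add (int_smul c1 (pd_supp i h2) hu) (int_smul c1 (pd_supp i h2) hu'),
    integral_add (int_smul h1.continuous h2 hg) (int_smul h1.continuous h2 hg'), h ψ h1 h2,
    h' ψ h1 h2, neg_add]

lemma Good.add {r j : ℕ} {Φ Ψ : τ → Eu m → V} (h : Good A r j Φ) (h' : Good A r j Ψ) :
    Good A r j (fun t y => Φ t y + Ψ t y) := by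
  induction r generalizing j Φ Ψ with
  | zero => exact G0.add h h'
  | succ r ih =>
    refine ⟨h.1.add h'.1, fun i => ?_⟩
    obtain ⟨Φ', h1, h2⟩ := h.2 i
    obtain ⟨Ψ', h3, h4⟩ := h'.2 i
    exact ⟨_, ih h1 h3, fun t => WD.add (h.1.choose_spec.2 t).1 (h1.base.choose_spec.2 t).1
      (h'.1.choose_spec.2 t).1 (h3.base.choose_spec.2 t).1 (h2 t) (h4 t)⟩

lemma Good.zero (r j : ℕ) : Good A r j (fun _ (_ : Eu m) => (0 : V)) := by
  have h : ∀ j, G0 A j (fun _ (_ : Eu m) => (0 : V)) := fun j => ⟨0, le_rfl, fun t => by simp⟩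
  induction r generalizing j with
  | zero => exact h j
  | succ r ih => exact ⟨h j, fun i => ⟨_, ih _, fun t ψ _ _ => by simp⟩⟩

lemma Good.sum {ι : Type} (s : Finset ι) {r j : ℕ} {Φ : ι → τ → Eu m → V}
    (h : ∀ l, Good A r j (Φ l)) : Good A r j (fun t y => ∑ l ∈ s, Φ l t y) := by
  classical
  induction s using Finset.induction_on with
  | empty => simpa using Good.zero r j
  | insert l s hl ih =>
    simp only [Finset.sum_insert hl]
    exact (h l).add ih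

lemma Good.mono (hA : ∀ j t, A j t ≤ A (j + 1) t) {r j : ℕ} {Φ : τ → Eu m → V}
    (h : Good A r j Φ) : Good A r (j + 1) Φ := by
  have h0 : ∀ {j : ℕ} {Φ : τ → Eu m → V}, G0 A j Φ → G0 A (j + 1) Φ := fun ⟨C, hC, h⟩ =>
    ⟨C, hC, fun t => ⟨(h t).1, (h t).2.trans (mul_le_mul_of_nonneg_left (hA _ _) hC)⟩⟩
  induction r generalizing j Φ with
  | zero => exact h0 h
  | succ r ih =>
    refine ⟨h0 h.1, fun i => ?_⟩
    obtain ⟨Φ', h1, h2⟩ := h.2 i
    exact ⟨Φ', ih h1, h2⟩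

/-- Iterated directional derivatives. -/
noncomputable def Dl : List (Fin (m + 1)) → (Eu m → V) → Eu m → V
  | [], w => w
  | i :: l, w => Dl l (pd i w)

lemma Good.mol_le [CompleteSpace V] (hA : ∀ j t, 0 ≤ A j t) {r j : ℕ} {Φ : τ → Eu m → V}
    (h : Good A r j Φ) : ∃ C, 0 ≤ C ∧ ∀ t ρ (l : List (Fin (m + 1))), l.length = r →
      ∫⁻ y, ‖Dl l (mol ρ (Φ t)) y‖ₑ ≤ ENNReal.ofReal (C * A (j + r) t) := by
  induction r generalizing j Φ with
  | zero =>
    obtain ⟨C, hC, h⟩ := h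
    refine ⟨C, hC, fun t ρ l hl => ?_⟩
    rw [List.length_eq_zero_iff.1 hl, Dl,
      ← ofReal_integral_norm_eq_lintegral_enorm (mol_integrable _ (h t).1)]
    exact ENNReal.ofReal_le_ofReal ((mol_norm_le ρ (h t).1).trans (h t).2)
  | succ r ih =>
    choose Ψ h1 h2 using h.2
    choose C hC h3 using fun i => ih (h1 i)
    refine ⟨∑ i, C i, Finset.sum_nonneg fun i _ => hC i, fun t ρ l hl => ?_⟩
    obtain _ | ⟨i, l⟩ := l
    · simp at hl
    rw [Dl, pd_mol ρ (h.1.choose_spec.2 t).1 (h2 i t)]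
    refine (h3 i t ρ l (by simpa using hl)).trans (ENNReal.ofReal_le_ofReal ?_)
    rw [show j + 1 + r = j + (r + 1) by ring]
    exact mul_le_mul_of_nonneg_right (Finset.single_le_sum (fun i _ => hC i) (Finset.mem_univ i))
      (hA _ _)

end good

/-- All Sobolev jets. -/
def Jet (m : ℕ) (V : Type) [NormedAddCommGroup V] [NormedSpace ℝ V] : Type :=
  {p : (Sph m → V) × ((k : ℕ) → Sph m → (Fin k → Fin (m + 1)) → V) // IsSobolevJet p.1 p.2}

noncomputable def aa (k : ℕ) (t : Jet m V) : ℝ := ∑ I, ∫ x, ‖t.1.2 k x I‖ ∂sphMeasure m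

noncomputable def AA (j : ℕ) (t : Jet m V) : ℝ := ∑ k ∈ Finset.range (j + 1), aa k t

lemma aa_nonneg (k : ℕ) (t : Jet m V) : 0 ≤ aa k t :=
  Finset.sum_nonneg fun _ _ => integral_nonneg fun _ => norm_nonneg _

lemma AA_nonneg (j : ℕ) (t : Jet m V) : 0 ≤ AA j t := Finset.sum_nonneg fun k _ => aa_nonneg k t

lemma AA_succ (j : ℕ) (t : Jet m V) : AA (j + 1) t = AA j t + aa (j + 1) t :=
  Finset.sum_range_succ _ _

lemma AA_mono (j : ℕ) (t : Jet m V) : AA j t ≤ AA (j + 1) t := by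
  linarith [AA_succ j t, aa_nonneg (j + 1) t]

lemma int_le_AA {k : ℕ} (t : Jet m V) (I : Fin k → Fin (m + 1)) :
    ∫ x, ‖t.1.2 k x I‖ ∂sphMeasure m ≤ AA k t :=
  (Finset.single_le_sum (f := fun I => ∫ x, ‖t.1.2 k x I‖ ∂sphMeasure m)
    (fun _ _ => integral_nonneg fun _ => norm_nonneg _) (Finset.mem_univ I)).trans
    (Finset.single_le_sum (fun k _ => aa_nonneg k t) (Finset.self_mem_range_succ k))

/-- A coefficient times a component of the jet. -/
noncomputable def cU (a : Eu m → ℝ) {k : ℕ} (I : Fin k → Fin (m + 1)) (t : Jet m V) (y : Eu m) : V :=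
  a y • t.1.2 k (nz y) I

noncomputable def rest (a : Eu m → ℝ) {k : ℕ} (I : Fin k → Fin (m + 1)) (i : Fin (m + 1))
    (t : Jet m V) (y : Eu m) : V :=
  cU (pd i a) I t y
    + ∑ j, cU (fun y => a y * ‖y‖⁻¹ * y (I j) * ‖y‖⁻¹ * (-1)) (Function.update I j i) t y

lemma Adm.pd {a : Eu m → ℝ} (ha : Adm a) (i : Fin (m + 1)) : Adm (pd i a) :=
  ha.deriv (v := fun _ => EuclideanSpace.single i 1) contDiff_const

lemma Adm.coef {a : Eu m → ℝ} (ha : Adm a) (i : Fin (m + 1)) :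
    Adm (fun y => a y * ‖y‖⁻¹ * y i * ‖y‖⁻¹ * (-1)) :=
  (ha.inv.coord i).inv.mul fun _ _ => contDiffAt_const

lemma wd_cU [CompleteSpace V] {a : Eu m → ℝ} (ha : Adm a) {k : ℕ} (hk : k < m)
    (I : Fin k → Fin (m + 1)) (i : Fin (m + 1)) (t : Jet m V) :
    WD i (cU a I t) (fun y => cU (fun y => a y * ‖y‖⁻¹) (Fin.cons i I : Fin (k + 1) → _) t y
      + rest a I i t y) := by
  intro ψ h1 h2
  obtain ⟨-, hi, hw⟩ := t.2
  have hc : ∀ j, Integrable (fun x : Sph m => x.1 (I j) • t.1.2 k x (Function.update I j i))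
      (sphMeasure m) := fun j =>
    (hi k hk.le _).bdd_smul 1 (Continuous.aestronglyMeasurable (by fun_prop))
      (Eventually.of_forall fun x => (PiLp.norm_apply_le x.1 _).trans (norm_sph x).le)
  have a1 : Adm (fun y => a y * ψ y) := ha.mul fun _ _ => h1.contDiffAt
  have hg := (hi (k + 1) hk (Fin.cons i I)).sub' (integrable_finsetSum Finset.univ fun j _ => hc j)
  have h3 := weak_ext (hi k hk.le I) hg (hw k hk i I) a1
  have a2 : Adm (fun y => pd i a y * ψ y) := (ha.pd i).mul fun _ _ => h1.contDiffAt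
  have i1 := a2.integrable (hi k hk.le I)
  have i2 := (a1.pd i).integrable (hi k hk.le I)
  have h4 : ∀ y, pd i ψ y • cU a I t y = pd i (fun y => a y * ψ y) y • t.1.2 k (nz y) I
      - (pd i a y * ψ y) • t.1.2 k (nz y) I := by
    intro y
    rw [cU, smul_smul, ← sub_smul, pd, pd, pd, fderiv_fun_mul
      (ha.smooth.differentiable (by simp) y) (h1.differentiable (by simp) y)]
    congr 1
    simp only [add_apply, smul_apply, smul_eq_mul]
    ring
  simp only [h4]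
  rw [integral_sub i2 i1]
  erw [h3]
  rw [← neg_add', ← integral_add (a1.inv.integrable hg) i1]
  congr 1
  refine integral_congr_ae (Eventually.of_forall fun y => ?_)
  by_cases hy : y = 0
  · have := (ha.pd i).zero.self_of_nhds
    simp [hy, cU, rest, this]
  · simp only [cU, rest, nz_coe hy, smul_sub, smul_add, Finset.smul_sum, smul_smul, PiLp.smul_apply,
      smul_eq_mul]
    rw [sub_add_eq_add_sub, sub_eq_add_neg, add_assoc, ← Finset.sum_neg_distrib]
    congr 2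
    · ring
    · congr 1; ring
    · refine Finset.sum_congr rfl fun j _ => ?_
      rw [← neg_smul]
      congr 1
      ring

lemma good_cU [CompleteSpace V] (r : ℕ) : ∀ k, k + r ≤ m → ∀ a : Eu m → ℝ, Adm a →
    ∀ I : Fin k → Fin (m + 1), Good AA r k (cU (V := V) a I) := by
  have h0 : ∀ k, k ≤ m → ∀ a : Eu m → ℝ, Adm a → ∀ I : Fin k → Fin (m + 1),
      G0 AA k (cU (V := V) a I) := by
    intro k hk a ha I
    obtain ⟨C, hC, h⟩ := coef_bound (V := V) ha.smooth.continuous ha.supp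
    refine ⟨C, hC, fun t => ?_⟩
    have h1 := h _ (t.2.2.1 k hk I)
    exact ⟨h1.1, h1.2.trans (mul_le_mul_of_nonneg_left (int_le_AA t I) hC)⟩
  induction r with
  | zero => exact h0
  | succ r ih =>
    intro k hk a ha I
    refine ⟨h0 k (by omega) a ha I, fun i => ⟨_, ?_, wd_cU ha (by omega) I i⟩⟩
    exact (ih (k + 1) (by omega) _ ha.inv _).add (Good.mono AA_mono
      ((ih k (by omega) _ (ha.pd i) _).add (Good.sum _ fun j => ih k (by omega) _ (ha.coef _) _)))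

lemma good_rest [CompleteSpace V] {r k : ℕ} (hk : k + r ≤ m) {a : Eu m → ℝ} (ha : Adm a)
    (I : Fin k → Fin (m + 1)) (i : Fin (m + 1)) : Good AA r k (rest (V := V) a I i) :=
  (good_cU r k hk _ (ha.pd i) _).add (Good.sum _ fun _ => good_cU r k hk _ (ha.coef _) _)

lemma exists_cutoff (R : ℝ) : ∃ χ : Eu m → ℝ, Adm χ ∧ ∀ y, 1 ≤ ‖y‖ → ‖y‖ ≤ R → χ y = 1 := by
  set b1 : ContDiffBump (0 : Eu m) := ⟨|R| + 1, |R| + 2, by positivity, by linarith⟩
  set b2 : ContDiffBump (0 : Eu m) := ⟨1 / 2, 1, by positivity, by linarith⟩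
  refine ⟨fun y => b1 y * (1 - b2 y), ⟨b1.contDiff.mul (contDiff_const.sub b2.contDiff),
    b1.hasCompactSupport.mul_right, b2.eventuallyEq_one.mono fun y hy => by simp [hy]⟩,
    fun y h1 h2 => ?_⟩
  dsimp only
  rw [b1.one_of_mem_closedBall (mem_closedBall_zero_iff.2 (by linarith [le_abs_self R])),
    b2.zero_of_le_dist (by simpa using h1)]
  simp

lemma interp_comp [CompleteSpace V] {k : ℕ} (hk : k + 2 ≤ m) (I : Fin (k + 1) → Fin (m + 1))
    {ε : ℝ} (hε : 0 < ε) : ∃ C, 0 ≤ C ∧ ∀ t : Jet m V,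
      ∫ x, ‖t.1.2 (k + 1) x I‖ ∂sphMeasure m ≤ ε * AA (k + 2) t + C * AA k t := by
  obtain ⟨χ, hχ, h1⟩ := exists_cutoff (m := m) 2
  have ha : Adm (fun y => χ y * ‖y‖) := hχ.mul fun y hy => contDiffAt_norm ℝ hy
  obtain ⟨c, hc, h2⟩ := coef_lower (V := V) ha.inv.smooth.continuous ha.inv.supp fun y h3 h4 => by
    rw [h1 y h3 h4, one_mul, mul_inv_cancel₀ (by linarith)]
  obtain ⟨C1, hC1, h3⟩ := (good_cU (V := V) 0 k (by omega) _ ha (Fin.tail I)).base
  obtain ⟨C2, hC2, h4⟩ := (good_rest (V := V) (r := 0) (by omega) ha (Fin.tail I) (I 0)).base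
  obtain ⟨⟨C4, -, h5⟩, h6⟩ := (good_cU (V := V) 1 (k + 1) (by omega) _ ha.inv I).add
    (Good.mono AA_mono (good_rest (V := V) (r := 1) (by omega) ha (Fin.tail I) (I 0)))
  obtain ⟨Ψ, ⟨C3, hC3, h7⟩, h8⟩ := h6 (I 0)
  refine ⟨(2 / (ε * c / (C3 + 1)) * C1 + C2) / c, by positivity, fun t => ?_⟩
  have h9 := wd_cU ha (by omega : k < m) (Fin.tail I) (I 0) t
  rw [Fin.cons_self_tail] at h9
  have h10 := interp (h3 t).1 (h5 t).1 (h7 t).1 h9 (h8 t) (by positivity : 0 < ε * c / (C3 + 1))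
  have h11 := h2 _ (t.2.2.1 (k + 1) (by omega) I)
  have h12 : ∫ y, ‖cU (fun y => χ y * ‖y‖ * ‖y‖⁻¹) I t y‖
      ≤ (∫ y, ‖cU (fun y => χ y * ‖y‖ * ‖y‖⁻¹) I t y + rest (fun y => χ y * ‖y‖) (Fin.tail I) (I 0) t y‖)
        + ∫ y, ‖rest (fun y => χ y * ‖y‖) (Fin.tail I) (I 0) t y‖ := by
    rw [← integral_add (h5 t).1.norm (h4 t).1.norm]
    exact integral_mono (ha.inv.integrable (t.2.2.1 (k + 1) (by omega) I)).norm
      ((h5 t).1.norm.add (h4 t).1.norm) fun y => norm_le_add_norm_add _ _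
  have h13 := mul_le_mul_of_nonneg_left (h3 t).2 (by positivity : 0 ≤ 2 / (ε * c / (C3 + 1)))
  have h14 := mul_le_mul_of_nonneg_left (h7 t).2 (by positivity : 0 ≤ ε * c / (C3 + 1))
  have h15 : ε * c / (C3 + 1) * (C3 * AA (k + 1 + 1) t) ≤ c * (ε * AA (k + 2) t) := by
    have h16 := AA_nonneg (k + 2) t
    calc _ = C3 / (C3 + 1) * (c * (ε * AA (k + 2) t)) := by ring
      _ ≤ _ := mul_le_of_le_one_left (by positivity) ((div_le_one (by positivity)).2 (by linarith))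
  refine le_of_mul_le_mul_left ?_ hc
  rw [mul_add, ← mul_assoc c (_ / c), mul_div_cancel₀ _ hc.ne', add_mul, mul_assoc]
  linarith [(h4 t).2, h11.trans h12]

lemma interp_AA [CompleteSpace V] (k : ℕ) (hk : k + 1 ≤ m) : ∀ ε : ℝ, 0 < ε → ∃ C, 0 ≤ C ∧
    ∀ t : Jet m V, AA k t ≤ ε * AA (k + 1) t + C * AA 0 t := by
  induction k with
  | zero =>
    intro ε hε
    exact ⟨1, zero_le_one, fun t => by linarith [mul_nonneg hε.le (AA_nonneg (0 + 1) t)]⟩
  | succ k ih =>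
    intro ε hε
    have hc : (0 : ℝ) < Fintype.card (Fin (k + 1) → Fin (m + 1)) := by
      exact_mod_cast Fintype.card_pos
    choose C hC h1 using fun I : Fin (k + 1) → Fin (m + 1) =>
      interp_comp (V := V) hk I (div_pos (half_pos hε) hc)
    have hS : 0 ≤ ∑ I, C I := Finset.sum_nonneg fun I _ => hC I
    obtain ⟨D, hD, h2⟩ := ih (by omega) (1 / 2 / (∑ I, C I + 1)) (by positivity)
    refine ⟨2 * ((∑ I, C I + 1) * D), by positivity, fun t => ?_⟩
    have h3 := Finset.sum_le_sum (s := Finset.univ) fun I _ => h1 I t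
    rw [Finset.sum_add_distrib, Finset.sum_const, Finset.card_univ, nsmul_eq_mul, ← mul_assoc,
      mul_div_cancel₀ _ hc.ne', ← Finset.sum_mul] at h3
    have h4 := mul_le_mul_of_nonneg_left (h2 t) (by positivity : 0 ≤ ∑ I, C I + 1)
    rw [mul_add, ← mul_assoc, mul_div_cancel₀ _ (by positivity)] at h4
    have h5 := AA_succ k t
    unfold aa at h5
    nlinarith

theorem AA_top [CompleteSpace V] (hm : 1 ≤ m) : ∃ C, 0 ≤ C ∧
    ∀ t : Jet m V, AA m t ≤ 2 * aa m t + C * aa 0 t := by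
  obtain ⟨k, hk⟩ : ∃ k, k + 1 = m := ⟨m - 1, by omega⟩
  obtain ⟨C, hC, h⟩ := interp_AA (V := V) k hk.le (1 / 2) (by norm_num)
  refine ⟨2 * C, by positivity, fun t => ?_⟩
  have h1 := h t
  have h2 := AA_succ k t
  have h3 : AA 0 t = aa 0 t := by simp [AA]
  rw [hk] at h1 h2
  rw [h3] at h1
  linarith

end Pool.Agent.Lib.MP_f35bed_an
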