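import Pool.Agent.Lib.MP_f35bed_an.Defs

/-!
Polar coordinates: homogeneous extensions of functions on the sphere and their weak derivatives.
-/

open MeasureTheory Filter Topology Metric Set
open scoped ContDiff

namespace Pool.Agent.Lib.MP_f35bed_an

abbrev Eu (m : ℕ) : Type := EuclideanSpace ℝ (Fin (m + 1))

variable {m : ℕ} {V : Type} [NormedAddCommGroup V] [NormedSpace ℝ V]

open scoped Classical in
/-- Radial projection to the sphere. -/
noncomputable def nz (y : Eu m) : Sph m :=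
  if h : y = 0 then ⟨EuclideanSpace.single 0 1, by simp⟩ else (homeomorphUnitSphereProd _ ⟨y, h⟩).1

lemma nz_coe {y : Eu m} (h : y ≠ 0) : (nz y : Eu m) = ‖y‖⁻¹ • y := by
  simp [nz, h]

lemma norm_sph (x : Sph m) : ‖(x : Eu m)‖ = 1 := norm_eq_of_mem_sphere x

lemma nz_smul_pos {r : ℝ} (hr : 0 < r) (y : Eu m) : nz (r • y) = nz y := by
  by_cases h : y = 0
  · simp [h]
  · refine Subtype.ext ?_
    rw [nz_coe h, nz_coe (smul_ne_zero hr.ne' h), norm_smul, Real.norm_of_nonneg hr.le, smul_smul]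
    congr 1
    field_simp

lemma nz_sph (x : Sph m) : nz (x : Eu m) = x := by
  refine Subtype.ext ?_
  rw [nz_coe (ne_of_mem_sphere x.2 one_ne_zero), norm_sph]
  simp

lemma continuousOn_nz : ContinuousOn (nz : Eu m → Sph m) {0}ᶜ := by
  rw [continuousOn_iff_continuous_domRestrict]
  refine (continuous_fst.comp (homeomorphUnitSphereProd (Eu m)).continuous).congr fun y => ?_
  have : (y : Eu m) ≠ 0 := y.2
  simp [nz, this]

noncomputable abbrev pm (m : ℕ) : Measure (Sph m × Ioi (0 : ℝ)) :=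
  (sphMeasure m).prod (Measure.volumeIoiPow m)

instance : IsFiniteMeasure (sphMeasure m) := by unfold sphMeasure; infer_instance

lemma polar_mp : MeasurePreserving (homeomorphUnitSphereProd (Eu m))
    ((volume : Measure (Eu m)).comap (↑)) (pm m) := by
  have := (volume : Measure (Eu m)).measurePreserving_homeomorphUnitSphereProd
  rwa [finrank_euclideanSpace_fin, Nat.add_sub_cancel] at this

lemma polar_back (y : ({0}ᶜ : Set (Eu m))) :
    ((homeomorphUnitSphereProd (Eu m) y).2 : ℝ) • ((homeomorphUnitSphereProd (Eu m) y).1 : Eu m) = y :=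
  congrArg Subtype.val ((homeomorphUnitSphereProd (Eu m)).symm_apply_apply y)

lemma integral_polar (h : Eu m → V) :
    ∫ y, h y = ∫ z, h ((z.2 : ℝ) • (z.1 : Eu m)) ∂pm m := by
  rw [← polar_mp.integral_comp (Homeomorph.measurableEmbedding _)]
  simp only [polar_back]
  rw [integral_subtype_comap (measurableSet_singleton _).compl, restrict_compl_singleton]

omit [NormedSpace ℝ V] in
lemma integrable_polar (h : Eu m → V) :
    Integrable h ↔ Integrable (fun z : Sph m × Ioi (0 : ℝ) => h ((z.2 : ℝ) • (z.1 : Eu m))) (pm m) := by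
  rw [← polar_mp.integrable_comp_emb (Homeomorph.measurableEmbedding _)]
  simp only [Function.comp_def, polar_back]
  have := integrableOn_iff_comap_subtypeVal (f := h) (μ := volume) (measurableSet_singleton 0).compl
  rwa [IntegrableOn, restrict_compl_singleton] at this

lemma nz_polar (z : Sph m × Ioi (0 : ℝ)) : nz ((z.2 : ℝ) • (z.1 : Eu m)) = z.1 := by
  rw [nz_smul_pos z.2.2, nz_sph]

lemma norm_polar (z : Sph m × Ioi (0 : ℝ)) : ‖(z.2 : ℝ) • (z.1 : Eu m)‖ = z.2 := by
  rw [norm_smul, norm_sph, mul_one, Real.norm_of_nonneg z.2.2.le]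

lemma coef_bound {b : Eu m → ℝ} (hb : Continuous b) (hs : HasCompactSupport b) :
    ∃ C, 0 ≤ C ∧ ∀ u : Sph m → V, Integrable u (sphMeasure m) →
      Integrable (fun y => b y • u (nz y)) ∧ ∫ y, ‖b y • u (nz y)‖ ≤ C * ∫ x, ‖u x‖ ∂sphMeasure m := by
  obtain ⟨M, hM⟩ := hb.bounded_above_of_compact_support hs
  obtain ⟨R, hR0, hR⟩ := hs.isBounded.subset_ball_lt 0 0
  set β : Ioi (0 : ℝ) → ℝ := (Iio (⟨R, hR0⟩ : Ioi (0 : ℝ))).indicator fun _ => M with hβ
  have hM0 : 0 ≤ M := (norm_nonneg _).trans (hM 0)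
  have hβi : Integrable β (Measure.volumeIoiPow m) :=
    (integrableOn_const (by rw [Measure.volumeIoiPow_apply_Iio]; simp)).integrable_indicator
      measurableSet_Iio
  refine ⟨∫ r, β r ∂Measure.volumeIoiPow m, integral_nonneg fun r =>
    indicator_nonneg (fun _ _ => hM0) r, fun u hu => ?_⟩
  have h1 := hu.norm.mul_prod hβi
  have h2 : ∀ z : Sph m × Ioi (0 : ℝ), ‖b ((z.2 : ℝ) • (z.1 : Eu m)) • u z.1‖ ≤ ‖u z.1‖ * β z.2 := by
    intro z
    rw [norm_smul, mul_comm]
    refine mul_le_mul_of_nonneg_left ?_ (norm_nonneg _)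
    by_cases h : z.2 ∈ Iio (⟨R, hR0⟩ : Ioi (0 : ℝ))
    · rw [hβ, indicator_of_mem h]; exact hM _
    · rw [hβ, indicator_of_notMem h, image_eq_zero_of_notMem_tsupport (f := b), norm_zero]
      intro h3
      have := mem_ball_zero_iff.1 (hR h3)
      rw [norm_polar] at this
      exact h this
  have h3 : Integrable (fun z : Sph m × Ioi (0 : ℝ) => b ((z.2 : ℝ) • (z.1 : Eu m)) • u z.1) (pm m) :=
    h1.mono' (Continuous.aestronglyMeasurable (by fun_prop) |>.smul hu.1.comp_fst)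
      (Eventually.of_forall h2)
  constructor
  · rw [integrable_polar]
    simpa only [nz_polar] using h3
  · rw [integral_polar]
    simp only [nz_polar]
    refine (integral_mono h3.norm h1 h2).trans (le_of_eq ?_)
    rw [integral_prod_mul (fun x => ‖u x‖) β, mul_comm]

lemma coef_lower {b : Eu m → ℝ} (hb : Continuous b) (hs : HasCompactSupport b)
    (h1 : ∀ y, 1 ≤ ‖y‖ → ‖y‖ ≤ 2 → b y = 1) :
    ∃ c, 0 < c ∧ ∀ u : Sph m → V, Integrable u (sphMeasure m) →
      c * ∫ x, ‖u x‖ ∂sphMeasure m ≤ ∫ y, ‖b y • u (nz y)‖ := by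
  obtain ⟨C, -, hC⟩ := coef_bound (V := V) hb hs
  set p1 : Ioi (0 : ℝ) := ⟨1, mem_Ioi.2 one_pos⟩
  set p2 : Ioi (0 : ℝ) := ⟨2, mem_Ioi.2 two_pos⟩
  have hfin : Measure.volumeIoiPow m (Iio p2) ≠ ⊤ := by rw [Measure.volumeIoiPow_apply_Iio]; simp
  have hfin' : Measure.volumeIoiPow m (Ico p1 p2) ≠ ⊤ :=
    ne_top_of_le_ne_top hfin (measure_mono Ico_subset_Iio_self)
  set β : Ioi (0 : ℝ) → ℝ := (Ico p1 p2).indicator fun _ => 1 with hβ
  have hβi : Integrable β (Measure.volumeIoiPow m) :=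
    (integrableOn_const hfin').integrable_indicator measurableSet_Ico
  refine ⟨∫ r, β r ∂Measure.volumeIoiPow m, ?_, fun u hu => ?_⟩
  · rw [hβ, integral_indicator measurableSet_Ico, setIntegral_const, smul_eq_mul, mul_one]
    refine ENNReal.toReal_pos (fun h0 => ?_) hfin'
    have h2 := measure_union_le (μ := Measure.volumeIoiPow m) (Iio p1) (Ico p1 p2)
    rw [Iio_union_Ico_eq_Iio (a := p1) (b := p2) (Subtype.mk_le_mk.2 one_le_two), h0, add_zero,
      Measure.volumeIoiPow_apply_Iio, Measure.volumeIoiPow_apply_Iio,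
      ENNReal.ofReal_le_ofReal_iff (by positivity),
      div_le_div_iff_of_pos_right (by positivity)] at h2
    exact h2.not_gt (pow_lt_pow_left₀ one_lt_two zero_le_one (Nat.succ_ne_zero m))
  · have h2 := (integrable_polar _).1 (hC u hu).1.norm
    rw [integral_polar, mul_comm, ← integral_prod_mul (fun x => ‖u x‖) β]
    refine integral_mono (hu.norm.mul_prod hβi) h2 fun z => ?_
    dsimp only
    rw [nz_polar, norm_smul, mul_comm]
    refine mul_le_mul_of_nonneg_right ?_ (norm_nonneg _)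
    by_cases h : z.2 ∈ Ico p1 p2
    · rw [hβ, indicator_of_mem h, h1 _ (by rw [norm_polar]; exact h.1)
        (by rw [norm_polar]; exact h.2.le), norm_one]
    · rw [hβ, indicator_of_notMem h]; exact norm_nonneg _

/-- Smooth functions with compact support away from the origin. -/
structure Adm (a : Eu m → ℝ) : Prop where
  smooth : ContDiff ℝ ∞ a
  supp : HasCompactSupport a
  zero : ∀ᶠ y in 𝓝 0, a y = 0

lemma Adm.mul {a b : Eu m → ℝ} (ha : Adm a) (hb : ∀ y, y ≠ 0 → ContDiffAt ℝ ∞ b y) :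
    Adm (fun y => a y * b y) := by
  have h0 : ∀ᶠ y in 𝓝 0, a y * b y = 0 := ha.zero.mono fun y hy => by rw [hy, zero_mul]
  refine ⟨contDiff_iff_contDiffAt.2 fun y => ?_, ha.supp.mul_right, h0⟩
  by_cases hy : y = 0
  · subst hy
    exact contDiffAt_const.congr_of_eventuallyEq h0
  · exact ha.smooth.contDiffAt.mul (hb y hy)

lemma Adm.deriv {a : Eu m → ℝ} (ha : Adm a) {v : Eu m → Eu m} (hv : ContDiff ℝ ∞ v) :
    Adm (fun y => fderiv ℝ a y (v y)) := by
  refine ⟨(ha.smooth.fderiv_right (m := ∞) le_rfl).clm_apply hv, ?_, ?_⟩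
  · refine (ha.supp.fderiv ℝ).mono fun y hy h => hy ?_
    simp [h]
  · filter_upwards [ha.zero.eventually_nhds] with y hy
    rw [(show a =ᶠ[𝓝 y] fun _ => 0 from hy).fderiv_eq]
    simp

lemma smooth_inv_norm (y : Eu m) (hy : y ≠ 0) : ContDiffAt ℝ ∞ (fun y : Eu m => ‖y‖⁻¹) y :=
  (contDiffAt_norm ℝ hy).inv (norm_ne_zero_iff.2 hy)

lemma smooth_coord (i : Fin (m + 1)) : ContDiff ℝ ∞ (fun y : Eu m => y i) :=
  (EuclideanSpace.proj i : Eu m →L[ℝ] ℝ).contDiff

lemma Adm.inv {a : Eu m → ℝ} (ha : Adm a) : Adm (fun y => a y * ‖y‖⁻¹) := ha.mul smooth_inv_norm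

lemma Adm.coord {a : Eu m → ℝ} (ha : Adm a) (i : Fin (m + 1)) : Adm (fun y => a y * y i) :=
  ha.mul fun _ _ => (smooth_coord i).contDiffAt

lemma Adm.integrable {a : Eu m → ℝ} (ha : Adm a) {u : Sph m → V} (hu : Integrable u (sphMeasure m)) :
    Integrable (fun y => a y • u (nz y)) :=
  ((coef_bound ha.smooth.continuous ha.supp).choose_spec.2 u hu).1

lemma radial_zero {ψ : Eu m → ℝ} (hψ : Adm ψ) (x : Sph m) :
    ∫ r : Ioi (0 : ℝ), (fderiv ℝ ψ ((r : ℝ) • (x : Eu m)) x + m * (r : ℝ)⁻¹ * ψ ((r : ℝ) • (x : Eu m)))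
      ∂Measure.volumeIoiPow m = 0 := by
  have hc : ContDiff ℝ 1 fun r : ℝ => r ^ m * ψ (r • (x : Eu m)) :=
    (contDiff_id.pow m).mul ((hψ.smooth.of_le (by simp)).comp (contDiff_id.smul contDiff_const))
  have hs : HasCompactSupport fun r : ℝ => r ^ m * ψ (r • (x : Eu m)) :=
    (hψ.supp.comp_isClosedEmbedding (isClosedEmbedding_smul_left
      (ne_of_mem_sphere x.2 one_ne_zero))).mul_left
  have h1 := hs.integral_Ioi_deriv_eq hc 0
  rw [zero_smul, hψ.zero.self_of_nhds, mul_zero, neg_zero] at h1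
  simp only [Measure.volumeIoiPow, ENNReal.ofReal]
  rw [integral_withDensity_eq_integral_smul (measurable_subtype_coe.pow_const _).real_toNNReal,
    integral_subtype_comap measurableSet_Ioi fun r : ℝ => Real.toNNReal (r ^ m) •
      (fderiv ℝ ψ (r • (x : Eu m)) x + m * r⁻¹ * ψ (r • (x : Eu m)))]
  refine Eq.trans (setIntegral_congr_fun measurableSet_Ioi fun r hr => ?_) h1
  have hr0 : 0 < r := hr
  have h2 : HasDerivAt (fun r : ℝ => ψ (r • (x : Eu m))) (fderiv ℝ ψ (r • (x : Eu m)) x) r := by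
    have := (hψ.smooth.differentiable (by simp) (r • (x : Eu m))).hasFDerivAt.comp_hasDerivAt r
      ((hasDerivAt_id r).smul_const (x : Eu m))
    rw [one_smul] at this
    exact this
  rw [((hasDerivAt_pow m r).fun_mul h2).deriv, NNReal.smul_def, Real.coe_toNNReal _ (pow_nonneg hr0.le _),
    smul_eq_mul]
  rcases m with _ | m
  · simp
  · rw [Nat.add_sub_cancel, pow_succ]; field_simp; ring

lemma weak_ext [CompleteSpace V] {i : Fin (m + 1)} {u g : Sph m → V}
    (hu : Integrable u (sphMeasure m)) (hg : Integrable g (sphMeasure m)) (h : HasWeakDeriv i u g)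
    {ψ : Eu m → ℝ} (hψ : Adm ψ) :
    ∫ y, fderiv ℝ ψ y (EuclideanSpace.single i 1) • u (nz y)
      = - ∫ y, (ψ y * ‖y‖⁻¹) • g (nz y) := by
  have a1 := hψ.deriv (v := fun _ => EuclideanSpace.single i 1) contDiff_const
  have a2 := ((hψ.deriv contDiff_id).coord i).inv.inv
  have a3 := ((hψ.coord i).inv.inv).mul fun _ _ => contDiffAt_const (c := (m : ℝ))
  have i1 := a1.integrable hu
  have i2 := (a2.integrable hu).fun_add (a3.integrable hu)
  have i3 := hψ.inv.integrable hg
  rw [eq_neg_iff_add_eq_zero, ← integral_add i1 i3]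
  have e1 : ∫ y, (fderiv ℝ ψ y (id y) * y i * ‖y‖⁻¹ * ‖y‖⁻¹) • u (nz y)
      + (ψ y * y i * ‖y‖⁻¹ * ‖y‖⁻¹ * m) • u (nz y) = 0 := by
    rw [integral_polar, integral_prod _ ((integrable_polar _).1 i2)]
    refine integral_eq_zero_of_ae (Eventually.of_forall fun x => ?_)
    have h1 : ∀ r : Ioi (0 : ℝ), (fderiv ℝ ψ ((r : ℝ) • (x : Eu m)) (id ((r : ℝ) • (x : Eu m)))
        * ((r : ℝ) • (x : Eu m)) i * ‖(r : ℝ) • (x : Eu m)‖⁻¹ * ‖(r : ℝ) • (x : Eu m)‖⁻¹)
          • u (nz ((r : ℝ) • (x : Eu m))) + (ψ ((r : ℝ) • (x : Eu m)) * ((r : ℝ) • (x : Eu m)) i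
          * ‖(r : ℝ) • (x : Eu m)‖⁻¹ * ‖(r : ℝ) • (x : Eu m)‖⁻¹ * m) • u (nz ((r : ℝ) • (x : Eu m)))
        = (fderiv ℝ ψ ((r : ℝ) • (x : Eu m)) x + m * (r : ℝ)⁻¹ * ψ ((r : ℝ) • (x : Eu m)))
          • (x.1 i • u x) := by
      intro r
      have hr : (r : ℝ) ≠ 0 := r.2.out.ne'
      rw [nz_polar (x, r), norm_polar (x, r), ← add_smul, smul_smul]
      congr 1
      simp only [id, map_smul, smul_eq_mul, PiLp.smul_apply]
      field_simp
    simp only [h1]
    rw [integral_smul_const, radial_zero hψ, zero_smul]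
    rfl
  rw [← sub_zero (∫ y, _), ← e1, ← integral_sub (i1.fun_add i3) i2, e1, integral_polar,
    integral_prod_symm _ ((integrable_polar _).1 ((i1.fun_add i3).sub' i2))]
  refine integral_eq_zero_of_ae (Eventually.of_forall fun r => ?_)
  have hr : (r : ℝ) ≠ 0 := r.2.out.ne'
  have hφ : ContDiff ℝ ∞ fun y : Eu m => ψ ((r : ℝ) • y) := hψ.smooth.comp (contDiff_const_smul _)
  have h1 := h _ hφ
  simp only [sphInt, divField, (hφ.differentiable (by simp) _).lineDeriv_eq_fderiv] at h1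
  have h2 : ∀ y v : Eu m, fderiv ℝ (fun y : Eu m => ψ ((r : ℝ) • y)) y v
      = r * fderiv ℝ ψ ((r : ℝ) • y) v := by
    intro y v
    have := ((hψ.smooth.differentiable (by simp) ((r : ℝ) • y)).hasFDerivAt.comp y
      ((hasFDerivAt_id y).const_smul (r : ℝ))).fderiv
    rw [show (fun y : Eu m => ψ ((r : ℝ) • y)) = ψ ∘ HSMul.hSMul (r : ℝ) from rfl, this]
    simp
  have j1 : Integrable (fun x : Sph m => (fderiv ℝ (fun y : Eu m => ψ ((r : ℝ) • y)) x.1
      (EuclideanSpace.single i 1 - x.1 i • x.1) - m * x.1 i * ψ ((r : ℝ) • x.1)) • u x)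
      (sphMeasure m) := by
    have := hφ.continuous_fderiv (by simp)
    have := hψ.smooth.continuous
    obtain ⟨C, hC⟩ := (isCompact_univ (X := Sph m)).exists_bound_of_continuousOn
      (f := fun x : Sph m => fderiv ℝ (fun y : Eu m => ψ ((r : ℝ) • y)) x.1
        (EuclideanSpace.single i 1 - x.1 i • x.1) - m * x.1 i * ψ ((r : ℝ) • x.1)) (by fun_prop)
    exact hu.bdd_smul C (Continuous.aestronglyMeasurable (by fun_prop))
      (Eventually.of_forall fun x => hC x (mem_univ _))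
  have j2 : Integrable (fun x : Sph m => ψ ((r : ℝ) • x.1) • g x) (sphMeasure m) := by
    have := hψ.smooth.continuous
    obtain ⟨C, hC⟩ := (isCompact_univ (X := Sph m)).exists_bound_of_continuousOn
      (f := fun x : Sph m => ψ ((r : ℝ) • x.1)) (by fun_prop)
    exact hg.bdd_smul C (Continuous.aestronglyMeasurable (by fun_prop))
      (Eventually.of_forall fun x => hC x (mem_univ _))
  rw [eq_neg_iff_add_eq_zero, ← integral_add j1 j2] at h1
  have h3 := congrArg (fun v => (r : ℝ)⁻¹ • v) h1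
  simp only [smul_zero, ← integral_smul] at h3
  refine Eq.trans (integral_congr_ae (Eventually.of_forall fun x => ?_)) h3
  dsimp only
  rw [nz_polar (x, r), norm_polar (x, r), h2]
  simp only [id, map_smul, map_sub, smul_eq_mul, PiLp.smul_apply, smul_add, smul_smul]
  match_scalars <;> field_simp
  ring

end Pool.Agent.Lib.MP_f35bed_an
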