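import Pool.Agent.Lib.MP_f35bed_an.Reach

/-!
An almost Lipschitz map into a compact embedded manifold is homotopic to a Lipschitz map.
-/

open Filter Topology Metric Set
open scoped Manifold ContDiff RealInnerProductSpace

namespace Pool.Agent.Lib.MP_f35bed_an

universe u

lemma local_normal {A V : Type} [NormedAddCommGroup A] [NormedSpace ℝ A] [FiniteDimensional ℝ A]
    [NormedAddCommGroup V] [InnerProductSpace ℝ V] {ψ : A → V} {u0 : A}
    (hψ : ContDiffAt ℝ 2 ψ u0) (hinj : Function.Injective (fderiv ℝ ψ u0)) :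
    ∃ κ > 0, ∃ ρ > 0, ∀ u ∈ ball u0 ρ, ∀ v ∈ ball u0 ρ, ∀ y,
      IsLocalMin (fun w => ‖y - ψ w‖ ^ 2) u →
        ⟪y - ψ u, ψ v - ψ u⟫ ≤ κ * (‖y - ψ u‖ * ‖ψ v - ψ u‖ ^ 2) := by
  obtain ⟨K, t, ht, hK⟩ := (hψ.fderiv_right (m := 1) le_rfl).exists_lipschitzOnWith
  obtain ⟨c, hc0, hc⟩ := LinearMap.exists_antilipschitzWith (fderiv ℝ ψ u0).toLinearMap
    (LinearMap.ker_eq_bot.2 hinj)
  have hd : ∀ᶠ w in 𝓝 u0, DifferentiableAt ℝ ψ w :=
    (hψ.eventually (by simp)).mono fun w hw => hw.differentiableAt (by simp)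
  obtain ⟨ρ1, hρ1, h1⟩ := Metric.mem_nhds_iff.1 (inter_mem ht hd)
  have hc' : (0 : ℝ) < c := hc0
  have hK0 : (0 : ℝ) ≤ K := K.2
  refine ⟨4 * c ^ 2 * (K + 1), by positivity, min ρ1 (1 / (2 * c * (K + 1))),
    lt_min hρ1 (by positivity), fun u hu v hv y hmin => ?_⟩
  set B := ball u0 (min ρ1 (1 / (2 * c * (K + 1)))) with hB
  have hsub : B ⊆ ball u0 ρ1 := ball_subset_ball (min_le_left _ _)
  have hu0 : u0 ∈ B := mem_ball_self (lt_min hρ1 (by positivity))
  have h2 := (convex_ball u0 _).norm_image_sub_le_of_norm_fderiv_le' (𝕜 := ℝ) (f := ψ)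
    (φ := fderiv ℝ ψ u0) (C := K * (1 / (2 * c * (K + 1)))) (fun w hw => (h1 (hsub hw)).2)
    (fun w hw => by
      have := hK.norm_sub_le (h1 (hsub hw)).1 (h1 (hsub hu0)).1
      refine this.trans (mul_le_mul_of_nonneg_left ?_ hK0)
      exact (mem_ball_iff_norm.1 hw).le.trans (min_le_right _ _)) hu hv
  have h3 := ((convex_ball u0 _).inter (convex_closedBall u ‖v - u‖)).norm_image_sub_le_of_norm_fderiv_le'
    (𝕜 := ℝ) (f := ψ) (φ := fderiv ℝ ψ u) (C := K * ‖v - u‖) (fun w hw => (h1 (hsub hw.1)).2)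
    (fun w hw => by
      have := hK.norm_sub_le (h1 (hsub hw.1)).1 (h1 (hsub hu)).1
      exact this.trans (mul_le_mul_of_nonneg_left (mem_closedBall_iff_norm.1 hw.2) hK0))
    ⟨hu, mem_closedBall_self (norm_nonneg _)⟩ ⟨hv, mem_closedBall_iff_norm.2 le_rfl⟩
  have h4 : ‖v - u‖ ≤ c * ‖fderiv ℝ ψ u0 (v - u)‖ := by
    simpa using hc.le_mul_norm (by simp) (v - u)
  have h5 : ‖v - u‖ ≤ 2 * c * ‖ψ v - ψ u‖ := by
    have h6 := norm_sub_norm_le (fderiv ℝ ψ u0 (v - u)) (ψ v - ψ u)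
    rw [norm_sub_rev (fderiv ℝ ψ u0 (v - u))] at h6
    have h7 : (c : ℝ) * (K * (1 / (2 * c * (K + 1)))) ≤ 1 / 2 := by
      rw [show (c : ℝ) * (K * (1 / (2 * c * (K + 1)))) = (K : ℝ) / (K + 1) / 2 by field_simp]
      exact div_le_div_of_nonneg_right ((div_le_one (by positivity)).2 (by linarith)) two_pos.le
    nlinarith [mul_le_mul_of_nonneg_left (h6.trans h2) hc'.le,
      mul_le_mul_of_nonneg_right h7 (norm_nonneg (v - u))]
  have h6 := hmin.hasFDerivAt_eq_zero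
    (((h1 (hsub hu)).2.hasFDerivAt.const_sub y).norm_sq)
  have h7 : ⟪y - ψ u, fderiv ℝ ψ u (v - u)⟫ = 0 := by
    have := congrArg (fun L : A →L[ℝ] ℝ => L (v - u)) h6
    simpa [-map_sub] using this
  have h9 := real_inner_le_norm (y - ψ u) (ψ v - ψ u - fderiv ℝ ψ u (v - u))
  rw [inner_sub_right, h7, sub_zero] at h9
  have h11 := pow_le_pow_left₀ (norm_nonneg _) h5 2
  have h12 : (K : ℝ) * ‖v - u‖ * ‖v - u‖ ≤ 4 * c ^ 2 * (K + 1) * ‖ψ v - ψ u‖ ^ 2 := by
    nlinarith [mul_le_mul_of_nonneg_left h11 hK0, sq_nonneg ((c : ℝ) * ‖ψ v - ψ u‖)]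
  exact h9.trans ((mul_le_mul_of_nonneg_left (h3.trans h12) (norm_nonneg _)).trans_eq (by ring))

lemma nearest_normal {n : ℕ} {V : Type} [NormedAddCommGroup V] [InnerProductSpace ℝ V] {N : Type u}
    [TopologicalSpace N] [ChartedSpace (EuclideanSpace ℝ (Fin n)) N] [CompactSpace N] {ι : N → V}
    (hι : ContMDiff (𝓡 n) 𝓘(ℝ, V) ∞ ι) (hinj : Function.Injective ι)
    (himm : ∀ p, Function.Injective (mfderiv (𝓡 n) 𝓘(ℝ, V) ι p)) :
    ∃ t > 0, ∀ p q y, (∀ r, ‖y - ι p‖ ≤ ‖y - ι r‖) →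
      t * ⟪y - ι p, ι q - ι p⟫ ≤ ‖y - ι p‖ * ‖ι q - ι p‖ ^ 2 := by
  have hc := hι.continuous
  have key := (isCompact_univ (X := N × N)).eventually_forall_of_forall_eventually (x₀ := (0 : ℝ))
    (P := fun t z => 0 < t → ∀ y, (∀ r, ‖y - ι z.1‖ ≤ ‖y - ι r‖) →
      t * ⟪y - ι z.1, ι z.2 - ι z.1⟫ ≤ ‖y - ι z.1‖ * ‖ι z.2 - ι z.1‖ ^ 2) (by
      rintro ⟨p, q⟩ -
      by_cases hpq : p = q
      · subst hpq
        have h1 := (contMDiffAt_iff.1 (hι p)).2
        have h2 := himm p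
        rw [((hι p).mdifferentiableAt (by simp)).mfderiv] at h2
        simp only [writtenInExtChartAt, extChartAt_self_eq, modelWithCornersSelf_coe, range_id,
          fderivWithin_univ, contDiffWithinAt_univ, Function.id_comp] at h1 h2
        obtain ⟨κ, hκ, ρ, hρ, h3⟩ := local_normal (h1.of_le (WithTop.coe_le_coe.2 le_top)) h2
        have h4 : ∀ᶠ r in 𝓝 p, r ∈ (extChartAt (𝓡 n) p).source ∧
            extChartAt (𝓡 n) p r ∈ ball (extChartAt (𝓡 n) p p) ρ :=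
          Eventually.and (extChartAt_source_mem_nhds p)
            ((continuousAt_extChartAt p).eventually (ball_mem_nhds _ hρ))
        have h5 : Tendsto (fun z : ℝ × N × N => z.2.1) (𝓝 (0, p, p)) (𝓝 p) :=
          continuous_snd.fst.continuousAt
        have h6 : Tendsto (fun z : ℝ × N × N => z.2.2) (𝓝 (0, p, p)) (𝓝 p) :=
          continuous_snd.snd.continuousAt
        have h7 : Tendsto (fun z : ℝ × N × N => z.1) (𝓝 (0, p, p)) (𝓝 0) :=
          continuous_fst.continuousAt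
        filter_upwards [h5.eventually h4, h6.eventually h4,
          h7.eventually (gt_mem_nhds (one_div_pos.2 hκ))] with z h8 h9 h10 h0 y h11
        have h12 := h3 _ h8.2 _ h9.2 y (Eventually.of_forall fun w => by
          simp only [Function.comp, (extChartAt (𝓡 n) p).left_inv h8.1]
          exact pow_le_pow_left₀ (norm_nonneg _) (h11 _) 2)
        simp only [Function.comp, (extChartAt (𝓡 n) p).left_inv h8.1,
          (extChartAt (𝓡 n) p).left_inv h9.1] at h12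
        rw [lt_div_iff₀ hκ] at h10
        refine (mul_le_mul_of_nonneg_left h12 h0.le).trans ?_
        rw [← mul_assoc]
        exact mul_le_of_le_one_left (by positivity) h10.le
      · have h1 : Continuous fun z : ℝ × N × N => ‖ι z.2.2 - ι z.2.1‖ - z.1 := by fun_prop
        have h2 : 0 < ‖ι q - ι p‖ - 0 := by
          simpa using sub_ne_zero.2 (hinj.ne (Ne.symm hpq))
        filter_upwards [(h1.tendsto (0, p, q)).eventually (lt_mem_nhds h2)] with z h3 h0 y _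
        refine (mul_le_mul_of_nonneg_left (real_inner_le_norm _ _) h0.le).trans ?_
        refine (mul_le_mul_of_nonneg_right (sub_pos.1 h3).le (by positivity)).trans_eq (by ring))
  obtain ⟨t, h1, h2⟩ := ((key.filter_mono (nhdsWithin_le_nhds (s := Ioi 0))).and
    self_mem_nhdsWithin).exists
  exact ⟨t, h2, fun p q => h1 (p, q) (mem_univ _) h2⟩

lemma almost_extend {X : Type} [PseudoMetricSpace X] (a : X → ℝ) {η L : ℝ} (hL : 0 ≤ L)
    (h : ∀ x y, a x - a y ≤ η + L * dist x y) :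
    ∃ G : X → ℝ, (∀ x, |G x - a x| ≤ η) ∧ ∀ x y, |G x - G y| ≤ L * dist x y := by
  have h1 : ∀ x y, a x - η ≤ a y + L * dist x y := fun x y => by linarith [h x y]
  have h2 : ∀ x y, ⨅ z, (a z + L * dist x z) ≤ a y + L * dist x y := fun x y =>
    ciInf_le ⟨a x - η, forall_mem_range.2 (h1 x)⟩ y
  have h3 : ∀ x y, (⨅ z, (a z + L * dist x z)) - L * dist x y ≤ ⨅ z, (a z + L * dist y z) :=
    fun x y => by
    have : Nonempty X := ⟨x⟩
    refine le_ciInf fun z => ?_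
    linarith [h2 x z, mul_le_mul_of_nonneg_left (dist_triangle x y z) hL]
  refine ⟨fun x => ⨅ z, (a z + L * dist x z), fun x => ?_, fun x y => ?_⟩
  · have : Nonempty X := ⟨x⟩
    have h4 := h2 x x
    have h5 := h1 x x
    rw [dist_self, mul_zero] at h4 h5
    exact abs_le.2 ⟨by linarith [le_ciInf (h1 x)], by linarith⟩
  · have h4 := h3 y x
    rw [dist_comm y x] at h4
    exact abs_le.2 ⟨by linarith, by linarith [h3 x y]⟩

lemma norm_le_coord {ν : ℕ} (v : EuclideanSpace ℝ (Fin ν)) {b : ℝ} (hb : 0 ≤ b)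
    (h : ∀ j, |v j| ≤ b) : ‖v‖ ≤ √ν * b := by
  rw [EuclideanSpace.norm_eq, ← Real.sqrt_sq hb, ← Real.sqrt_mul ν.cast_nonneg]
  refine Real.sqrt_le_sqrt ((Finset.sum_le_card_nsmul _ _ (b ^ 2) fun j _ =>
    pow_le_pow_left₀ (norm_nonneg _) (h j) 2).trans_eq (by simp))

theorem lip_of_almost {n ν : ℕ} {N : Type u} [TopologicalSpace N]
    [ChartedSpace (EuclideanSpace ℝ (Fin n)) N] [CompactSpace N] {ι : N → EuclideanSpace ℝ (Fin ν)}
    (hι : ContMDiff (𝓡 n) 𝓘(ℝ, EuclideanSpace ℝ (Fin ν)) ∞ ι) (hinj : Function.Injective ι)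
    (himm : ∀ p, Function.Injective (mfderiv (𝓡 n) 𝓘(ℝ, EuclideanSpace ℝ (Fin ν)) ι p)) :
    ∃ η : ℝ, 0 < η ∧ ∃ c : ℝ, 0 ≤ c ∧ ∀ (X : Type) [PseudoMetricSpace X] (f : C(X, N)) (L : ℝ),
      0 ≤ L → (∀ x y, ‖ι (f x) - ι (f y)‖ ≤ η + L * dist x y) →
      ∃ g : C(X, N), f.Homotopic g ∧ ∀ x y, ‖ι (g x) - ι (g y)‖ ≤ c * L * dist x y := by
  obtain ⟨t, ht, hn⟩ := nearest_normal hι hinj himm
  obtain ⟨ε, hε, hh⟩ := homotopic_of_close hι hinj himm
  have hc := hι.continuous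
  have s0 : 0 ≤ √(ν : ℝ) := Real.sqrt_nonneg _
  have m0 : 0 < min ε t := lt_min hε ht
  obtain ⟨η, η0, η1⟩ : ∃ η : ℝ, 0 < η ∧ √(ν : ℝ) * η ≤ min ε t / 4 :=
    ⟨min ε t / 4 / (√ν + 1), by positivity, by
      rw [← mul_div_assoc, div_le_iff₀ (by positivity)]
      nlinarith⟩
  refine ⟨η, η0, 2 * √ν, by positivity, fun X _ f L hL hf => ?_⟩
  choose G G1 G2 using fun j : Fin ν => almost_extend (fun x => ι (f x) j) hL fun x y =>
    (le_abs_self _).trans ((PiLp.norm_apply_le (ι (f x) - ι (f y)) j).trans (hf x y))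
  set Y : X → EuclideanSpace ℝ (Fin ν) := fun x => WithLp.toLp 2 fun j => G j x with hY
  have y1 : ∀ x, ‖Y x - ι (f x)‖ ≤ min ε t / 4 := fun x =>
    (norm_le_coord _ η0.le fun j => G1 j x).trans η1
  have y2 : ∀ x y, ‖Y x - Y y‖ ≤ √ν * (L * dist x y) := fun x y =>
    norm_le_coord _ (by positivity) fun j => G2 j x y
  have h1 : ∀ x, ∃ p, ∀ r, ‖Y x - ι p‖ ≤ ‖Y x - ι r‖ := fun x => by
    obtain ⟨p, -, hp⟩ := isCompact_univ.exists_isMinOn ⟨f x, mem_univ _⟩
      (f := fun p => ‖Y x - ι p‖) (by fun_prop)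
    exact ⟨p, fun r => hp (mem_univ r)⟩
  choose g hg using h1
  have g1 : ∀ x, ‖Y x - ι (g x)‖ ≤ min ε t / 4 := fun x => (hg x (f x)).trans (y1 x)
  have g2 : ∀ x y, ‖ι (g x) - ι (g y)‖ ≤ 2 * √ν * L * dist x y := fun x y => by
    have a1 := hn (g x) (g y) (Y x) (hg x)
    have a2 := hn (g y) (g x) (Y y) (hg y)
    have a3 := real_inner_le_norm (Y x - Y y) (ι (g x) - ι (g y))
    have a4 : ‖ι (g x) - ι (g y)‖ ^ 2 = ⟪Y x - ι (g x), ι (g y) - ι (g x)⟫ +
        ⟪Y y - ι (g y), ι (g x) - ι (g y)⟫ + ⟪Y x - Y y, ι (g x) - ι (g y)⟫ := by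
      rw [← real_inner_self_eq_norm_sq, ← neg_sub (ι (g x)) (ι (g y)), inner_neg_right,
        ← inner_neg_left, ← inner_add_left, ← inner_add_left]
      congr 1
      abel
    rw [norm_sub_rev (ι (g y))] at a1
    have a5 := y2 x y
    have a6 : 0 ≤ √(ν : ℝ) * (L * dist x y) := by positivity
    have b1 := (g1 x).trans (div_le_div_of_nonneg_right (min_le_right ε t) (by norm_num))
    have b2 := (g1 y).trans (div_le_div_of_nonneg_right (min_le_right ε t) (by norm_num))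
    have d0 := norm_nonneg (ι (g x) - ι (g y))
    generalize ‖ι (g x) - ι (g y)‖ = d at *
    have c1 := mul_le_mul_of_nonneg_right b1 (sq_nonneg d)
    have c2 := mul_le_mul_of_nonneg_right b2 (sq_nonneg d)
    have c3 := mul_le_mul_of_nonneg_left (a3.trans (mul_le_mul_of_nonneg_right a5 d0)) ht.le
    have c4 : t * d ^ 2 ≤ t * (2 * (√ν * (L * dist x y)) * d) := by
      have := congrArg (t * ·) a4
      simp only [mul_add] at this
      linarith
    have c5 := le_of_mul_le_mul_left c4 ht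
    rcases d0.eq_or_lt with e | e
    · rw [← e]
      positivity
    · rw [sq] at c5
      exact (le_of_mul_le_mul_right c5 e).trans_eq (by ring)
  have g3 : Continuous g := (hc.isClosedEmbedding hinj).isInducing.continuous_iff.2
    (LipschitzWith.of_dist_le' (K := 2 * √ν * L) fun x y => by
      rw [dist_eq_norm]
      exact g2 x y).continuous
  refine ⟨⟨g, g3⟩, hh X f _ fun x => ?_, g2⟩
  have a1 := norm_sub_le_norm_sub_add_norm_sub (ι (f x)) (Y x) (ι (g x))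
  rw [norm_sub_rev _ (Y x)] at a1
  show ‖ι (f x) - ι (g x)‖ < ε
  linarith [y1 x, g1 x, min_le_left ε t]

end Pool.Agent.Lib.MP_f35bed_an
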