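import Pool.Agent.Lib.MP_f35bed_an.Count
import Pool.Agent.Lib.MP_f35bed_an.ProjLip

/-!
Continuous maps from the sphere of dimension `m` to a compact manifold whose weak derivative of
order `m` has integral at most `lam`, up to an allowance for terms of lower order, are homotopic to
members of a finite set of Lipschitz maps, with a bound on the size of the set and on the Lipschitz
constant.
-/

open scoped Manifold ContDiff

namespace Pool.Agent.Lib.MP_f35bed_an

universe u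

theorem lip_reps {n ν m : ℕ} (hm : 1 ≤ m) {N : Type u} [TopologicalSpace N]
    [ChartedSpace (EuclideanSpace ℝ (Fin n)) N] [IsManifold (𝓡 n) ∞ N] [CompactSpace N]
    (ι : N → EuclideanSpace ℝ (Fin ν)) (hι : IsInjImmersion (EuclideanSpace ℝ (Fin n)) ι) (L : ℝ) :
    ∃ C : ℝ, ∀ lam : ℝ, 0 ≤ lam → ∃ S : Finset C(Sph m, N),
      (S.card : ℝ) ≤ Real.exp (C * (1 + lam) * Real.log (2 + lam) ^ (2 * m + 1)) ∧
      (∀ g ∈ S, ∀ x y, ‖ι (g x) - ι (g y)‖ ≤ C * (1 + lam) * dist x y) ∧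
      ∀ f : C(Sph m, N), EnergyLeLower (fun x => ι (f x)) lam L → ∃ g ∈ S, f.Homotopic g := by
  obtain ⟨ε, hε, h1⟩ := homotopic_of_close hι.1 hι.2.1 hι.2.2
  obtain ⟨η1, hη1, c, hc, h2⟩ := lip_of_almost hι.1 hι.2.1 hι.2.2
  have hι0 := hι.1.continuous
  obtain ⟨M, hM⟩ := isCompact_univ.exists_bound_of_continuousOn hι0.continuousOn
  have hM' : ∀ p, ‖ι p‖ ≤ |M| := fun p => (hM p (Set.mem_univ p)).trans (le_abs_self M)
  have hM0 := abs_nonneg M
  obtain ⟨b, hb, h3⟩ := linear_model (V := EuclideanSpace ℝ (Fin ν)) hm L |M|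
  obtain ⟨η, hη, h4, h5⟩ : ∃ η : ℝ, 0 < η ∧ η ≤ ε / 4 / (3 * m + 5) ∧ η ≤ η1 / (4 * (m + 1)) :=
    ⟨_, lt_min (by positivity) (by positivity), min_le_left _ _, min_le_right _ _⟩
  rw [le_div_iff₀' (by positivity)] at h4 h5
  obtain ⟨C1, h6⟩ := thetas (m := m) (ν := ν) hη hb
  obtain ⟨C2, hC2⟩ : ∃ C2 : ℝ,
      C2 = c * ((2 * ((m + 1) * (1 + (m + 1) * b)) + |M|) * (2 * (m + 1))) := ⟨_, rfl⟩
  refine ⟨max C1 C2, fun lam hl => ?_⟩
  obtain ⟨Θ, h7, h8⟩ := h6 lam hl
  obtain ⟨S, s1, s2, s3⟩ := choose_reps (ι := ι) (ε := ε / 2)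
    (fun f g h => h1 _ f g fun x => by linarith [h x]) Θ
    (fun g : C(Sph m, N) => ∀ x y, ‖ι (g x) - ι (g y)‖ ≤ max C1 C2 * (1 + lam) * dist x y)
    (fun f => EnergyLeLower (fun x => ι (f x)) lam L) fun f hf => by
      obtain ⟨w, hw⟩ := h3 lam hl _ (hι0.comp f.continuous) (fun x => hM' _) hf η hη
      obtain ⟨p, hp⟩ := hw.straight (by positivity) hη
      obtain ⟨W, hW, h9⟩ := warp hp.1
      obtain ⟨θ, hθ, h10⟩ := h8 _ w p hw hp
      refine ⟨f.comp W, (ContinuousMap.Homotopic.refl f).comp hW, ⟨θ, hθ, fun x => ?_⟩, ?_⟩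
      · rw [ContinuousMap.comp_apply, h9]
        exact (h10 x).trans_lt (by linarith)
      obtain ⟨g, hg, h11⟩ := h2 _ (f.comp W)
        ((2 * ((m + 1) * (1 + (m + 1) * (b * (1 + lam)))) + |M|) * (2 * (m + 1))) (by positivity)
        fun x y => by
          rw [ContinuousMap.comp_apply, ContinuousMap.comp_apply, h9, h9]
          refine (global_est (G := fun z => ι (f (nz (WithLp.toLp 2 fun j => p j (z j)))))
            (A := (m + 1) * (2 * η)) (L := (m + 1) * (1 + (m + 1) * (b * (1 + lam))))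
            (by positivity) (by positivity) (fun _ => hM' _)
            (fun δ hδ a z z' a1 a2 a3 a4 a5 => (hp.2.2 δ hδ a z z' a1 a2 a3 a4 a5).trans_eq
              (by ring)) x y).trans ?_
          linarith
      refine ⟨g, fun x y => (h11 x y).trans (mul_le_mul_of_nonneg_right (le_trans ?_
        (mul_le_mul_of_nonneg_right (le_max_right _ _) (by positivity))) dist_nonneg), hg⟩
      rw [hC2, mul_assoc c, mul_right_comm _ _ (1 + lam)]
      gcongr
      nlinarith [mul_nonneg hl hM0, mul_nonneg hl (Nat.cast_nonneg (α := ℝ) m)]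
  refine ⟨S, (Nat.cast_le.2 s1).trans (h7.trans (Real.exp_le_exp.2 ?_)), s2, s3⟩
  have := Real.log_nonneg (show 1 ≤ 2 + lam by linarith)
  gcongr
  exact le_max_left _ _

end Pool.Agent.Lib.MP_f35bed_an
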