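import Pool.Agent.Lib.MP_f35bed_an.Good

/-!
Control of the oscillation along coordinate lines by mixed derivatives, and reparametrisation.
-/

open MeasureTheory Filter Topology Metric Set WithLp Function
open scoped ContDiff ENNReal

namespace Pool.Agent.Lib.MP_f35bed_an

variable {m : ℕ} {V : Type} [NormedAddCommGroup V] [NormedSpace ℝ V]

lemma Dl_smooth (l : List (Fin (m + 1))) {w : Eu m → V} (hw : ContDiff ℝ ∞ w) :
    ContDiff ℝ ∞ (Dl l w) := by
  induction l generalizing w with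
  | nil => exact hw
  | cons i l ih => exact ih (pd_smooth i hw)

lemma meas_Dl (l : List (Fin (m + 1))) {w : Eu m → V} (hw : ContDiff ℝ ∞ w) :
    Measurable fun z : Fin (m + 1) → ℝ => ‖Dl l w (toLp 2 z)‖ₑ :=
  ((Dl_smooth l hw).continuous.comp (PiLp.continuous_toLp 2 _)).enorm.measurable

lemma toLp_update (y : Fin (m + 1) → ℝ) (i : Fin (m + 1)) (u : ℝ) :
    (toLp 2 (update y i u) : Eu m) = toLp 2 (update y i 0) + u • EuclideanSpace.single i 1 := by
  ext j
  by_cases h : j = i
  · subst h; simp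
  · simp [h]

lemma line_facts (y : Fin (m + 1) → ℝ) (i : Fin (m + 1)) {w : Eu m → V} (hw : ContDiff ℝ ∞ w) :
    ContDiff ℝ 1 (fun u => w (toLp 2 (update y i u))) ∧
      ∀ u, deriv (fun u => w (toLp 2 (update y i u))) u = pd i w (toLp 2 (update y i u)) := by
  have h : (fun u => w (toLp 2 (update y i u)))
      = fun u : ℝ => w (toLp 2 (update y i 0) + u • EuclideanSpace.single i 1) :=
    funext fun u => by rw [toLp_update]
  rw [h]
  refine ⟨(hw.of_le (by simp)).comp (contDiff_const.add (contDiff_id.smul contDiff_const)),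
    fun u => ?_⟩
  rw [toLp_update y i u]
  exact (hasDerivAt_line i hw _ u).deriv

lemma pt_le (l : List (Fin (m + 1))) (hl : l.Nodup) {w : Eu m → V} (hw : ContDiff ℝ ∞ w)
    (hs : HasCompactSupport w) (y : Fin (m + 1) → ℝ) :
    ‖w (toLp 2 y)‖ₑ ≤ lmarginal (fun _ => volume) l.toFinset (fun z => ‖Dl l w (toLp 2 z)‖ₑ) y := by
  induction l generalizing w y with
  | nil => simp [Dl]
  | cons i l ih =>
    obtain ⟨h1, h2⟩ := List.nodup_cons.1 hl
    rw [List.toFinset_cons, lmarginal_insert _ (meas_Dl _ hw) (by simpa using h1)]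
    have h3 := ((hs.comp_homeomorph (PiLp.homeomorph 2 _).symm).comp_isClosedEmbedding
      (isClosedEmbedding_update y i)).enorm_le_lintegral_Ici_deriv (line_facts y i hw).1 (y i)
    refine le_trans (le_of_eq (by simp)) (h3.trans ((setLIntegral_le_lintegral _ _).trans
      (lintegral_mono fun u => ?_)))
    exact le_trans (le_of_eq (congrArg enorm ((line_facts y i hw).2 u)))
      (ih h2 (pd_smooth i hw) (pd_supp i hs) _)

lemma slab {w : Eu m → V} (hw : ContDiff ℝ ∞ w) (hs : HasCompactSupport w) {B : ℝ} (hB0 : 0 ≤ B)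
    (hB : ∀ l : List (Fin (m + 1)), l.length = m → ∫⁻ y, ‖Dl l w y‖ₑ ≤ ENNReal.ofReal B)
    (a i : Fin (m + 1)) (c : ℝ) :
    ∃ ρ ∈ Icc c (c + 1), ∃ μ : ℝ → ℝ, Continuous μ ∧ Monotone μ ∧ (∀ s t, μ t - μ s ≤ B) ∧
      (a ≠ i → ∀ y : Fin (m + 1) → ℝ, y a = ρ → ∀ s t, s ≤ t →
        ‖w (toLp 2 (update y i t)) - w (toLp 2 (update y i s))‖ ≤ μ t - μ s) := by
  by_cases hai : a = i
  · exact ⟨c, left_mem_Icc.2 (by linarith), fun _ => 0, continuous_const, monotone_const,
      fun _ _ => by simpa using hB0, fun h => absurd hai h⟩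
  set S := (Finset.univ.erase a).erase i with hS
  have hi : i ∈ Finset.univ.erase a := by simp [Ne.symm hai]
  set g : (Fin (m + 1) → ℝ) → ℝ≥0∞ := fun z => ‖Dl (i :: S.toList) w (toLp 2 z)‖ₑ with hg
  have hgm : Measurable g := meas_Dl _ hw
  have h1 : ∫⁻ ρ, lmarginal (fun _ => volume) (Finset.univ.erase a) g (update 0 a ρ)
      ≤ ENNReal.ofReal B := by
    rw [← lmarginal_erase (μ := fun _ => volume) _ hgm (Finset.mem_univ a) 0,
      ← lintegral_eq_lmarginal_univ]
    refine le_trans (le_of_eq ?_) (hB (i :: S.toList) ?_)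
    · exact (PiLp.volume_preserving_toLp _).lintegral_comp
        (Dl_smooth _ hw).continuous.enorm.measurable
    · have := Finset.card_pos.2 ⟨i, hi⟩
      rw [List.length_cons, Finset.length_toList, hS, Finset.card_erase_of_mem hi]
      rw [Finset.card_erase_of_mem (Finset.mem_univ a)] at this ⊢
      simp at this ⊢
      omega
  obtain ⟨ρ, hρ, h2⟩ := exists_le_setLAverage (μ := volume) (s := Icc c (c + 1))
    (f := fun ρ => lmarginal (fun _ => volume) (Finset.univ.erase a) g (update 0 a ρ))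
    (by simp) (by simp) ((hgm.lmarginal _).comp (measurable_update _)).aemeasurable
  rw [setLAverage_eq, lmarginal_erase _ hgm hi] at h2
  simp only [Real.volume_Icc, add_sub_cancel_left, ENNReal.ofReal_one, div_one] at h2
  replace h2 := (h2.trans (setLIntegral_le_lintegral _ _)).trans h1
  set γ : ℝ → ℝ≥0∞ := fun u => lmarginal (fun _ => volume) S g (update (update 0 a ρ) i u) with hγ
  have hγm : Measurable γ := (hgm.lmarginal _).comp (measurable_update _)
  have hfin : ∫⁻ u, γ u ≠ ⊤ := ne_top_of_le_ne_top ENNReal.ofReal_ne_top h2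
  have hint := integrable_toReal_of_lintegral_ne_top hγm.aemeasurable hfin
  have h3 : ∀ s t, s ≤ t → (∫ u in (0 : ℝ)..t, (γ u).toReal) - ∫ u in (0 : ℝ)..s, (γ u).toReal
      = (∫⁻ u in Icc s t, γ u).toReal := by
    intro s t hst
    rw [intervalIntegral.integral_interval_sub_left hint.intervalIntegrable hint.intervalIntegrable,
      intervalIntegral.integral_of_le hst, ← integral_Icc_eq_integral_Ioc,
      integral_toReal hγm.aemeasurable (ae_restrict_of_ae (ae_lt_top hγm hfin))]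
  have h4 : Monotone fun t => ∫ u in (0 : ℝ)..t, (γ u).toReal := fun s t hst => by
    rw [← sub_nonneg, h3 s t hst]; exact ENNReal.toReal_nonneg
  refine ⟨ρ, hρ, _, intervalIntegral.continuous_primitive (fun _ _ => hint.intervalIntegrable) 0, h4,
    fun s t => ?_, fun _ y hy s t hst => ?_⟩
  · rcases le_total s t with hst | hst
    · rw [h3 s t hst]
      exact ENNReal.toReal_le_of_le_ofReal hB0 ((setLIntegral_le_lintegral _ _).trans h2)
    · linarith [h4 hst]
  · rw [h3 s t hst, ← toReal_enorm]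
    refine ENNReal.toReal_mono (ne_top_of_le_ne_top hfin (setLIntegral_le_lintegral _ _)) ?_
    refine (enorm_sub_le_lintegral_deriv_of_contDiffOn_Icc (line_facts y i hw).1.contDiffOn
      hst).trans (lintegral_mono fun u => ?_)
    rw [(line_facts y i hw).2 u]
    refine (pt_le S.toList S.nodup_toList (pd_smooth i hw) (pd_supp i hs) _).trans (le_of_eq ?_)
    rw [Finset.toList_toFinset]
    refine lmarginal_congr _ _ fun j hj => ?_
    by_cases h5 : j = i
    · subst h5; simp
    · have h6 : j = a := by simpa [hS, h5] using hj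
      subst h6
      simp [h5, hy]

lemma reparam {μ : ℝ → ℝ} (hc : Continuous μ) (hm : Monotone μ) {L : ℝ} (hL : ∀ s t, μ t - μ s ≤ L) :
    ∃ p : ℝ → ℝ, Continuous p ∧ Monotone p ∧ p 1 = 1 ∧ p (-1) = -1 ∧
      ∀ s t, s ≤ t → μ (p t) - μ (p s) ≤ (1 + L / 2) * (t - s) := by
  have h1 : StrictMono fun t => t + μ t := strictMono_id.add_monotone hm
  have h2 : Surjective fun t => t + μ t := (continuous_id.add hc).surjective
    (tendsto_atTop_add_right_of_le' _ (μ 0 - L) tendsto_id
      (Eventually.of_forall fun t => by linarith [hL t 0]))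
    (tendsto_atBot_add_right_of_ge' _ (μ 0 + L) tendsto_id
      (Eventually.of_forall fun t => by linarith [hL 0 t]))
  set k := h1.orderIsoOfSurjective _ h2 with hk
  have hk1 : ∀ t, k t = t + μ t := fun _ => rfl
  have h3 : 0 ≤ k 1 - k (-1) := sub_nonneg.2 (k.monotone (by norm_num))
  have h4 : Monotone fun s => k.symm (k (-1) + (s + 1) / 2 * (k 1 - k (-1))) := fun s t hst =>
    k.symm.monotone (by gcongr)
  refine ⟨fun s => k.symm (k (-1) + (s + 1) / 2 * (k 1 - k (-1))),
    k.symm.continuous.comp (by fun_prop), h4, by simp, by simp, fun s t hst => ?_⟩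
  have h5 := hk1 (k.symm (k (-1) + (s + 1) / 2 * (k 1 - k (-1))))
  have h6 := hk1 (k.symm (k (-1) + (t + 1) / 2 * (k 1 - k (-1))))
  rw [k.apply_symm_apply] at h5 h6
  have h7 := h4 hst
  have h8 : k 1 - k (-1) ≤ 2 + L := by rw [hk1, hk1]; linarith [hL (-1) 1]
  dsimp only at h7 ⊢
  nlinarith

/-- The closed cube. -/
def Cube (y : Fin (m + 1) → ℝ) : Prop := ∀ j, |y j| ≤ 1

lemma Cube.update {y : Fin (m + 1) → ℝ} (hy : Cube y) (i : Fin (m + 1)) {t : ℝ} (ht : |t| ≤ 1) :
    Cube (update y i t) := fun j => by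
  by_cases h : j = i
  · subst h; simpa using ht
  · simpa [h] using hy j

lemma Cube.norm_le {y : Fin (m + 1) → ℝ} (hy : Cube y) : ‖(toLp 2 y : Eu m)‖ ≤ m + 1 := by
  rw [EuclideanSpace.norm_eq, Real.sqrt_le_left (by positivity)]
  have h := Finset.sum_le_sum (s := Finset.univ) fun j _ =>
    pow_le_one₀ (n := 2) (abs_nonneg (y j)) (hy j)
  simp only [Finset.sum_const, Finset.card_univ, Fintype.card_fin, nsmul_eq_mul, mul_one] at h
  push_cast at h
  simp only [Real.norm_eq_abs]
  nlinarith [Nat.cast_nonneg (α := ℝ) m]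

lemma face {w F : Eu m → V} (hw : ContDiff ℝ ∞ w) (hs : HasCompactSupport w) {B η : ℝ}
    (hB0 : 0 ≤ B)
    (hB : ∀ l : List (Fin (m + 1)), l.length = m → ∫⁻ y, ‖Dl l w y‖ₑ ≤ ENNReal.ofReal B)
    (hF : ∀ r : ℝ, 0 < r → ∀ y, F (r • y) = F y)
    (hη : ∀ y, 1 ≤ ‖y‖ → ‖y‖ ≤ 2 * (m + 1) → ‖w y - F y‖ ≤ η) (i : Fin (m + 1)) :
    ∃ p : ℝ → ℝ, Continuous p ∧ Monotone p ∧ p 1 = 1 ∧ p (-1) = -1 ∧
      ∀ a, a ≠ i → ∀ y : Fin (m + 1) → ℝ, Cube y → |y a| = 1 → ∀ s t, s ≤ t → |p s| ≤ 1 →
        |p t| ≤ 1 → ‖F (toLp 2 (update y i (p t))) - F (toLp 2 (update y i (p s)))‖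
          ≤ 2 * η + (1 + (m + 1) * B) * (t - s) := by
  choose ρ hρ μ h1 h2 h3 h4 using fun (a : Fin (m + 1)) (c : ℝ) => slab hw hs hB0 hB a i c
  have hp : ∀ a, 0 < ρ a 1 := fun a => one_pos.trans_le (hρ a 1).1
  have hn : ∀ a, 0 < -ρ a (-2) := fun a => by linarith [(hρ a (-2)).2]
  have h5 : ∀ a c r, 0 < r → Monotone fun t => μ a c (r * t) := fun a c r hr s t hst =>
    h2 a c (mul_le_mul_of_nonneg_left hst hr.le)
  obtain ⟨p, p1, p2, p3, p4, p5⟩ := reparam
    (μ := fun t => ∑ a, (μ a 1 (ρ a 1 * t) + μ a (-2) (-ρ a (-2) * t))) (by fun_prop)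
    (fun s t hst => Finset.sum_le_sum fun a _ => add_le_add (h5 a _ _ (hp a) hst) (h5 a _ _ (hn a) hst))
    (L := (m + 1) * (2 * B)) (fun s t => by
      rw [← Finset.sum_sub_distrib]
      refine (Finset.sum_le_sum (g := fun _ => 2 * B) fun a _ => ?_).trans (by simp)
      linarith [h3 a 1 (ρ a 1 * s) (ρ a 1 * t), h3 a (-2) (-ρ a (-2) * s) (-ρ a (-2) * t)])
  refine ⟨p, p1, p2, p3, p4, fun a ha y hy hya s t hst hs1 ht1 => ?_⟩
  have key : ∀ c r, 1 ≤ r → r ≤ 2 → r * y a = ρ a c →
      ‖F (toLp 2 (update y i (p t))) - F (toLp 2 (update y i (p s)))‖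
        ≤ 2 * η + (μ a c (r * p t) - μ a c (r * p s)) := by
    intro c r hr1 hr2 hr
    have hr0 : 0 < r := by linarith
    have h6 := h4 a c ha (r • y) hr _ _ (mul_le_mul_of_nonneg_left (p2 hst) hr0.le)
    have h7 : ∀ u, |u| ≤ 1 →
        ‖w (toLp 2 (update (r • y) i (r * u))) - F (toLp 2 (update y i u))‖ ≤ η := by
      intro u hu
      have h8 : (toLp 2 (update (r • y) i (r * u)) : Eu m) = r • toLp 2 (update y i u) := by
        rw [← smul_eq_mul, update_smul, toLp_smul]
      have h9 := (hy.update i hu).norm_le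
      have h10 := PiLp.norm_apply_le (toLp 2 (update y i u) : Eu m) a
      simp only [update_of_ne ha, Real.norm_eq_abs, hya] at h10
      rw [h8, ← hF r hr0]
      refine hη _ ?_ ?_ <;> rw [norm_smul, Real.norm_of_nonneg hr0.le]
      · nlinarith
      · exact mul_le_mul hr2 h9 (norm_nonneg _) zero_le_two
    have h8 := norm_sub_le_norm_sub_add_norm_sub (F (toLp 2 (update y i (p t))))
      (w (toLp 2 (update (r • y) i (r * p t)))) (F (toLp 2 (update y i (p s))))
    have h9 := norm_sub_le_norm_sub_add_norm_sub (w (toLp 2 (update (r • y) i (r * p t))))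
      (w (toLp 2 (update (r • y) i (r * p s)))) (F (toLp 2 (update y i (p s))))
    rw [norm_sub_rev _ (w _)] at h8
    linarith [h7 _ hs1, h7 _ ht1]
  have h6 := p5 s t hst
  rw [← Finset.sum_sub_distrib] at h6
  have h7 := Finset.single_le_sum (f := fun a => μ a 1 (ρ a 1 * p t) + μ a (-2) (-ρ a (-2) * p t)
    - (μ a 1 (ρ a 1 * p s) + μ a (-2) (-ρ a (-2) * p s))) (fun a _ => sub_nonneg.2
      (add_le_add (h5 a _ _ (hp a) (p2 hst)) (h5 a _ _ (hn a) (p2 hst)))) (Finset.mem_univ a)
  have h8 := h5 a 1 _ (hp a) (p2 hst)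
  have h9 := h5 a (-2) _ (hn a) (p2 hst)
  dsimp only at h7 h8 h9
  rcases abs_eq zero_le_one |>.1 hya with h | h
  · have := key 1 (ρ a 1) (hρ a 1).1 (by linarith [(hρ a 1).2]) (by rw [h, mul_one])
    linarith
  · have := key (-2) (-ρ a (-2)) (by linarith [(hρ a (-2)).2]) (by linarith [(hρ a (-2)).1])
      (by rw [h]; ring)
    linarith

omit [NormedSpace ℝ V] in
lemma chain {G : (Fin (m + 1) → ℝ) → V} {δ : ℝ} (hδ : 0 ≤ δ) {a : Fin (m + 1)}
    {y y' : Fin (m + 1) → ℝ} (hy : Cube y) (hy' : Cube y') (ha : y' a = y a)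
    (h : ∀ i, a ≠ i → ∀ z, Cube z → z a = y a → z i = y i → ‖G (update z i (y' i)) - G z‖ ≤ δ) :
    ‖G y' - G y‖ ≤ (m + 1) * δ := by
  have key : ∀ s : Finset (Fin (m + 1)), ‖G (s.piecewise y' y) - G y‖ ≤ s.card * δ := by
    intro s
    induction s using Finset.induction_on with
    | empty => simp
    | insert i s hi ih =>
      rw [Finset.piecewise_insert, Finset.card_insert_of_notMem hi]
      have h1 : ‖G (update (s.piecewise y' y) i (y' i)) - G (s.piecewise y' y)‖ ≤ δ := by
        have h2 := s.piecewise_eq_of_notMem y' y hi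
        by_cases hai : a = i
        · rw [← hai, ha, hai, ← h2, update_eq_self]; simpa using hδ
        · refine h i hai _ (fun j => ?_) ?_ h2
          · unfold Finset.piecewise; split_ifs; exacts [hy' j, hy j]
          · unfold Finset.piecewise; split_ifs; exacts [ha, rfl]
      push_cast
      linarith [norm_sub_le_norm_sub_add_norm_sub (G (update (s.piecewise y' y) i (y' i)))
        (G (s.piecewise y' y)) (G y)]
  simpa using key Finset.univ

end Pool.Agent.Lib.MP_f35bed_an
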