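import Pool.Agent.Lib.MP_f35bed_an.Code
import Pool.Agent.Lib.MP_f35bed_an.Global

/-!
A small family of step functions approximating all straightened maps.
-/

open MeasureTheory Filter Topology Metric Set WithLp Function
open scoped ContDiff ENNReal

namespace Pool.Agent.Lib.MP_f35bed_an

variable {m : ℕ} {V : Type} [NormedAddCommGroup V] [NormedSpace ℝ V]

/-- `w` is a smooth model of the homogeneous extension of `u`. -/
def Model (u : Sph m → V) (w : Eu m → V) (B η : ℝ) : Prop :=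
  ContDiff ℝ ∞ w ∧ HasCompactSupport w ∧
    (∀ l : List (Fin (m + 1)), l.length = m → ∫⁻ y, ‖Dl l w y‖ₑ ≤ ENNReal.ofReal B) ∧
    ∀ y, 1 ≤ ‖y‖ → ‖y‖ ≤ 2 * (m + 1) → ‖w y - u (nz y)‖ ≤ η

/-- `p` straightens `u`. -/
def Straight (u : Sph m → V) (p : Fin (m + 1) → ℝ → ℝ) (B η : ℝ) : Prop :=
  (∀ j, Continuous (p j) ∧ p j 1 = 1 ∧ p j (-1) = -1) ∧ (∀ j, Monotone (p j)) ∧
    ∀ δ, 0 ≤ δ → ∀ a y y', Cube y → Cube y' → |y a| = 1 → y' a = y a → (∀ j, |y' j - y j| ≤ δ) →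
      ‖u (nz (toLp 2 fun j => p j (y' j))) - u (nz (toLp 2 fun j => p j (y j)))‖
        ≤ (m + 1) * (2 * η + (1 + (m + 1) * B) * δ)

lemma exists_model [CompleteSpace V] {χ : Eu m → ℝ} (hχ : Adm χ)
    (h1 : ∀ y, 1 ≤ ‖y‖ → ‖y‖ ≤ 2 * (m + 1) → χ y = 1) {u : Sph m → V} (hu : Continuous u)
    {B η : ℝ} (hη : 0 < η)
    (hB : ∀ ρ (l : List (Fin (m + 1))), l.length = m →
      ∫⁻ y, ‖Dl l (mol ρ fun y => χ y • u (nz y)) y‖ₑ ≤ ENNReal.ofReal B) :
    ∃ w, Model u w B η := by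
  have hc : Continuous fun y => χ y • u (nz y) := continuous_iff_continuousAt.2 fun y => by
    by_cases hy : y = 0
    · subst hy
      exact (continuousAt_const (y := (0 : V))).congr (hχ.zero.mono fun y hy => by simp [hy])
    · exact hχ.smooth.continuous.continuousAt.smul (hu.continuousAt.comp
        (continuousOn_nz.continuousAt (isOpen_compl_singleton.mem_nhds hy)))
  have hs : HasCompactSupport fun y => χ y • u (nz y) := hχ.supp.smul_right
  obtain ⟨r, hr, h2⟩ := Metric.uniformContinuous_iff.1 (hs.uniformContinuous_of_continuous hc) η hη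
  obtain ⟨ρ, hρ⟩ : ∃ ρ : ContDiffBump (0 : Eu m), ρ.rOut = r :=
    ⟨⟨r / 2, r, half_pos hr, half_lt_self hr⟩, rfl⟩
  refine ⟨_, mol_smooth ρ (hc.integrable_of_hasCompactSupport hs),
    ρ.hasCompactSupport_normed.convolution _ hs, hB ρ, fun y h3 h4 => ?_⟩
  have := ρ.dist_normed_convolution_le (μ := volume) (x₀ := y) hc.aestronglyMeasurable
    fun x hx => (h2 (hρ ▸ hx)).le
  rwa [h1 y h3 h4, one_smul, dist_eq_norm] at this

lemma Model.straight {u : Sph m → V} {w : Eu m → V} {B η : ℝ} (h : Model u w B η) (hB0 : 0 ≤ B)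
    (hη : 0 < η) : ∃ p, Straight u p B η := by
  choose p p1 p2 p3 p4 p5 using face (F := fun y => u (nz y)) (η := η) h.1 h.2.1 hB0 h.2.2.1
    (fun r hr y => by rw [nz_smul_pos hr]) h.2.2.2
  refine ⟨p, fun j => ⟨p1 j, p3 j, p4 j⟩, p2, fun δ hδ a y y' hy hy' ha ha' hd => ?_⟩
  have hL : 0 ≤ 1 + (m + 1) * B := by positivity
  refine chain (G := fun z => u (nz (toLp 2 fun j => p j (z j)))) (by positivity) hy hy' ha'
    fun i hi z hz hza hzi => ?_
  have h3 : ∀ s, (fun j => p j (update z i s j)) = update (fun j => p j (z j)) i (p i s) :=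
    fun s => funext fun j => apply_update p z i s j
  have h4 : Cube fun j => p j (z j) := fun j => abs_le_of_mono (p2 j) (p3 j) (p4 j) (hz j)
  have h5 : |p a (z a)| = 1 := by
    rcases (abs_eq zero_le_one).1 ha with h | h <;> simp [hza, h, p3, p4]
  have h6 := abs_le_of_mono (p2 i) (p3 i) (p4 i) (hy i)
  have h7 := abs_le_of_mono (p2 i) (p3 i) (p4 i) (hy' i)
  have h8 := h3 (y i)
  rw [← hzi, update_eq_self, hzi] at h8
  rw [h3, h8, update_idem]
  have h9 := abs_le.1 (hd i)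
  rcases le_total (y i) (y' i) with h | h
  · refine (p5 i a hi _ h4 h5 _ _ h h6 h7).trans ?_
    gcongr
    exact h9.2
  · rw [norm_sub_rev]
    refine (p5 i a hi _ h4 h5 _ _ h h7 h6).trans ?_
    gcongr
    linarith [h9.1]

lemma len_erase (a : Fin (m + 1)) : (Finset.univ.erase a).toList.length = m := by
  simp [Finset.card_erase_of_mem]

lemma level {w : Eu m → V} (hw : ContDiff ℝ ∞ w) {B : ℝ}
    (hB : ∀ l : List (Fin (m + 1)), l.length = m → ∫⁻ y, ‖Dl l w y‖ₑ ≤ ENNReal.ofReal B)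
    (a : Fin (m + 1)) (c : ℝ) : ∃ ρ ∈ Icc c (c + 1),
      Vv (Finset.univ.erase a).toList w (update 0 a ρ) ≤ ENNReal.ofReal B := by
  set g : (Fin (m + 1) → ℝ) → ℝ≥0∞ :=
    fun z => ‖Dl (Finset.univ.erase a).toList.reverse w (toLp 2 z)‖ₑ with hg
  have hgm : Measurable g := meas_Dl _ hw
  have h1 : ∫⁻ ρ, lmarginal (fun _ => volume) (Finset.univ.erase a) g (update 0 a ρ)
      ≤ ENNReal.ofReal B := by
    rw [← lmarginal_erase (μ := fun _ => volume) _ hgm (Finset.mem_univ a) 0,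
      ← lintegral_eq_lmarginal_univ]
    refine le_trans (le_of_eq ?_) (hB _ (List.length_reverse.trans (len_erase a)))
    exact (PiLp.volume_preserving_toLp _).lintegral_comp
      (Dl_smooth _ hw).continuous.enorm.measurable
  obtain ⟨ρ, hρ, h2⟩ := exists_le_setLAverage (μ := volume) (s := Icc c (c + 1))
    (f := fun ρ => lmarginal (fun _ => volume) (Finset.univ.erase a) g (update 0 a ρ))
    (by simp) (by simp) ((hgm.lmarginal _).comp (measurable_update _)).aemeasurable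
  rw [setLAverage_eq] at h2
  simp only [Real.volume_Icc, add_sub_cancel_left, ENNReal.ofReal_one, div_one] at h2
  refine ⟨ρ, hρ, ?_⟩
  rw [Vv, Finset.toList_toFinset]
  exact (h2.trans (setLIntegral_le_lintegral _ _)).trans h1

/-- The grid point of the cube with index `γ`. -/
noncomputable def gpt (K : ℕ) (γ : Fin (m + 1) → ℕ) : Fin (m + 1) → ℝ :=
  fun j => ((γ j : ℝ) - 1 - K) / K

lemma grid' (K : ℕ) (hK : 0 < K) : ∃ rd : Sph m → Fin (m + 1) → ℕ, ∀ x,
    (∀ j, rd x j ≠ 0 ∧ rd x j ≤ 2 * K + 1) ∧ Cube (gpt K (rd x)) ∧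
      (∀ a, |cb x a| = 1 → cb x a = gpt K (rd x) a) ∧ ∀ j, |cb x j - gpt K (rd x) j| ≤ 1 / K := by
  have hK' : (0 : ℝ) < K := by exact_mod_cast hK
  have h1 : ∀ (x : Sph m) j, ⌊K * cb x j⌋ ∈ Icc (-K : ℤ) K := fun x j => by
    have h := abs_le.1 (cube_cb x j)
    refine ⟨Int.le_floor.2 (by push_cast; nlinarith), ?_⟩
    have := Int.floor_le (K * cb x j)
    exact_mod_cast (by nlinarith : (⌊K * cb x j⌋ : ℝ) ≤ K)
  have h0 : ∀ (x : Sph m) j, gpt K (fun j => (⌊K * cb x j⌋ + K + 1).toNat) j = ⌊K * cb x j⌋ / K :=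
    fun x j => by
      have h2 : (((⌊K * cb x j⌋ + K + 1).toNat : ℤ) : ℝ) = ((⌊K * cb x j⌋ + K + 1 : ℤ) : ℝ) := by
        rw [Int.toNat_of_nonneg (by linarith [(h1 x j).1])]
      push_cast at h2
      simp only [gpt, h2]
      ring
  refine ⟨fun x j => (⌊K * cb x j⌋ + K + 1).toNat, fun x => ⟨fun j => ?_, fun j => ?_,
    fun a ha => ?_, fun j => ?_⟩⟩
  · obtain ⟨h2, h3⟩ := h1 x j
    dsimp only
    omega
  · rw [h0, abs_div, abs_of_pos hK', div_le_one hK']
    exact_mod_cast abs_le.2 (h1 x j)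
  · rw [h0]
    rcases (abs_eq zero_le_one).1 ha with h | h <;> simp [h, hK'.ne', Int.floor_neg]
  · have h2 := Int.floor_le (K * cb x j)
    have h3 := Int.lt_floor_add_one (K * cb x j)
    rw [h0, sub_div' hK'.ne', abs_div, abs_of_pos hK']
    exact div_le_div_of_nonneg_right (abs_le.2 ⟨by linarith, by linarith⟩) hK'.le

lemma face_code {A0 : Finset V} {α β : ℝ} (hα : 0 ≤ α)
    (h0 : ∀ v : V, ∃ q : Multiset V, (∀ σ ∈ q, σ ∈ A0) ∧ (Multiset.card q : ℝ) ≤ α * ‖v‖ ∧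
      ‖v - q.sum‖ ≤ β) (k : ℕ) {K : ℕ} (hK : 0 < K) {B : ℝ} (hB : 0 ≤ B) (a : Fin (m + 1)) :
    ∃ T : Finset ((Fin (m + 1) → ℕ) → V),
      T.card ≤ ((k * 2 ^ k) ^ m * A0.card + 1) ^ ⌊k ^ m * α * B⌋₊ ∧
      ∀ (u : Sph m → V) w p η, Model u w B η → Straight u p B η → ∀ c : ℝ, |c| = 1 → ∃ t ∈ T, ∀ γ,
        (∀ j, γ j ≠ 0 ∧ γ j < 2 ^ k) → Cube (gpt K γ) → gpt K γ a = c →
          ‖u (nz (toLp 2 fun j => p j (gpt K γ j))) - t γ‖ ≤ η + k ^ m * β := by
  obtain ⟨A, hA, h1⟩ := code hα h0 k _ (Finset.univ.erase a).nodup_toList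
  rw [len_erase] at hA h1
  obtain ⟨T, hT, h2⟩ := sums_card A ⌊k ^ m * α * B⌋₊
  refine ⟨T, hT.trans (Nat.pow_le_pow_left (by omega) _), fun u w p η hw hp c hc => ?_⟩
  obtain ⟨r, hr1, hr2, h3⟩ : ∃ r : ℝ, 1 ≤ r ∧ r ≤ 2 ∧
      Vv (Finset.univ.erase a).toList w (update 0 a (r * c)) ≤ ENNReal.ofReal B := by
    rcases (abs_eq zero_le_one).1 hc with h | h
    · obtain ⟨ρ, hρ, h3⟩ := level hw.1 hw.2.2.1 a 1
      exact ⟨ρ, hρ.1, by linarith [hρ.2], by simpa [h] using h3⟩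
    · obtain ⟨ρ, hρ, h3⟩ := level hw.1 hw.2.2.1 a (-2)
      exact ⟨-ρ, by linarith [hρ.2], by linarith [hρ.1], by simpa [h] using h3⟩
  have hr0 : 0 < r := by linarith
  have hK' : (0 : ℝ) < K := by exact_mod_cast hK
  obtain ⟨R, hR, h4⟩ := hw.2.1.isBounded.subset_ball_lt 2 0
  obtain ⟨q, q1, q2, q3⟩ := h1 (fun j n => if n = 0 then -R else r * p j (((n : ℝ) - 1 - K) / K))
    (fun j => monotone_nat_of_le_succ fun n => by
      rw [if_neg n.succ_ne_zero]
      split_ifs with h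
      · rw [h, show (((0 + 1 : ℕ) : ℝ) - 1 - K) / K = -1 by push_cast; field_simp; ring, (hp.1 j).2.2]
        linarith
      · refine mul_le_mul_of_nonneg_left (hp.2.1 j ?_) hr0.le
        push_cast
        gcongr
        linarith) w hw.1 (fun z ⟨j, _, hj⟩ => by
      by_contra h
      have h5 := mem_ball_zero_iff.1 (h4 (subset_tsupport _ h))
      have h6 := PiLp.norm_apply_le (toLp 2 z : Eu m) j
      simp only [hj, if_true, norm_neg, Real.norm_eq_abs] at h6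
      linarith [le_abs_self R]) _ B hB h3
  refine ⟨q.sum, h2 q q1 (Nat.le_floor q2), fun γ hγ h5 h6 => ?_⟩
  have h7 := q3 γ fun j => (hγ j).2
  have h8 : p a (gpt K γ a) = c := by
    rcases (abs_eq zero_le_one).1 hc with h | h <;> simp [h6, h, (hp.1 a).2.1, (hp.1 a).2.2]
  have h9 : (toLp 2 (pt (Finset.univ.erase a).toList
      (fun j n => if n = 0 then -R else r * p j (((n : ℝ) - 1 - K) / K)) γ (update 0 a (r * c))) : Eu m)
      = r • toLp 2 fun j => p j (gpt K γ j) := by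
    ext j
    by_cases h : j = a
    · subst h; simp [pt, h8]
    · simp [pt, h, (hγ j).1, gpt]
  have h10 : Cube fun j => p j (gpt K γ j) := fun j =>
    abs_le_of_mono (hp.2.1 j) (hp.1 j).2.1 (hp.1 j).2.2 (h5 j)
  have h11 := PiLp.norm_apply_le (toLp 2 fun j => p j (gpt K γ j) : Eu m) a
  simp only [h8, Real.norm_eq_abs, hc] at h11
  have h12 := hw.2.2.2 (r • toLp 2 fun j => p j (gpt K γ j))
    (by rw [norm_smul, Real.norm_of_nonneg hr0.le]; nlinarith)
    (by rw [norm_smul, Real.norm_of_nonneg hr0.le]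
        exact mul_le_mul hr2 h10.norm_le (norm_nonneg _) zero_le_two)
  rw [nz_smul_pos hr0, norm_sub_rev] at h12
  rw [h9] at h7
  exact (norm_sub_le_norm_sub_add_norm_sub _ _ _).trans (add_le_add h12 h7)

end Pool.Agent.Lib.MP_f35bed_an
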