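import Pool.Agent.Lib.MP_f35bed_an.Polar

/-!
Weak derivatives on Euclidean space, mollification, and an interpolation inequality.
-/

open MeasureTheory Filter Topology Metric Set ContinuousLinearMap
open scoped ContDiff Convolution ENNReal

namespace Pool.Agent.Lib.MP_f35bed_an

variable {m : ℕ} {V : Type} [NormedAddCommGroup V] [NormedSpace ℝ V]

/-- Directional derivative along a basis vector. -/
noncomputable def pd (i : Fin (m + 1)) (w : Eu m → V) (y : Eu m) : V :=
  fderiv ℝ w y (EuclideanSpace.single i 1)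

/-- Weak directional derivative. -/
def WD (i : Fin (m + 1)) (u g : Eu m → V) : Prop :=
  ∀ ψ : Eu m → ℝ, ContDiff ℝ ∞ ψ → HasCompactSupport ψ →
    ∫ y, pd i ψ y • u y = - ∫ y, ψ y • g y

noncomputable def mol (ρ : ContDiffBump (0 : Eu m)) (u : Eu m → V) : Eu m → V :=
  ρ.normed volume ⋆[lsmul ℝ ℝ, volume] u

lemma mol_smooth (ρ : ContDiffBump (0 : Eu m)) {u : Eu m → V} (hu : Integrable u) :
    ContDiff ℝ ∞ (mol ρ u) :=
  ρ.hasCompactSupport_normed.contDiff_convolution_left _ ρ.contDiff_normed hu.locallyIntegrable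

lemma mol_integrable (ρ : ContDiffBump (0 : Eu m)) {u : Eu m → V} (hu : Integrable u) :
    Integrable (mol ρ u) := ρ.integrable_normed.integrable_convolution _ hu

lemma mol_norm_le (ρ : ContDiffBump (0 : Eu m)) {u : Eu m → V} (hu : Integrable u) :
    ∫ y, ‖mol ρ u y‖ ≤ ∫ y, ‖u y‖ := by
  have h1 := integral_convolution (lsmul ℝ ℝ) (ρ.integrable_normed (μ := volume)) hu.norm
  rw [ρ.integral_normed, lsmul_apply, one_smul] at h1
  rw [← h1]
  refine integral_mono (mol_integrable ρ hu).norm (mol_integrable ρ hu.norm) fun y => ?_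
  refine (norm_integral_le_integral_norm _).trans (le_of_eq ?_)
  refine integral_congr_ae (Eventually.of_forall fun t => ?_)
  simp only [lsmul_apply, norm_smul, smul_eq_mul, Real.norm_of_nonneg (ρ.nonneg_normed t)]

lemma pd_mol [CompleteSpace V] (ρ : ContDiffBump (0 : Eu m)) {i : Fin (m + 1)} {u g : Eu m → V}
    (hu : Integrable u) (h : WD i u g) : pd i (mol ρ u) = mol ρ g := by
  ext x
  have hs : ContDiff ℝ ∞ (ρ.normed volume) := ρ.contDiff_normed
  have h1 := (ρ.hasCompactSupport_normed (μ := volume)).hasFDerivAt_convolution_right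
    (lsmul ℝ ℝ : ℝ →L[ℝ] V →L[ℝ] V).flip hu.locallyIntegrable (hs.of_le (by simp)) x
  rw [convolution_flip] at h1
  have h2 := h (fun t => ρ.normed volume (x - t)) (hs.comp (contDiff_const.sub contDiff_id))
    (ρ.hasCompactSupport_normed.comp_homeomorph (Homeomorph.subLeft x))
  have h3 : ∀ t, pd i (fun t => ρ.normed volume (x - t)) t
      = - fderiv ℝ (ρ.normed volume) (x - t) (EuclideanSpace.single i 1) := by
    intro t
    have := ((hs.differentiable (by simp) (x - t)).hasFDerivAt.comp t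
      ((hasFDerivAt_id t).const_sub x)).fderiv
    rw [pd, show (fun t => ρ.normed volume (x - t)) = ρ.normed volume ∘ HSub.hSub x from rfl,
      this]
    simp
  simp only [h3, neg_smul, integral_neg, neg_inj] at h2
  rw [pd, mol, h1.fderiv, convolution_precompR_apply _ hu.locallyIntegrable
    (ρ.hasCompactSupport_normed.fderiv ℝ) (hs.continuous_fderiv (by simp)), mol,
    convolution_def, convolution_eq_swap]
  simpa using h2

lemma pd_smooth (i : Fin (m + 1)) {w : Eu m → V} (hw : ContDiff ℝ ∞ w) : ContDiff ℝ ∞ (pd i w) :=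
  (hw.fderiv_right (m := ∞) le_rfl).clm_apply contDiff_const

lemma hasDerivAt_line (i : Fin (m + 1)) {w : Eu m → V} (hw : ContDiff ℝ ∞ w) (x : Eu m) (t : ℝ) :
    HasDerivAt (fun t : ℝ => w (x + t • EuclideanSpace.single i 1))
      (pd i w (x + t • EuclideanSpace.single i 1)) t := by
  have := (hw.differentiable (by simp) (x + t • EuclideanSpace.single i 1)).hasFDerivAt.comp_hasDerivAt
    t (((hasDerivAt_id t).smul_const (EuclideanSpace.single i (1 : ℝ))).const_add x)
  rw [one_smul] at this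
  exact this

lemma interp_smooth [CompleteSpace V] (i : Fin (m + 1)) {w : Eu m → V} (hw : ContDiff ℝ ∞ w)
    {ε : ℝ} (hε : 0 < ε) :
    ENNReal.ofReal ε * ∫⁻ y, ‖pd i w y‖ₑ
      ≤ ENNReal.ofReal 2 * (∫⁻ y, ‖w y‖ₑ) + ENNReal.ofReal ε * (ENNReal.ofReal ε * ∫⁻ y, ‖pd i (pd i w) y‖ₑ) := by
  set e : Eu m := EuclideanSpace.single i 1 with he
  have hw1 := pd_smooth i hw
  have c0 := hw.continuous
  have c2 := (pd_smooth i hw1).continuous
  have h1 : ∀ x, ENNReal.ofReal ε * ‖pd i w x‖ₑ ≤ ‖w (x + ε • e)‖ₑ + ‖w x‖ₑ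
      + ENNReal.ofReal ε * ∫⁻ s in Ioc 0 ε, ‖pd i (pd i w) (x + s • e)‖ₑ := by
    intro x
    have c3 : Continuous fun s : ℝ => pd i (pd i w) (x + s • e) := by fun_prop
    have h2 : ∀ t ∈ Ico 0 ε, ‖pd i w (x + t • e) - pd i w x‖
        ≤ ∫ s in Ioc 0 ε, ‖pd i (pd i w) (x + s • e)‖ := by
      intro t ht
      have h3 := intervalIntegral.integral_eq_sub_of_hasDerivAt
        (fun s _ => hasDerivAt_line i hw1 x s) (c3.intervalIntegrable 0 t)
      rw [zero_smul, add_zero] at h3
      rw [← h3]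
      refine (intervalIntegral.norm_integral_le_integral_norm ht.1).trans ?_
      rw [intervalIntegral.integral_of_le ht.1]
      exact setIntegral_mono_set c3.norm.integrableOn_Ioc
        (Eventually.of_forall fun _ => norm_nonneg _) (Ioc_subset_Ioc_right ht.2.le).eventuallyLE
    have h3 := norm_image_sub_le_of_norm_deriv_le_segment' (a := 0) (b := ε)
      (f := fun t : ℝ => w (x + t • e) - t • pd i w x)
      (fun t _ => ((hasDerivAt_line i hw x t).sub
        ((hasDerivAt_id t).smul_const (pd i w x))).hasDerivWithinAt)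
      (fun t ht => by rw [one_smul]; exact h2 t ht) ε (right_mem_Icc.2 hε.le)
    simp only [zero_smul, add_zero, sub_zero] at h3
    have h4 : ε * ‖pd i w x‖ ≤ ‖w (x + ε • e)‖ + ‖w x‖
        + ε * ∫ s in Ioc 0 ε, ‖pd i (pd i w) (x + s • e)‖ := by
      have h5 : ε • pd i w x = w (x + ε • e) - w x - (w (x + ε • e) - ε • pd i w x - w x) := by abel
      have h6 := congrArg norm h5
      rw [norm_smul, Real.norm_of_nonneg hε.le] at h6
      linarith [norm_sub_le (w (x + ε • e) - w x) (w (x + ε • e) - ε • pd i w x - w x),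
        norm_sub_le (w (x + ε • e)) (w x)]
    rw [← ofReal_integral_norm_eq_lintegral_enorm c3.integrableOn_Ioc, ← ofReal_norm, ← ofReal_norm,
      ← ofReal_norm, ← ENNReal.ofReal_mul hε.le, ← ENNReal.ofReal_mul hε.le,
      ← ENNReal.ofReal_add (norm_nonneg _) (norm_nonneg _),
      ← ENNReal.ofReal_add (by positivity) (by positivity)]
    exact ENNReal.ofReal_le_ofReal h4
  rw [← lintegral_const_mul' _ _ ENNReal.ofReal_ne_top]
  refine (lintegral_mono h1).trans (le_of_eq ?_)
  rw [lintegral_add_left (Continuous.measurable (by fun_prop)),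
    lintegral_add_left (Continuous.measurable (by fun_prop)),
    lintegral_add_right_eq_self (fun x => ‖w x‖ₑ), ENNReal.ofReal_ofNat, two_mul,
    lintegral_const_mul' _ _ ENNReal.ofReal_ne_top,
    lintegral_lintegral_swap (Continuous.measurable (by fun_prop)).aemeasurable]
  simp only [lintegral_add_right_eq_self (fun x => ‖pd i (pd i w) x‖ₑ)]
  rw [setLIntegral_const, Real.volume_Ioc, sub_zero, mul_comm (∫⁻ _, _)]

lemma interp [CompleteSpace V] {i : Fin (m + 1)} {u g h : Eu m → V} (hu : Integrable u)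
    (hg : Integrable g) (hh : Integrable h) (h1 : WD i u g) (h2 : WD i g h) {ε : ℝ} (hε : 0 < ε) :
    ∫ y, ‖g y‖ ≤ 2 / ε * (∫ y, ‖u y‖) + ε * ∫ y, ‖h y‖ := by
  set ρ : ℕ → ContDiffBump (0 : Eu m) := fun n =>
    ⟨1 / ((n : ℝ) + 1) / 2, 1 / ((n : ℝ) + 1), by positivity, half_lt_self (by positivity)⟩ with hρ
  have h3 := ContDiffBump.ae_convolution_tendsto_right_of_locallyIntegrable (φ := ρ) (l := atTop)
    (K := 2) tendsto_one_div_add_atTop_nhds_zero_nat
    (Eventually.of_forall fun n => le_of_eq (by simp only [hρ]; ring)) hg.locallyIntegrable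
  have h4 : ∀ n, ∫ y, ‖mol (ρ n) g y‖ ≤ 2 / ε * (∫ y, ‖u y‖) + ε * ∫ y, ‖h y‖ := by
    intro n
    have h5 := interp_smooth i (mol_smooth (ρ n) hu) hε
    rw [pd_mol _ hu h1, pd_mol _ hg h2,
      ← ofReal_integral_norm_eq_lintegral_enorm (mol_integrable _ hu),
      ← ofReal_integral_norm_eq_lintegral_enorm (mol_integrable _ hg),
      ← ofReal_integral_norm_eq_lintegral_enorm (mol_integrable _ hh), ← ENNReal.ofReal_mul hε.le,
      ← ENNReal.ofReal_mul hε.le, ← ENNReal.ofReal_mul hε.le,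
      ← ENNReal.ofReal_mul zero_le_two, ← ENNReal.ofReal_add (by positivity) (by positivity),
      ENNReal.ofReal_le_ofReal_iff (by positivity)] at h5
    refine le_of_mul_le_mul_left (h5.trans ?_) hε
    rw [mul_add, ← mul_assoc ε (2 / ε), mul_div_cancel₀ _ hε.ne']
    have h6 := mol_norm_le (ρ n) hu
    have h7 := mol_norm_le (ρ n) hh
    exact add_le_add (mul_le_mul_of_nonneg_left h6 zero_le_two)
      (mul_le_mul_of_nonneg_left (mul_le_mul_of_nonneg_left h7 hε.le) hε.le)
  have h5 := Lp.eLpNorm_le_of_ae_tendsto (p := 1) (u := atTop) (f := fun n => mol (ρ n) g)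
    (C := ENNReal.ofReal (2 / ε * (∫ y, ‖u y‖) + ε * ∫ y, ‖h y‖)) (Eventually.of_forall fun n => by
      rw [eLpNorm_one_eq_lintegral_enorm,
        ← ofReal_integral_norm_eq_lintegral_enorm (mol_integrable _ hg)]
      exact ENNReal.ofReal_le_ofReal (h4 n)) (fun n => (mol_integrable _ hg).1) h3
  rwa [eLpNorm_one_eq_lintegral_enorm, ← ofReal_integral_norm_eq_lintegral_enorm hg,
    ENNReal.ofReal_le_ofReal_iff (by positivity)] at h5

end Pool.Agent.Lib.MP_f35bed_an
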